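import Pool.Agent.H567.PP.Stm
import Pool.Graph.R_pool_sql_team_seeded_47a924f7.T6.H3.FF.Main

/-!
# Project PP (helper567), third part: the moduli up to `x ^ (4 / 5)`, and Jacobi sums
-/

set_option autoImplicit false

namespace Pool.Agent.H567.PP

open Finset
open Pool.Agent.T6.H3.FF (GM WinM)

/-- (18) Jacobi sums: only the common part of `a` and the conductor matters -/
def S_JAC2 : Prop := ∀ (q : ℕ) [NeZero q] (χ₁ χ₂ : DirichletCharacter ℂ q) (a : ZMod q),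
  ‖∑ l : ZMod q, χ₁ l * χ₂ (a - l)‖ ≤
    q * (1 + Real.log q) * Real.sqrt ((Nat.gcd a.val χ₁.conductor : ℝ) / χ₁.conductor)

/-- (19) the minorant twisted by a character whose conductor has a small radical -/
def S_GMB : Prop := ∀ B U : ℕ, ∃ N₀ : ℕ, ∀ N : ℕ, N₀ ≤ N → ∀ (d : ℕ) (ψ : DirichletCharacter ℂ d),
  ψ.IsPrimitive → (rad d : ℝ) ≤ Real.log N ^ B → 8 * Real.log N ^ B < d → d ≤ N → ∀ y : ℕ, y ≤ N →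
  ‖∑ n ∈ Icc 1 y, GM N n * ψ (n : ZMod d)‖ ≤ N / Real.log N ^ U

/-- (20) `Pool.Agent.T6.H3.FR.class_few_reg4` where the members of `D` have a large radical -/
def S_FRRAD : Prop := ∀ (Q : ℕ → Prop) (W : ℕ), (∃ n₀ : ℕ, ∀ n : ℕ, n₀ ≤ n → 2 ∣ n → WinM W n → Q n) →
  ∀ (ρ : ℝ), 0 < ρ → ∀ A : ℕ,
    ∃ c : ℕ, ∀ A₀ : ℕ, ∃ x₀ : ℝ, ∀ x : ℝ, x₀ ≤ x → ∃ D : Finset ℕ, (D.card : ℝ) ≤ Real.log x ^ c ∧
      (∀ d ∈ D, Real.log x ^ A₀ < (rad d : ℝ)) ∧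
      ∀ q : ℕ, 1 ≤ q → (q : ℝ) ≤ x ^ (4 / 5 - ρ) → (∀ d ∈ D, ¬ d ∣ q) → ∀ a : ℤ,
        ({n : ℕ | 0 < n ∧ (n : ℝ) ≤ x ∧ 2 ∣ n ∧ (n : ℤ) ≡ a [ZMOD q] ∧ ¬ Q n}).Finite ∧
        (({n : ℕ | 0 < n ∧ (n : ℝ) ≤ x ∧ 2 ∣ n ∧ (n : ℤ) ≡ a [ZMOD q] ∧ ¬ Q n}.ncard : ℕ) : ℝ) ≤
          x / (q * Real.log x ^ A)

end Pool.Agent.H567.PP
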