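import Pool.Agent.H567.HW.SI13
import Pool.Graph.R_seed8.Y957.VK.Fin1
import Pool.Agent.H567.PP.X.LogAdd
import Pool.Agent.H567.PP.X.LamVal
import Pool.Agent.H567.PP.X.Post
import Pool.Agent.H567.PP.X.Shiftq
import Pool.Agent.H567.PP.X.Gap
import Pool.Agent.H567.PP.X.Idx
import Pool.Agent.H567.PP.X.Tnq
import Pool.Agent.H567.PP.X.Dsel
import Pool.Agent.H567.PP.X.Mod4
import Pool.Agent.H567.PP.X.TBBig
import Pool.Agent.H567.PP.X.TbSmall
import Pool.Agent.H567.PP.X.TBAll
import Pool.Agent.H567.PP.X.Tb2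
import Pool.Agent.H567.PP.X.PPR
import Pool.Agent.H567.PP.X.Pint

/-!
Project PP (helper567): assembly of the bound for the primes twisted by characters whose conductor has a small radical.
-/

set_option autoImplicit false

namespace Pool.Agent.H567.PP

theorem post_all : S_POST := Pool.Agent.H190.PP.post Pool.Agent.H348.PP.logadd Pool.Agent.H348.PP.lamval

theorem tnq_all : S_TNQ := Pool.Agent.H980.PP.tnq Pool.Agent.Y957.VK.vmvt_all Pool.Agent.Y957.VK.dbl_all
  Pool.Agent.Y331.VK.wb

theorem tbbig_all : S_TBBIG := Pool.Agent.H17.PP.tbbig post_all Pool.Agent.H278.PP.shiftq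
  (Pool.Agent.H707.PP.idx Pool.Agent.H79.PP.wgap) tnq_all Pool.Agent.H980.PP.dsel Pool.Agent.H127.PP.mod4

theorem tball_all : S_TBALL := Pool.Agent.H894.PP.tball tbbig_all
  (Pool.Agent.H588.PP.tbsmall Pool.Agent.helper24_UT.Zsx.main)

theorem tb2_all : S_TB2 := Pool.Agent.H187.PP.tb2 tball_all Pool.Agent.H127.PP.sqne

/-- the primes twisted by a primitive character whose conductor has a small radical -/
theorem ppr_all : S_PPR := Pool.Agent.H120.PP.ppr Pool.Agent.H567.HW.u_PG tball_all tb2_all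

theorem pint_all : S_PINT := Pool.Agent.H263.PP.pint ppr_all

end Pool.Agent.H567.PP
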