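import Pool.Agent.H567.PP.Stm
import Pool.Graph.R_seed8.R460.GS.J1

/-!
# Project PP (helper567), second part: the cells of the bilinear decomposition of the primes
-/

set_option autoImplicit false

namespace Pool.Agent.H567.PP

open Finset
open Pool.Agent.helper24_UT (tw)
open Pool.Agent.R460.GS (a1 a2)

/-- (14) the primes in an interval -/
def S_PINT : Prop := ∃ η : ℝ, 0 < η ∧ η ≤ 1 / 10 ∧ ∀ B K : ℕ, ∃ L₀ : ℝ, 2 ≤ L₀ ∧ ∀ L : ℝ, L₀ ≤ L →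
  ∀ (q : ℕ) (χ : DirichletCharacter ℂ q) (t : ℝ), χ.IsPrimitive → (rad q : ℝ) ≤ L ^ B → 8 * L ^ B < q →
  (q : ℝ) ≤ Real.exp L → |t| ≤ Real.exp L → ∀ x y : ℕ, x ≤ y → Real.exp (L ^ (1 - η)) ≤ y →
  (y : ℝ) ≤ Real.exp L →
  ‖∑ p ∈ (Ioc x y).filter Nat.Prime, χ (p : ZMod q) * tw t p‖ ≤ y / L ^ K

/-- (15) square-free smooth numbers -/
def S_SMOOTH : Prop := ∀ η : ℝ, 0 < η → η ≤ 1 / 2 → ∀ k K : ℕ, 1 ≤ k → ∃ L₀ : ℝ, 2 ≤ L₀ ∧ ∀ L : ℝ, L₀ ≤ L →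
  ∀ X : ℕ, Real.exp (L / k) ≤ 4 * X → (X : ℝ) ≤ Real.exp (2 * L) →
  (((Ico X (2 * X)).filter (fun m : ℕ => Squarefree m ∧ ∀ p : ℕ, p ∈ m.primeFactors → (p : ℝ) ≤ Real.exp (L ^ (1 - η)))).card : ℝ) ≤
    X / L ^ K

/-- (16) the cells of the primes -/
def S_CELL1 : Prop := ∃ η : ℝ, 0 < η ∧ η ≤ 1 / 10 ∧ ∀ B K : ℕ, ∃ L₀ : ℝ, 2 ≤ L₀ ∧ ∀ L : ℝ, L₀ ≤ L →
  ∀ (q : ℕ) (χ : DirichletCharacter ℂ q) (t : ℝ), χ.IsPrimitive → (rad q : ℝ) ≤ L ^ B → 8 * L ^ B < q →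
  (q : ℝ) ≤ Real.exp L → |t| ≤ Real.exp L → ∀ c : ℕ → ℕ, (∀ m n : ℕ, 1 ≤ m → m ≤ n → c m ≤ c n) →
  ∀ W Z j X : ℕ, Real.exp (L ^ (1 - η)) ≤ W → (Z : ℝ) ≤ Real.exp L →
  ‖∑ m ∈ Ico X (2 * X), a1 W Z c j m * (χ (m : ZMod q) * tw t m)‖ ≤ X / L ^ K

/-- (17) the cells of the divisors -/
def S_CELL2 : Prop := ∀ k B K : ℕ, 1 ≤ k → ∃ L₀ : ℝ, 2 ≤ L₀ ∧ ∀ L : ℝ, L₀ ≤ L →
  ∀ (q : ℕ) (χ : DirichletCharacter ℂ q) (t : ℝ), χ.IsPrimitive → (rad q : ℝ) ≤ L ^ B → 8 * L ^ B < q →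
  (q : ℝ) ≤ Real.exp L → |t| ≤ Real.exp L → ∀ c : ℕ → ℕ, (∀ m n : ℕ, 1 ≤ m → m ≤ n → c m ≤ c n) →
  ∀ W j X : ℕ, Real.exp (L / k) ≤ 2 * W → (W : ℝ) ≤ Real.exp L →
  ‖∑ m ∈ Ico X (2 * X), a2 W W c j m * (χ (m : ZMod q) * tw t m)‖ ≤ X / L ^ K

end Pool.Agent.H567.PP
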