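import Pool.Agent.H567.PP.Maj
import Pool.Agent.H567.PP.Stm2
import Pool.Agent.H567.HW.Pr3

/-!
Project PP (helper567): characters whose conductor has a small radical are not bad for the short intervals.
-/

set_option autoImplicit false

namespace Pool.Agent.H567.PP

open Finset
open Pool.Agent.H376R2.MR (ch DP FK)
open Pool.Agent.Y883.GJ (LA)
open Pool.Agent.Y614.GJ.Core (ev_log)
open Pool.Agent.H567.HW
open Pool.Agent.R460.GS
open Pool.Agent.R460.GH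

lemma tw_eq (k : ℤ) (n : ℕ) : ch k (Real.log n) = Pool.Agent.helper24_UT.tw (k : ℝ) (n : ℝ) := by
  unfold ch Pool.Agent.helper24_UT.tw Pool.Agent.H376R2.MR.er
  congr 2
  push_cast
  ring

lemma cs1_eq {q : ℕ} (M : ℕ) (a : ℕ → ℂ) (χ : DirichletCharacter ℂ q) (k : ℤ) :
    cs1 M a χ k = ∑ m ∈ Ico M (2 * M), a m * (χ (m : ZMod q) * Pool.Agent.helper24_UT.tw (k : ℝ) (m : ℝ)) := by
  unfold cs1 cI
  refine sum_congr rfl fun m _ => ?_
  unfold HW.tw
  rw [tw_eq]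

lemma cc_mono (N U : ℕ) (m n : ℕ) (hm : 1 ≤ m) (hmn : m ≤ n) : cc N U m ≤ cc N U n := by
  unfold cc Pool.Agent.Y183.GJ.ci
  refine Nat.floor_le_floor ?_
  rw [div_inv_eq_mul, div_inv_eq_mul]
  refine mul_le_mul_of_nonneg_right ?_ (by positivity)
  exact Real.log_le_log (by exact_mod_cast hm) (by exact_mod_cast hmn)

open Classical in
/-- characters whose conductor has a small radical are not bad -/
theorem nb (h1 : S_CELL1) (h2 : S_CELL2) (A B : ℕ) {ρ : ℝ} (hρ : 0 < ρ) (hρ3 : ρ ≤ 1 / 3) : ∃ Y₀ : ℕ, ∀ Y : ℕ, Y₀ ≤ Y →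
    ∀ (d : ℕ) (ψ : DirichletCharacter ℂ d), (rad d : ℝ) ≤ Real.log ((3 * Y : ℕ) : ℝ) ^ B →
      8 * Real.log ((3 * Y : ℕ) : ℝ) ^ B < (d : ℝ) → ¬ BadW A ρ Y d ψ := by
  obtain ⟨N₁, j₀, k, U, hk, hmaj⟩ := majLAy A hρ hρ3
  obtain ⟨η, hη0, hη1, h1'⟩ := h1
  obtain ⟨L₁, hL₁2, h1''⟩ := h1' B j₀
  obtain ⟨L₂, hL₂2, h2'⟩ := h2 k B j₀ (by omega)
  have hk0 := inv_k hk
  have hkr : (12 : ℝ) ≤ k := by exact_mod_cast hk
  -- `N ^ (1 / k) / 2 ≥ exp (L ^ (1 - η))` for large `N`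
  have hev : ∀ᶠ N : ℕ in Filter.atTop, 2 * Real.exp (Real.log N ^ (1 - η)) ≤ (N : ℝ) ^ (1 / (k : ℝ)) := by
    have e1 : ∀ᶠ L : ℝ in Filter.atTop, Real.log 2 + L ^ (1 - η) ≤ L * (1 / (k : ℝ)) := by
      have hk1 : (0 : ℝ) < 1 / (k : ℝ) / 2 := by have := hk0.1; linarith
      have e3 := (tendsto_rpow_neg_atTop hη0).eventually_le_const hk1
      filter_upwards [e3, Filter.eventually_ge_atTop (1 : ℝ),
        Filter.eventually_ge_atTop (Real.log 2 / (1 / (k : ℝ) / 2))] with L h3 h4 h5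
      rw [div_le_iff₀ hk1] at h5
      have h6 : L ^ (1 - η) = L * L ^ (-η) := by
        rw [sub_eq_add_neg, Real.rpow_add (by linarith), Real.rpow_one]
      have h7 : L * L ^ (-η) ≤ L * (1 / (k : ℝ) / 2) := mul_le_mul_of_nonneg_left h3 (by linarith)
      rw [h6]
      linarith
    have e4 := (Real.tendsto_log_atTop.comp tendsto_natCast_atTop_atTop).eventually e1
    filter_upwards [e4, Filter.eventually_ge_atTop 1] with N h4 h5
    have hN0 : (0 : ℝ) < N := by exact_mod_cast h5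
    simp only [Function.comp_apply] at h4
    calc 2 * Real.exp (Real.log N ^ (1 - η)) = Real.exp (Real.log 2 + Real.log N ^ (1 - η)) := by
          rw [Real.exp_add, Real.exp_log two_pos]
      _ ≤ Real.exp (Real.log N * (1 / (k : ℝ))) := Real.exp_le_exp.2 h4
      _ = _ := by rw [Real.rpow_def_of_pos hN0]
  obtain ⟨N₃, hN₃⟩ := Filter.eventually_atTop.1 hev
  obtain ⟨N₂, hN₂⟩ := Filter.eventually_atTop.1 (ev_log (3 * j₀ + 1) (s := 1 / 3) (by norm_num)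
    (max (max L₁ L₂) 100))
  refine ⟨max (max N₁ N₂) (max N₃ 1), fun Y hY d ψ hrad hlarge hbad => ?_⟩
  obtain ⟨N, hN⟩ : ∃ N, N = 3 * Y := ⟨_, rfl⟩
  have hYN : Y ≤ N := by omega
  have hNN₁ : N₁ ≤ N := (le_trans (le_trans (le_max_left _ _) (le_max_left _ _)) hY).trans hYN
  have hNN₂ : N₂ ≤ N := (le_trans (le_trans (le_max_right _ _) (le_max_left _ _)) hY).trans hYN
  have hNN₃ : N₃ ≤ N := (le_trans (le_trans (le_max_left _ _) (le_max_right _ _)) hY).trans hYN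
  have hY1 : 1 ≤ Y := le_trans (le_trans (le_max_right _ _) (le_max_right _ _)) hY
  have hN1 : 1 ≤ N := by omega
  obtain ⟨hLb, hLp⟩ := hN₂ N hNN₂
  have hN0 : (0 : ℝ) < N := by exact_mod_cast hN1
  have hNr1 : (1 : ℝ) ≤ N := by exact_mod_cast hN1
  have hL1' : L₁ ≤ Real.log N := (le_max_left _ _).trans ((le_max_left _ _).trans hLb)
  have hL2' : L₂ ≤ Real.log N := (le_max_right _ _).trans ((le_max_left _ _).trans hLb)
  have hL100 : 100 ≤ Real.log N := (le_max_right _ _).trans hLb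
  have hexpL : Real.exp (Real.log N) = N := Real.exp_log hN0
  have hW := hN₃ N hNN₃
  have hWk : (N : ℝ) ^ (1 / (k : ℝ)) ≤ 2 * (Wk k N : ℝ) := by
    have e1 := Nat.lt_floor_add_one ((N : ℝ) ^ (1 / (k : ℝ)))
    have e2 : (1 : ℝ) ≤ (Wk k N : ℝ) := by exact_mod_cast one_le_Wk (k := k) hN1
    unfold Wk at e2 ⊢
    linarith
  have hWN : (Wk k N : ℝ) ≤ N := by exact_mod_cast (Wk_le hN1).trans (Zk_le hk hN1)
  have hZN : (Zk k N : ℝ) ≤ N := by exact_mod_cast Zk_le hk hN1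
  rw [← hN] at hrad hlarge
  obtain ⟨hd1, hprim, W, hW1, hW2, hW3⟩ := hbad
  rw [← hN] at hW1 hW2 hW3
  have hne : NeZero d := ⟨by omega⟩
  have hd0 : (1 : ℝ) < d := by exact_mod_cast hd1
  have hW13 : (N : ℝ) ^ (1 / 3 : ℝ) ≤ W := by
    calc (N : ℝ) ^ (1 / 3 : ℝ) ≤ (N : ℝ) ^ (1 / 3 + ρ) := Real.rpow_le_rpow_of_exponent_le hNr1 (by linarith)
      _ ≤ d * (N : ℝ) ^ (1 / 3 + ρ) := le_mul_of_one_le_left (by positivity) hd0.le
      _ ≤ W := hW1
  have hN13 : 1 ≤ (N : ℝ) ^ (1 / 3 : ℝ) := Real.one_le_rpow hNr1 (by norm_num)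
  have hW0 : (0 : ℝ) < W := by linarith
  have hY0 : (0 : ℝ) < Y := by exact_mod_cast hY1
  have hLone : 1 ≤ Real.log N := by linarith
  have hdN : (d : ℝ) ≤ N := by
    have h1 : (d : ℝ) ≤ W := le_trans (le_mul_of_one_le_right (by linarith)
      (Real.one_le_rpow hNr1 (by linarith))) hW1
    have h2 : (W : ℝ) ≤ Y := by
      refine le_trans (le_mul_of_one_le_right hW0.le ?_) hW2
      exact one_le_pow₀ hLone
    have h3 : (Y : ℝ) ≤ N := by exact_mod_cast hYN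
    exact (h1.trans h2).trans h3
  obtain ⟨Bs, -, hBe, hB⟩ := hmaj Y N hN hNN₁ d W hW1 hW2
  have hψ1 : ψ ≠ 1 := by
    intro h
    have h1 : ψ.conductor = d := hprim
    rw [h, DirichletCharacter.conductor_one] at h1
    omega
  have hmem : ψ ∈ Bs := by
    by_contra hcon
    have h1 := hB {ψ} (disjoint_singleton_left.2 hcon)
    simp only [sum_singleton] at h1
    exact absurd hW3 (not_lt.2 h1)
  obtain ⟨j, i, hi, hbb⟩ := hBe ψ hmem hψ1
  -- the frequencies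
  have hK : ((⌊(Y : ℝ) / W * Real.log N ^ (3 * j₀)⌋₊ + 1 : ℕ) : ℝ) ≤ N := by
    have h1 : (Y : ℝ) / W * Real.log N ^ (3 * j₀) + 1 ≤ N := by
      have h2 : Real.log N ^ (3 * j₀) ≤ (N : ℝ) ^ (1 / 3 : ℝ) := (pow_le_pow_right₀ hLone (by omega)).trans hLp
      have h3 : (Y : ℝ) / W * Real.log N ^ (3 * j₀) ≤ Y := by
        rw [div_mul_eq_mul_div, div_le_iff₀ hW0]
        exact mul_le_mul_of_nonneg_left (h2.trans hW13) hY0.le
      have h4 : (N : ℝ) = 3 * Y := by rw [hN]; push_cast; ring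
      have h5 : (1 : ℝ) ≤ Y := by exact_mod_cast hY1
      linarith
    have h2 := Nat.floor_le (show 0 ≤ (Y : ℝ) / W * Real.log N ^ (3 * j₀) by positivity)
    push_cast
    linarith
  have hfreq : ∀ kk ∈ FK (⌊(Y : ℝ) / W * Real.log N ^ (3 * j₀)⌋₊ + 1), |((kk : ℤ) : ℝ)| ≤ Real.exp (Real.log N) := by
    intro kk hkk
    rw [hexpL]
    refine le_trans ?_ hK
    unfold FK at hkk
    rw [mem_Ioo] at hkk
    rw [abs_le]
    constructor
    · have : (-((⌊(Y : ℝ) / W * Real.log N ^ (3 * j₀)⌋₊ + 1 : ℕ) : ℤ) : ℤ) ≤ kk := hkk.1.le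
      exact_mod_cast this
    · exact_mod_cast hkk.2.le
  have hmono := cc_mono N U
  have hexpη : Real.exp (Real.log N ^ (1 - η)) ≤ (Wk k N : ℝ) := by linarith
  have hexpk : Real.exp (Real.log N / k) ≤ 2 * (Wk k N : ℝ) := by
    refine le_trans (le_of_eq ?_) hWk
    rw [Real.rpow_def_of_pos hN0]
    congr 1
    ring
  rcases hbb with ⟨-, kk, hkk, hb⟩ | ⟨-, kk, hkk, hb⟩
  · rw [cs1_eq] at hb
    have h9 := h1'' (Real.log N) hL1' d ψ (kk : ℝ) hprim hrad hlarge (by rw [hexpL]; exact hdN) (hfreq kk hkk)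
      (cc N U) hmono (Wk k N) (Zk k N) j (2 ^ i) hexpη (by rw [hexpL]; exact hZN)
    rw [inv_mul_eq_div] at hb
    exact absurd hb (not_lt.2 h9)
  · rw [cs1_eq] at hb
    have h9 := h2' (Real.log N) hL2' d ψ (kk : ℝ) hprim hrad hlarge (by rw [hexpL]; exact hdN) (hfreq kk hkk)
      (cc N U) hmono (Wk k N) j (2 ^ i) hexpk (by rw [hexpL]; exact hWN)
    rw [inv_mul_eq_div] at hb
    exact absurd hb (not_lt.2 h9)

end Pool.Agent.H567.PP
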