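import Pool.Agent.H567.HW.RegT
import Pool.Agent.H567.PP.NB

/-!
Project PP (helper567): the regular moduli; the exceptional integers have a large radical.
-/

set_option autoImplicit false

namespace Pool.Agent.H567.PP

open Finset Filter
open Pool.Agent.H567.HW
open Pool.Agent.H560R3.GB (g HL sing)
open Pool.Agent.Y614.GJ.Core (ev_log)

lemma rad_pos (d : ℕ) : 1 ≤ rad d := by
  unfold rad
  exact Finset.prod_pos fun p hp => (Nat.prime_of_mem_primeFactors hp).pos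

/-- the radical of a quotient -/
lemma rad_div {e j : ℕ} (he : 1 ≤ e) (hj : 1 ≤ j) : rad e ≤ rad (e / Nat.gcd e j) * j := by
  obtain ⟨m, hm⟩ : ∃ m, m = e / Nat.gcd e j := ⟨_, rfl⟩
  have hg : 1 ≤ Nat.gcd e j := Nat.gcd_pos_of_pos_left _ he
  have hem : e = m * Nat.gcd e j := by
    rw [hm]
    exact (Nat.div_mul_cancel (Nat.gcd_dvd_left e j)).symm
  rw [← hm]
  have hm0 : m ≠ 0 := by
    rintro rfl
    omega
  have h1 : e.primeFactors ⊆ m.primeFactors ∪ j.primeFactors := by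
    intro p hp
    rw [mem_union]
    obtain ⟨hpp, hpe, -⟩ := Nat.mem_primeFactors.1 hp
    rw [hem] at hpe
    rcases (Nat.Prime.dvd_mul hpp).1 hpe with h | h
    · exact Or.inl (Nat.mem_primeFactors.2 ⟨hpp, h, hm0⟩)
    · exact Or.inr (Nat.mem_primeFactors.2 ⟨hpp, h.trans (Nat.gcd_dvd_right e j), by omega⟩)
  have h2 : rad e ≤ ∏ p ∈ m.primeFactors ∪ j.primeFactors, p := by
    unfold rad
    exact Finset.prod_le_prod_of_subset_of_one_le' h1 fun p hp _ => by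
      rw [mem_union] at hp
      rcases hp with h | h
      · exact (Nat.prime_of_mem_primeFactors h).pos
      · exact (Nat.prime_of_mem_primeFactors h).pos
  have h3 : (∏ p ∈ m.primeFactors ∪ j.primeFactors, p) * (∏ p ∈ m.primeFactors ∩ j.primeFactors, p) =
      (∏ p ∈ m.primeFactors, p) * ∏ p ∈ j.primeFactors, p := Finset.prod_union_inter
  have h4 : 1 ≤ ∏ p ∈ m.primeFactors ∩ j.primeFactors, p :=
    Finset.prod_pos fun p hp => (Nat.prime_of_mem_primeFactors (mem_inter.1 hp).1).pos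
  have h5 : ∏ p ∈ j.primeFactors, p ≤ j := Nat.le_of_dvd hj (Nat.prod_primeFactors_dvd j)
  calc rad e ≤ ∏ p ∈ m.primeFactors ∪ j.primeFactors, p := h2
    _ ≤ (∏ p ∈ m.primeFactors ∪ j.primeFactors, p) * (∏ p ∈ m.primeFactors ∩ j.primeFactors, p) :=
        Nat.le_mul_of_pos_right _ h4
    _ = rad m * ∏ p ∈ j.primeFactors, p := h3
    _ ≤ rad m * j := Nat.mul_le_mul_left _ h5

/-- the exceptional integers of one scale have a large radical -/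
lemma E2_rad (h1 : S_CELL1) (h2 : S_CELL2) (A' C : ℕ) {r : ℝ} (hr : 0 < r) (hr3 : r ≤ 1 / 3) (A₀ : ℕ) :
    ∃ Y₀ : ℕ, ∀ Y : ℕ, Y₀ ≤ Y → ∀ d ∈ E2 A' r (A₀ + 1 + C) C Y, Real.log Y ^ A₀ < (rad d : ℝ) := by
  classical
  obtain ⟨Y₁, hY₁⟩ := nb h1 h2 A' (A₀ + C) hr hr3
  obtain ⟨Y₂, hY₂⟩ := eventually_atTop.1 (ev_log 1 (s := 1) (by norm_num) (max 10 (8 * 2 ^ (A₀ + C))))
  refine ⟨max Y₁ (max Y₂ 6), fun Y hY d hd => ?_⟩
  have hYY₁ : Y₁ ≤ Y := le_trans (le_max_left _ _) hY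
  obtain ⟨hLm, -⟩ := hY₂ Y (le_trans (le_max_left _ _) (le_trans (le_max_right _ _) hY))
  have hY6 : 6 ≤ Y := le_trans (le_max_right _ _) (le_trans (le_max_right _ _) hY)
  have hY0 : (0 : ℝ) < Y := by exact_mod_cast (by omega : 0 < Y)
  have hL10 : 10 ≤ Real.log Y := (le_max_left _ _).trans hLm
  have hLA : 8 * 2 ^ (A₀ + C) ≤ Real.log Y := (le_max_right _ _).trans hLm
  have hL0 : 0 < Real.log Y := by linarith
  unfold E2 at hd
  rw [mem_image] at hd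
  obtain ⟨⟨e, j⟩, hej, rfl⟩ := hd
  rw [mem_product] at hej
  obtain ⟨he, hj⟩ := hej
  simp only at he hj ⊢
  unfold E1 at he
  rw [mem_filter, mem_Icc] at he
  obtain ⟨⟨he1, he2⟩, he3, ψ, hψ⟩ := he
  have hjr : ((j + 1 : ℕ) : ℝ) ≤ Real.log Y ^ C := by
    rw [mem_range] at hj
    have h3 := Nat.floor_le (show 0 ≤ Real.log (Y : ℝ) ^ C by positivity)
    have h4 : ((j + 1 : ℕ) : ℝ) ≤ (⌊Real.log (Y : ℝ) ^ C⌋₊ : ℝ) := by exact_mod_cast hj
    exact h4.trans h3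
  -- the logarithms
  have hlog : ∀ Z : ℕ, (Z = Y ∨ Z = 2 * Y) → Real.log Y ≤ Real.log ((3 * Z : ℕ) : ℝ) ∧
      Real.log ((3 * Z : ℕ) : ℝ) ≤ 2 * Real.log Y := by
    intro Z hZ
    have hZ1 : Y ≤ 3 * Z := by rcases hZ with rfl | rfl <;> omega
    have hZ2 : 3 * Z ≤ Y * Y := by
      have : 6 * Y ≤ Y * Y := Nat.mul_le_mul_right _ hY6
      rcases hZ with rfl | rfl <;> omega
    constructor
    · exact Real.log_le_log hY0 (by exact_mod_cast hZ1)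
    · have h3 : Real.log ((3 * Z : ℕ) : ℝ) ≤ Real.log ((Y : ℝ) * Y) := by
        apply Real.log_le_log
        · exact_mod_cast (by omega : 0 < 3 * Z)
        · exact_mod_cast hZ2
      rw [Real.log_mul hY0.ne' hY0.ne'] at h3
      linarith
  have hkey : ∀ Z : ℕ, (Z = Y ∨ Z = 2 * Y) → BadW A' r Z e ψ → Real.log Y ^ (A₀ + C) < (rad e : ℝ) := by
    intro Z hZ hbad
    by_contra hcon
    push Not at hcon
    obtain ⟨k1, k2⟩ := hlog Z hZ
    have hZ1 : Y₁ ≤ Z := by rcases hZ with rfl | rfl <;> omega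
    refine hY₁ Z hZ1 e ψ ?_ ?_ hbad
    · exact hcon.trans (pow_le_pow_left₀ hL0.le k1 _)
    · refine lt_of_le_of_lt ?_ he3
      calc 8 * Real.log ((3 * Z : ℕ) : ℝ) ^ (A₀ + C) ≤ 8 * (2 * Real.log Y) ^ (A₀ + C) := by
            have h3 : Real.log ((3 * Z : ℕ) : ℝ) ^ (A₀ + C) ≤ (2 * Real.log Y) ^ (A₀ + C) :=
              pow_le_pow_left₀ (by linarith) k2 _
            linarith
        _ = (8 * 2 ^ (A₀ + C)) * Real.log Y ^ (A₀ + C) := by rw [mul_pow]; ring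
        _ ≤ Real.log Y * Real.log Y ^ (A₀ + C) := by gcongr
        _ = Real.log Y ^ (A₀ + 1 + C) := by ring
  have hrad : Real.log Y ^ (A₀ + C) < (rad e : ℝ) := by
    rcases hψ with h | h
    · exact hkey Y (Or.inl rfl) h
    · exact hkey (2 * Y) (Or.inr rfl) h
  have h5 : (rad e : ℝ) ≤ (rad (e / Nat.gcd e (j + 1)) : ℝ) * ((j + 1 : ℕ) : ℝ) := by
    exact_mod_cast rad_div he1 (by omega)
  have h6 : Real.log Y ^ A₀ * Real.log Y ^ C < (rad (e / Nat.gcd e (j + 1)) : ℝ) * Real.log Y ^ C := by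
    calc Real.log Y ^ A₀ * Real.log Y ^ C = Real.log Y ^ (A₀ + C) := by ring
      _ < (rad e : ℝ) := hrad
      _ ≤ (rad (e / Nat.gcd e (j + 1)) : ℝ) * ((j + 1 : ℕ) : ℝ) := h5
      _ ≤ _ := by gcongr
  exact lt_of_mul_lt_mul_right h6 (by positivity)

/-- the exceptional integers of all scales have a large radical -/
lemma DD_rad (h1 : S_CELL1) (h2 : S_CELL2) (A' C : ℕ) {r : ℝ} (hr : 0 < r) (hr3 : r ≤ 1 / 3) (A₀ : ℕ) :
    ∃ x₀ : ℕ, ∀ x : ℕ, x₀ ≤ x → ∀ d ∈ DD A' r (A₀ + 1 + 1 + C) C x, Real.log x ^ A₀ < (rad d : ℝ) := by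
  obtain ⟨Y₀, hY₀⟩ := E2_rad h1 h2 A' C hr hr3 (A₀ + 1)
  obtain ⟨x₁, hx₁⟩ := Filter.eventually_atTop.1 (ev_log 1 (s := 1) (by norm_num) (max 100 (2 ^ (A₀ + 1))))
  refine ⟨max (Y₀ ^ 2) (max x₁ 1), fun x hx d hd => ?_⟩
  have hxY : Y₀ ^ 2 ≤ x := le_trans (le_max_left _ _) hx
  have hLm := (hx₁ x (le_trans (le_max_left _ _) (le_trans (le_max_right _ _) hx))).1
  have hx1 : 1 ≤ x := le_trans (le_max_right _ _) (le_trans (le_max_right _ _) hx)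
  have hx0 : (0 : ℝ) < x := by exact_mod_cast hx1
  unfold DD at hd
  rw [mem_biUnion] at hd
  obtain ⟨Y, hYm, hd⟩ := hd
  rw [mem_filter] at hYm
  obtain ⟨-, hY1, hY2⟩ := hYm
  obtain ⟨L, hLd⟩ : ∃ L, L = Real.log x := ⟨_, rfl⟩
  rw [← hLd] at hLm ⊢
  have hL100 : 100 ≤ L := (le_max_left _ _).trans hLm
  have hLA : 2 ^ (A₀ + 1) ≤ L := (le_max_right _ _).trans hLm
  have hL0 : 0 < L := by linarith
  have k1 : Y₀ ≤ Y := by
    have h1 : (Y₀ : ℝ) ≤ Y := by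
      calc (Y₀ : ℝ) = ((Y₀ : ℝ) ^ (2 : ℕ)) ^ (1 / 2 : ℝ) := by
            rw [← Real.rpow_natCast, ← Real.rpow_mul (Nat.cast_nonneg _)]
            norm_num
        _ ≤ (x : ℝ) ^ (1 / 2 : ℝ) := by
            apply Real.rpow_le_rpow (by positivity) _ (by norm_num)
            exact_mod_cast hxY
        _ ≤ Y := hY1
    exact_mod_cast h1
  have k2 : L ≤ 2 * Real.log Y := by
    have h1 := Real.log_le_log (by positivity) hY1
    rw [Real.log_rpow hx0, ← hLd] at h1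
    linarith
  refine lt_of_le_of_lt ?_ (hY₀ Y k1 d hd)
  have h2 : L ^ A₀ * 2 ^ (A₀ + 1) ≤ 2 ^ (A₀ + 1) * Real.log Y ^ (A₀ + 1) := by
    calc L ^ A₀ * 2 ^ (A₀ + 1) ≤ L ^ A₀ * L := by gcongr
      _ = L ^ (A₀ + 1) := by ring
      _ ≤ (2 * Real.log Y) ^ (A₀ + 1) := pow_le_pow_left₀ hL0.le k2 _
      _ = _ := mul_pow _ _ _
  have h3 : (0 : ℝ) < 2 ^ (A₀ + 1) := by positivity
  rw [mul_comm] at h2
  exact le_of_mul_le_mul_left h2 h3

/-- the regular moduli: both forms of the formula -/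
theorem regAllR (h1c : S_CELL1) (h2c : S_CELL2) (A W : ℕ) {ρ ε : ℝ} (hρ : 0 < ρ) (hε : 0 < ε) : ∃ c : ℕ, ∀ A₀ : ℕ, ∃ x₀ : ℕ, ∀ x : ℕ, x₀ ≤ x →
    ∃ D : Finset ℕ, (D.card : ℝ) ≤ Real.log x ^ c ∧ (∀ d ∈ D, Real.log x ^ A₀ < (rad d : ℝ)) ∧
    ∀ q : ℕ, 1 ≤ q → (∀ d ∈ D, ¬ d ∣ q) → ∀ a : ℕ, ∃ Bad : Finset ℕ, (Bad.card : ℝ) ≤ x / (q * Real.log x ^ A) ∧
      ∀ n : ℕ, n ≤ x → n ∉ Bad → n % q = a % q → 2 ∣ n → ∀ U V : ℕ, U ≤ V → (q : ℝ) * (n : ℝ) ^ (1 / 3 + ρ) ≤ V →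
        2 * V ≤ n → |(wc n U V : ℝ) - SS n * ∑ b ∈ Ioc U V, wt n b| ≤ V / Real.log n ^ (A + W + 4) ∧
        (0 < V → (V : ℝ) / Real.log n ^ W ≤ (V : ℝ) - U →
          |(wc n U V : ℝ) - SS n * (((V : ℝ) - U) / (Real.log V * Real.log n))| ≤
            ε * (SS n * (((V : ℝ) - U) / (Real.log V * Real.log n)))) := by
  classical
  obtain ⟨A', C, r, hr0, hr3, h⟩ := regSc (A + W + 4) hρ
  obtain ⟨c, hc⟩ := DD_prop A' C hr0 hr3
  refine ⟨c, fun A₀ => ?_⟩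
  obtain ⟨x₁, h₁⟩ := hc (A₀ + 1)
  obtain ⟨x₅, h₅⟩ := DD_rad h1c h2c A' C hr0 hr3 A₀
  obtain ⟨x₂, h₂⟩ := h (A₀ + 1 + 1 + C)
  obtain ⟨x₃, h₃⟩ := rel_of _ (A + 1) W hρ hε (by
    have : A + 1 + W + 3 = A + W + 4 := by ring
    rw [this]
    exact h (A₀ + 1 + 1 + C))
  obtain ⟨x₄, hx₄⟩ := Filter.eventually_atTop.1 (ev_log 1 (s := 1) (by norm_num) 2)
  refine ⟨max (max (max x₁ x₂) (max (max x₃ x₄) 2)) x₅, fun x hx' => ?_⟩
  have hx := le_trans (le_max_left _ _) hx'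
  have hxx₅ : x₅ ≤ x := le_trans (le_max_right _ _) hx'
  have hxx₁ : x₁ ≤ x := le_trans (le_trans (le_max_left _ _) (le_max_left _ _)) hx
  have hxx₂ : x₂ ≤ x := le_trans (le_trans (le_max_right _ _) (le_max_left _ _)) hx
  have hxx₃ : x₃ ≤ x := le_trans (le_trans (le_trans (le_max_left _ _) (le_max_left _ _)) (le_max_right _ _)) hx
  have hL2 := (hx₄ x (le_trans (le_trans (le_trans (le_max_right _ _) (le_max_left _ _)) (le_max_right _ _)) hx)).1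
  have hx2 : 2 ≤ x := le_trans (le_trans (le_max_right _ _) (le_max_right _ _)) hx
  have hx0 : (0 : ℝ) < x := by exact_mod_cast (by omega : 0 < x)
  obtain ⟨hD1, -⟩ := h₁ x hxx₁
  have hD2 := h₅ x hxx₅
  refine ⟨DD A' r (A₀ + 1 + 1 + C) C x, hD1, hD2, fun q hq hreg a => ?_⟩
  obtain ⟨Bad₁, hb11, hb12⟩ := h₂ x hxx₂ q hq a (AdX_of hx2 hreg)
  obtain ⟨Bad₂, hb21, hb22⟩ := h₃ x hxx₃ q hq a (AdX_of hx2 hreg)
  have hq0 : (0 : ℝ) < q := by exact_mod_cast hq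
  refine ⟨Bad₁ ∪ Bad₂, ?_, ?_⟩
  · have h1 : ((Bad₁ ∪ Bad₂).card : ℝ) ≤ Bad₁.card + Bad₂.card := by exact_mod_cast card_union_le _ _
    have h2 : ∀ k : ℕ, A + 1 ≤ k → (x : ℝ) / (q * Real.log x ^ k) ≤ x / (q * Real.log x ^ A) * (1 / 2) := by
      intro k hk
      have h3 : (x : ℝ) / (q * Real.log x ^ A) * (1 / 2) = x / (q * (2 * Real.log x ^ A)) := by
        field_simp
      rw [h3]
      apply div_le_div_of_nonneg_left hx0.le (by positivity)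
      apply mul_le_mul_of_nonneg_left _ hq0.le
      calc 2 * Real.log x ^ A ≤ Real.log x * Real.log x ^ A := by gcongr
        _ = Real.log x ^ (A + 1) := by ring
        _ ≤ Real.log x ^ k := pow_le_pow_right₀ (by linarith) hk
    have h4 := h2 (A + W + 4) (by omega)
    have h5 := h2 (A + 1) le_rfl
    linarith
  · intro n hnx hn hmod h2n U V hUV hV hVn
    rw [mem_union, not_or] at hn
    exact ⟨hb12 n hnx hn.1 hmod h2n U V hUV hV hVn, fun h0 hw => hb22 n hnx hn.2 hmod h2n U V hUV hV hVn h0 hw⟩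

/-- the statement for natural `x` -/
def DStmR (F : ℕ → ℕ → Prop) (A : ℕ) (θ : ℝ) : Prop := ∃ c : ℕ, ∀ A₀ : ℕ, ∃ x₀ : ℕ, ∀ x : ℕ, x₀ ≤ x →
    ∃ D : Finset ℕ, (D.card : ℝ) ≤ Real.log x ^ c ∧ (∀ d ∈ D, Real.log x ^ A₀ < (rad d : ℝ)) ∧
    ∀ q : ℕ, 1 ≤ q → (q : ℝ) ≤ (x : ℝ) ^ θ → (∀ d ∈ D, ¬ d ∣ q) → ∀ a : ℕ, ∃ Bad : Finset ℕ,
      (Bad.card : ℝ) ≤ x / (q * Real.log x ^ A) ∧
      ∀ n : ℕ, 0 < n → n ≤ x → n ∉ Bad → n % q = a % q → 2 ∣ n → F q n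

/-- from natural `x` and natural residues to real `x` and integral residues, bounded moduli -/
theorem transferDR (F : ℕ → ℕ → Prop) {θ η : ℝ} (hθ : 0 < θ) (hη : η < θ) (A : ℕ) (hF : DStmR F (A + 1) θ) :
    ∃ c : ℕ, ∀ A₀ : ℕ, ∃ x₀ : ℝ, ∀ x : ℝ, x₀ ≤ x →
    ∃ D : Finset ℕ, (D.card : ℝ) ≤ Real.log x ^ c ∧ (∀ d ∈ D, Real.log x ^ A₀ < (rad d : ℝ)) ∧
    ∀ q : ℕ, 1 ≤ q → (q : ℝ) ≤ x ^ η → (∀ d ∈ D, ¬ d ∣ q) → ∀ a : ℤ,
      (excD F x q a).Finite ∧ ((excD F x q a).ncard : ℝ) ≤ x / (q * Real.log x ^ A) := by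
  obtain ⟨c, hc⟩ := hF
  refine ⟨c, fun A₀ => ?_⟩
  obtain ⟨x₁, h₁⟩ := hc (A₀ + 1)
  refine ⟨max (max (x₁ + 1) (Real.exp (2 ^ (A + A₀ + 4)))) (((2 : ℝ) ^ θ) ^ (1 / (θ - η))), fun x hx => ?_⟩
  have hx1 : (x₁ : ℝ) + 1 ≤ x := ((le_max_left _ _).trans (le_max_left _ _)).trans hx
  have hxe : Real.exp (2 ^ (A + A₀ + 4)) ≤ x := ((le_max_right _ _).trans (le_max_left _ _)).trans hx
  have hxη : ((2 : ℝ) ^ θ) ^ (1 / (θ - η)) ≤ x := (le_max_right _ _).trans hx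
  have hx0 : 0 < x := lt_of_lt_of_le (Real.exp_pos _) hxe
  have hl16 : (2 : ℝ) ^ (A + A₀ + 4) ≤ Real.log x := (Real.le_log_iff_exp_le hx0).2 hxe
  have h2A : (1 : ℝ) ≤ 2 ^ A := one_le_pow₀ (by norm_num)
  have h2A₀ : (1 : ℝ) ≤ 2 ^ A₀ := one_le_pow₀ (by norm_num)
  have he : (2 : ℝ) ^ (A + A₀ + 4) = 2 ^ A * 2 ^ A₀ * 16 := by rw [pow_add, pow_add]; norm_num
  rw [he] at hl16
  have hAA : (1 : ℝ) ≤ 2 ^ A * 2 ^ A₀ := one_le_mul_of_one_le_of_one_le h2A h2A₀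
  have hA1 : (2 : ℝ) ^ A ≤ 2 ^ A * 2 ^ A₀ := le_mul_of_one_le_right (by positivity) h2A₀
  have hA2 : (2 : ℝ) ^ A₀ ≤ 2 ^ A * 2 ^ A₀ := le_mul_of_one_le_left (by positivity) h2A
  have hl : 16 ≤ Real.log x := by linarith
  obtain ⟨N, hN⟩ : ∃ N, N = ⌊x⌋₊ := ⟨_, rfl⟩
  have hNx : (N : ℝ) ≤ x := by rw [hN]; exact Nat.floor_le hx0.le
  have hxN : x < N + 1 := by rw [hN]; exact Nat.lt_floor_add_one x
  have hxN1 : x₁ ≤ N := by
    rw [hN]
    apply Nat.le_floor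
    linarith
  have hx16 : 16 ≤ x := hl.trans ((Real.log_le_sub_one_of_pos hx0).trans (by linarith))
  have hN0 : (0 : ℝ) < N := by linarith
  have hNhalf : x / 2 ≤ N := by linarith
  have hlN : Real.log x - 1 ≤ Real.log N := by
    have h1 := Real.log_le_log (by positivity) hNhalf
    rw [Real.log_div hx0.ne' (by norm_num)] at h1
    have := Real.log_two_lt_d9
    linarith
  have hlN2 : Real.log x / 2 ≤ Real.log N := by linarith
  have hlN0 : 0 < Real.log N := by linarith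
  have hlNx : Real.log N ≤ Real.log x := Real.log_le_log hN0 hNx
  have hpow : ∀ k : ℕ, (2 : ℝ) ^ k ≤ Real.log N → Real.log x ^ k ≤ Real.log N ^ (k + 1) := by
    intro k hk
    calc Real.log x ^ k = 2 ^ k * (Real.log x / 2) ^ k := by rw [div_pow]; field_simp
      _ ≤ Real.log N * Real.log N ^ k := by
        have e2 : (Real.log x / 2) ^ k ≤ Real.log N ^ k := pow_le_pow_left₀ (by linarith) hlN2 k
        gcongr
      _ = Real.log N ^ (k + 1) := by ring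
  obtain ⟨D, hD1, hD2, hD3⟩ := h₁ N hxN1
  refine ⟨D, hD1.trans (pow_le_pow_left₀ hlN0.le hlNx c), fun d hd => lt_of_le_of_lt (hpow A₀ (by linarith)) (hD2 d hd),
    fun q hq hqx hqD a => ?_⟩
  obtain ⟨b, hb⟩ : ∃ b : ℕ, (b : ℤ) = a % q := ⟨(a % q).toNat, Int.toNat_of_nonneg (Int.emod_nonneg _ (by omega))⟩
  have hq0 : (0 : ℝ) < q := by exact_mod_cast hq
  have hqN : (q : ℝ) ≤ (N : ℝ) ^ θ := by
    have e1 : (2 : ℝ) ^ θ ≤ x ^ (θ - η) := by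
      have e2 := Real.rpow_le_rpow (by positivity) hxη (show 0 ≤ θ - η by linarith)
      rw [← Real.rpow_mul (by positivity)] at e2
      have e3 : 1 / (θ - η) * (θ - η) = 1 := by
        have : θ - η ≠ 0 := by
          have : 0 < θ - η := by linarith
          exact this.ne'
        field_simp
      rwa [e3, Real.rpow_one] at e2
    have e4 : x ^ η * (2 : ℝ) ^ θ ≤ x ^ θ := by
      calc x ^ η * (2 : ℝ) ^ θ ≤ x ^ η * x ^ (θ - η) := by gcongr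
        _ = x ^ θ := by
            rw [← Real.rpow_add hx0]
            congr 1
            ring
    calc (q : ℝ) ≤ x ^ η := hqx
      _ ≤ x ^ θ / 2 ^ θ := by
          rw [le_div_iff₀ (by positivity)]
          exact e4
      _ = (x / 2) ^ θ := by rw [Real.div_rpow hx0.le (by norm_num)]
      _ ≤ (N : ℝ) ^ θ := Real.rpow_le_rpow (by positivity) hNhalf hθ.le
  obtain ⟨Bad, hb1, hb2⟩ := hD3 q hq hqN hqD b
  have hsub : excD F x q a ⊆ (Bad : Set ℕ) := by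
    intro n hn
    obtain ⟨h0, h2, h3, h4, h5⟩ := hn
    by_contra hcon
    apply h5
    apply hb2 n h0 _ (by simpa using hcon) _ h3
    · rw [hN]
      exact Nat.le_floor h2
    · have h6 : (n : ℤ) % q = a % q := h4
      have h7 : ((n % q : ℕ) : ℤ) = ((b % q : ℕ) : ℤ) := by
        rw [Int.natCast_mod, Int.natCast_mod, h6, hb, Int.emod_emod_of_dvd _ dvd_rfl]
      exact_mod_cast h7
  refine ⟨Set.Finite.subset (Finset.finite_toSet Bad) hsub, ?_⟩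
  have h1 : (excD F x q a).ncard ≤ Bad.card := by
    have := Set.ncard_le_ncard hsub (Finset.finite_toSet Bad)
    rwa [Set.ncard_coe_finset] at this
  have h2 : ((excD F x q a).ncard : ℝ) ≤ Bad.card := by exact_mod_cast h1
  refine h2.trans (hb1.trans ?_)
  have h3 : Real.log x ^ A ≤ Real.log N ^ (A + 1) := hpow A (by linarith)
  have h4 : 0 < Real.log x ^ A := by positivity
  calc (N : ℝ) / (q * Real.log N ^ (A + 1)) ≤ x / (q * Real.log N ^ (A + 1)) := by gcongr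
    _ ≤ x / (q * Real.log x ^ A) := by
      apply div_le_div_of_nonneg_left hx0.le (by positivity)
      gcongr

/-- the regular moduli: all formulas, natural `x` -/
theorem regDR (h1c : S_CELL1) (h2c : S_CELL2) (A W : ℕ) {ρ ε : ℝ} (hρ : 0 < ρ) (hρ2 : ρ ≤ 2 / 3) (hε : 0 < ε) :
    DStmR (Full ε ρ W) A (2 / 3 - ρ / 2) := by
  obtain ⟨e, he⟩ : ∃ e : ℝ, e = min ε (1 / 200) := ⟨_, rfl⟩
  have he0 : 0 < e := by rw [he]; exact lt_min hε (by norm_num)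
  have heε : e ≤ ε := by rw [he]; exact min_le_left _ _
  have he200 : e ≤ 1 / 200 := by rw [he]; exact min_le_right _ _
  obtain ⟨c, hc⟩ := regAllR h1c h2c (A + 1) W (ρ := ρ / 4) (ε := e / 4) (by positivity) (by positivity)
  obtain ⟨n₀, hn₀⟩ := g_HL he0 (by linarith)
  refine ⟨c, fun A₀ => ?_⟩
  obtain ⟨x₁, h₁⟩ := hc A₀
  obtain ⟨x₂, h₂⟩ := add_small A (r := ρ / 4) (by positivity)
  obtain ⟨N, hN⟩ : ∃ N : ℕ, N = max n₀ 3 := ⟨_, rfl⟩
  obtain ⟨x₃, h₃⟩ := eventually_atTop.1 (((tendsto_rpow_atTop (show 0 < ρ / 12 by positivity)).comp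
    tendsto_natCast_atTop_atTop).eventually (eventually_ge_atTop (max 4 (N : ℝ))))
  refine ⟨max (max x₁ x₂) (max x₃ 1), fun x hx => ?_⟩
  have hxx₁ : x₁ ≤ x := le_trans (le_trans (le_max_left _ _) (le_max_left _ _)) hx
  have hxx₂ : x₂ ≤ x := le_trans (le_trans (le_max_right _ _) (le_max_left _ _)) hx
  have hxx₃ : x₃ ≤ x := le_trans (le_trans (le_max_left _ _) (le_max_right _ _)) hx
  have hx1 : 1 ≤ x := le_trans (le_trans (le_max_right _ _) (le_max_right _ _)) hx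
  have hxp : max 4 (N : ℝ) ≤ (x : ℝ) ^ (ρ / 12) := h₃ x hxx₃
  have hx4 : 4 ≤ (x : ℝ) ^ (ρ / 12) := (le_max_left _ _).trans hxp
  have hxN : (N : ℝ) ≤ (x : ℝ) ^ (ρ / 12) := (le_max_right _ _).trans hxp
  have hx0 : (0 : ℝ) < x := by exact_mod_cast hx1
  have hxr1 : (1 : ℝ) ≤ x := by exact_mod_cast hx1
  obtain ⟨D, hD1, hD2, hD3⟩ := h₁ x hxx₁
  refine ⟨D, hD1, hD2, fun q hq hqx hqD a => ?_⟩
  have hq0 : (0 : ℝ) < q := by exact_mod_cast hq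
  have hq1 : (1 : ℝ) ≤ q := by exact_mod_cast hq
  obtain ⟨Bad, hb1, hb2⟩ := hD3 q hq hqD a
  obtain ⟨Bad', hb3, hb4⟩ := h₂ x hxx₂ q hq (hqx.trans (Real.rpow_le_rpow_of_exponent_le hxr1 (by linarith))) a Bad hb1
  refine ⟨Bad', hb3, fun n hn0 hnx hn hmod h2n => ?_⟩
  obtain ⟨hbig, hnB⟩ := hb4 n hn0 hn hmod
  have hform := hb2 n hnx hnB hmod h2n
  have hnr0 : (0 : ℝ) < n := by exact_mod_cast hn0
  have hnr1 : (1 : ℝ) ≤ n := by exact_mod_cast hn0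
  have hnN : N ≤ n := by
    have h1 : (x : ℝ) ^ (ρ / 12) ≤ (x : ℝ) ^ (1 - ρ / 4) :=
      Real.rpow_le_rpow_of_exponent_le hxr1 (by linarith)
    have h2 : (N : ℝ) ≤ n := by linarith
    exact_mod_cast h2
  have hn3 : 3 ≤ n := le_trans (by rw [hN]; exact le_max_right _ _) hnN
  have hnn₀ : n₀ ≤ n := le_trans (by rw [hN]; exact le_max_left _ _) hnN
  have hlog : 1 ≤ Real.log n := by
    rw [Real.le_log_iff_exp_le hnr0]
    have h1 : (3 : ℝ) ≤ n := by exact_mod_cast hn3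
    linarith [Real.exp_one_lt_d9]
  -- the modulus is small
  have hq4 : 4 * (q : ℝ) ≤ (n : ℝ) ^ (2 / 3 - ρ / 4) := by
    calc 4 * (q : ℝ) ≤ (x : ℝ) ^ (ρ / 12) * (x : ℝ) ^ (2 / 3 - ρ / 2) := by gcongr
      _ = (x : ℝ) ^ (2 / 3 - 5 * ρ / 12) := by
          rw [← Real.rpow_add hx0]
          congr 1
          ring
      _ ≤ (x : ℝ) ^ ((1 - ρ / 4) * (2 / 3 - ρ / 4)) := by
          apply Real.rpow_le_rpow_of_exponent_le hxr1
          nlinarith [sq_nonneg ρ]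
      _ = ((x : ℝ) ^ (1 - ρ / 4)) ^ (2 / 3 - ρ / 4) := by rw [← Real.rpow_mul hx0.le]
      _ ≤ (n : ℝ) ^ (2 / 3 - ρ / 4) := Real.rpow_le_rpow (by positivity) hbig.le (by linarith)
  have hqn : (q : ℝ) * (n : ℝ) ^ (1 / 3 + ρ / 4) ≤ n / 4 := by
    have h1 : (n : ℝ) ^ (2 / 3 - ρ / 4) * (n : ℝ) ^ (1 / 3 + ρ / 4) = n := by
      rw [← Real.rpow_add hnr0]
      have : 2 / 3 - ρ / 4 + (1 / 3 + ρ / 4) = 1 := by ring
      rw [this, Real.rpow_one]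
    have h2 : 4 * (q : ℝ) * (n : ℝ) ^ (1 / 3 + ρ / 4) ≤ (n : ℝ) ^ (2 / 3 - ρ / 4) * (n : ℝ) ^ (1 / 3 + ρ / 4) := by
      gcongr
    rw [h1] at h2
    linarith
  have hmono : ∀ V : ℕ, (q : ℝ) * (n : ℝ) ^ (1 / 3 + ρ) ≤ V → (q : ℝ) * (n : ℝ) ^ (1 / 3 + ρ / 4) ≤ V := by
    intro V hV
    refine le_trans ?_ hV
    have : (n : ℝ) ^ (1 / 3 + ρ / 4) ≤ (n : ℝ) ^ (1 / 3 + ρ) := Real.rpow_le_rpow_of_exponent_le hnr1 (by linarith)
    gcongr
  refine ⟨?_, ?_, ?_⟩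
  · -- the number of all representations
    obtain ⟨m, hm⟩ := h2n
    have hm2 : n / 2 = m := by omega
    have hV : (q : ℝ) * (n : ℝ) ^ (1 / 3 + ρ / 4) ≤ ((n / 2 : ℕ) : ℝ) := by
      have : (n : ℝ) = 2 * ((n / 2 : ℕ) : ℝ) := by
        rw [hm2]
        exact_mod_cast hm
      linarith
    have h1 := (hform 0 (n / 2) (Nat.zero_le _) hV (by omega)).2 (by omega) (by
      rw [Nat.cast_zero, sub_zero]
      apply div_le_self (Nat.cast_nonneg _)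
      exact one_le_pow₀ hlog)
    have h2 := hn₀ n hnn₀ ⟨m, hm⟩ h1
    have hHL0 : 0 ≤ HL n := by
      unfold HL
      have := one_le_SS n
      have h3 : sing n = SS n := rfl
      rw [h3]
      positivity
    refine ⟨h2.trans (mul_le_mul_of_nonneg_right heε hHL0), ?_⟩
    have h3 := Pool.Agent.R459.sing_num n
    have h4 := (abs_le.1 h2).1
    have h5 : 327 / 250 * ((n : ℝ) / Real.log n ^ 2) ≤ HL n := by
      unfold HL
      gcongr
    have h6 : e * HL n ≤ 1 / 200 * HL n := mul_le_mul_of_nonneg_right he200 hHL0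
    have h7 : 0 ≤ (n : ℝ) / Real.log n ^ 2 := by positivity
    linarith
  · intro U V hUV hV hVn
    refine ((hform U V hUV (hmono V hV) hVn).1).trans ?_
    apply div_le_div_of_nonneg_left (Nat.cast_nonneg _) (by positivity)
    exact pow_le_pow_right₀ hlog (by omega)
  · intro U V hUV hV hVn hV0 hW
    refine ((hform U V hUV (hmono V hV) hVn).2 hV0 hW).trans ?_
    apply mul_le_mul_of_nonneg_right (by linarith)
    have h1 := one_le_SS n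
    have h2 : 0 ≤ (V : ℝ) - U := by
      have : (U : ℝ) ≤ V := by exact_mod_cast hUV
      linarith
    have h3 : 0 ≤ Real.log (V : ℝ) := Real.log_natCast_nonneg V
    positivity

/-- the regular moduli: all formulas, real `x` -/
theorem regRealR (h1c : S_CELL1) (h2c : S_CELL2) (A W : ℕ) {ρ ε : ℝ} (hρ : 0 < ρ) (hε : 0 < ε) :
    ∃ c : ℕ, ∀ A₀ : ℕ, ∃ x₀ : ℝ, ∀ x : ℝ, x₀ ≤ x →
    ∃ D : Finset ℕ, (D.card : ℝ) ≤ Real.log x ^ c ∧ (∀ d ∈ D, Real.log x ^ A₀ < (rad d : ℝ)) ∧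
    ∀ q : ℕ, 1 ≤ q → (q : ℝ) ≤ x ^ (2 / 3 - ρ) → (∀ d ∈ D, ¬ d ∣ q) → ∀ a : ℤ,
      (excD (Full ε ρ W) x q a).Finite ∧ ((excD (Full ε ρ W) x q a).ncard : ℝ) ≤ x / (q * Real.log x ^ A) := by
  by_cases hρ2 : ρ ≤ 2 / 3
  · exact transferDR (Full ε ρ W) (θ := 2 / 3 - ρ / 2) (η := 2 / 3 - ρ) (by linarith) (by linarith) A
      (regDR h1c h2c (A + 1) W hρ hρ2 hε)
  · push Not at hρ2
    refine ⟨0, fun A₀ => ⟨2, fun x hx => ⟨∅, by simp, by simp, fun q hq hqx _ a => ?_⟩⟩⟩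
    exfalso
    have h1 : x ^ (2 / 3 - ρ) < 1 := Real.rpow_lt_one_of_one_lt_of_neg (by linarith) (by linarith)
    have h2 : (1 : ℝ) ≤ q := by exact_mod_cast hq
    linarith

end Pool.Agent.H567.PP
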