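import Pool.Agent.H567.PP.All
import Pool.Agent.H567.PP.X.Smooth
import Pool.Agent.H567.PP.X.Cell1
import Pool.Agent.H567.PP.X.Cell2
import Pool.Agent.H567.PP.RegR

/-!
Project PP (helper567): assembly.
-/

set_option autoImplicit false

namespace Pool.Agent.H567.PP

open Pool.Agent.H567.HW

theorem cell1_all : S_CELL1 := Pool.Agent.H974.PP.cell1 pint_all

theorem cell2_all : S_CELL2 := Pool.Agent.H740.PP.cell2 pint_all Pool.Agent.H685.PP.smooth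

/-- the regular moduli: all formulas, real `x`; the exceptional integers have a large radical -/
theorem reg_rad (A W : ℕ) {ρ ε : ℝ} (hρ : 0 < ρ) (hε : 0 < ε) :
    ∃ c : ℕ, ∀ A₀ : ℕ, ∃ x₀ : ℝ, ∀ x : ℝ, x₀ ≤ x →
    ∃ D : Finset ℕ, (D.card : ℝ) ≤ Real.log x ^ c ∧ (∀ d ∈ D, Real.log x ^ A₀ < (rad d : ℝ)) ∧
    ∀ q : ℕ, 1 ≤ q → (q : ℝ) ≤ x ^ (2 / 3 - ρ) → (∀ d ∈ D, ¬ d ∣ q) → ∀ a : ℤ,
      (excD (Full ε ρ W) x q a).Finite ∧ ((excD (Full ε ρ W) x q a).ncard : ℝ) ≤ x / (q * Real.log x ^ A) :=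
  regRealR cell1_all cell2_all A W hρ hε

end Pool.Agent.H567.PP
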