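import Pool.Agent.H567.PP.LongU
import Pool.Agent.H567.PP.RegR

/-!
Project PP (helper567): every modulus; the classes whose common divisor with the modulus is not divisible by an
exceptional integer.
-/

set_option autoImplicit false

namespace Pool.Agent.H567.PP

open Finset Filter
open Pool.Agent.H567.HW
open Pool.Agent.H560R3.GB (g HL sing)
open Pool.Agent.Y614.GJ.Core (ev_log)

lemma gcd_toNatU (q : ℕ) (a : ℤ) (hq : 1 ≤ q) : Nat.gcd (a % (q : ℤ)).toNat q = Int.gcd a q := by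
  have hq0 : (q : ℤ) ≠ 0 := by exact_mod_cast (by omega : q ≠ 0)
  have h2 : (((a % (q : ℤ)).toNat : ℕ) : ℤ) = a % q := Int.toNat_of_nonneg (Int.emod_nonneg _ hq0)
  have h3 : Int.gcd (((a % (q : ℤ)).toNat : ℕ) : ℤ) (q : ℤ) = Nat.gcd (a % (q : ℤ)).toNat q :=
    Int.gcd_natCast_natCast _ _
  rw [← h3, h2]
  exact Int.gcd_emod _ _

/-- the radicals of the bad conductors -/
lemma E1_rad (h1 : S_CELL1) (h2 : S_CELL2) (A' : ℕ) {r : ℝ} (hr : 0 < r) (hr3 : r ≤ 1 / 3) (M : ℕ) :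
    ∃ Y₀ : ℕ, ∀ Y : ℕ, Y₀ ≤ Y → ∀ e ∈ E1 A' r (M + 1) Y, 1 ≤ e ∧ Real.log Y ^ M < (rad e : ℝ) := by
  classical
  obtain ⟨Y₁, hY₁⟩ := nb h1 h2 A' M hr hr3
  obtain ⟨Y₂, hY₂⟩ := eventually_atTop.1 (ev_log 1 (s := 1) (by norm_num) (max 10 (8 * 2 ^ M)))
  refine ⟨max Y₁ (max Y₂ 6), fun Y hY e he => ?_⟩
  have hYY₁ : Y₁ ≤ Y := le_trans (le_max_left _ _) hY
  obtain ⟨hLm, -⟩ := hY₂ Y (le_trans (le_max_left _ _) (le_trans (le_max_right _ _) hY))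
  have hY6 : 6 ≤ Y := le_trans (le_max_right _ _) (le_trans (le_max_right _ _) hY)
  have hY0 : (0 : ℝ) < Y := by exact_mod_cast (by omega : 0 < Y)
  have hL10 : 10 ≤ Real.log Y := (le_max_left _ _).trans hLm
  have hLA : 8 * 2 ^ M ≤ Real.log Y := (le_max_right _ _).trans hLm
  have hL0 : 0 < Real.log Y := by linarith
  unfold E1 at he
  rw [mem_filter, mem_Icc] at he
  obtain ⟨⟨he1, he2⟩, he3, ψ, hψ⟩ := he
  -- the logarithms
  have hlog : ∀ Z : ℕ, (Z = Y ∨ Z = 2 * Y) → Real.log Y ≤ Real.log ((3 * Z : ℕ) : ℝ) ∧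
      Real.log ((3 * Z : ℕ) : ℝ) ≤ 2 * Real.log Y := by
    intro Z hZ
    have hZ1 : Y ≤ 3 * Z := by rcases hZ with rfl | rfl <;> omega
    have hZ2 : 3 * Z ≤ Y * Y := by
      have : 6 * Y ≤ Y * Y := Nat.mul_le_mul_right _ hY6
      rcases hZ with rfl | rfl <;> omega
    constructor
    · exact Real.log_le_log hY0 (by exact_mod_cast hZ1)
    · have h3 : Real.log ((3 * Z : ℕ) : ℝ) ≤ Real.log ((Y : ℝ) * Y) := by
        apply Real.log_le_log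
        · exact_mod_cast (by omega : 0 < 3 * Z)
        · exact_mod_cast hZ2
      rw [Real.log_mul hY0.ne' hY0.ne'] at h3
      linarith
  have hkey : ∀ Z : ℕ, (Z = Y ∨ Z = 2 * Y) → BadW A' r Z e ψ → Real.log Y ^ M < (rad e : ℝ) := by
    intro Z hZ hbad
    by_contra hcon
    push Not at hcon
    obtain ⟨k1, k2⟩ := hlog Z hZ
    have hZ1 : Y₁ ≤ Z := by rcases hZ with rfl | rfl <;> omega
    refine hY₁ Z hZ1 e ψ ?_ ?_ hbad
    · exact hcon.trans (pow_le_pow_left₀ hL0.le k1 _)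
    · refine lt_of_le_of_lt ?_ he3
      calc 8 * Real.log ((3 * Z : ℕ) : ℝ) ^ M ≤ 8 * (2 * Real.log Y) ^ M := by
            have h3 : Real.log ((3 * Z : ℕ) : ℝ) ^ M ≤ (2 * Real.log Y) ^ M :=
              pow_le_pow_left₀ (by linarith) k2 _
            linarith
        _ = (8 * 2 ^ M) * Real.log Y ^ M := by rw [mul_pow]; ring
        _ ≤ Real.log Y * Real.log Y ^ M := by gcongr
        _ = Real.log Y ^ (M + 1) := by ring
  refine ⟨he1, ?_⟩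
  rcases hψ with h | h
  · exact hkey Y (Or.inl rfl) h
  · exact hkey (2 * Y) (Or.inr rfl) h

/-- the exceptional integers of one scale have a large radical -/
lemma E3_rad (h1 : S_CELL1) (h2 : S_CELL2) (A' K₂ C : ℕ) {r : ℝ} (hr : 0 < r) (hr3 : r ≤ 1 / 3) (A₀ : ℕ) :
    ∃ Y₀ : ℕ, ∀ Y : ℕ, Y₀ ≤ Y → ∀ d ∈ E3 A' r (A₀ + C + K₂ + 1) K₂ C Y, Real.log Y ^ A₀ < (rad d : ℝ) := by
  obtain ⟨Y₁, hY₁⟩ := E1_rad h1 h2 A' hr hr3 (A₀ + C + K₂)
  obtain ⟨Y₂, hY₂⟩ := eventually_atTop.1 (ev_log 1 (s := 1) (by norm_num) 10)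
  refine ⟨max Y₁ Y₂, fun Y hY d hd => ?_⟩
  have hL10 := (hY₂ Y (le_trans (le_max_right _ _) hY)).1
  have hL0 : 0 < Real.log Y := by linarith
  unfold E3 at hd
  refine (shr_rad (R := Real.log Y ^ A₀) (by positivity) (fun e he => ?_) hd).2
  refine shr_rad (R := Real.log Y ^ A₀ * Real.log Y ^ C) (by positivity) (fun e he => ?_) he
  obtain ⟨k1, k2⟩ := hY₁ Y (le_trans (le_max_left _ _) hY) e he
  refine ⟨k1, lt_of_le_of_lt (le_of_eq ?_) k2⟩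
  rw [← pow_add, ← pow_add]

lemma E3_card {A' K K₂ C Y c : ℕ} {r : ℝ} (hL : 1 ≤ Real.log Y) (h : ((E1 A' r K Y).card : ℝ) ≤ Real.log Y ^ c) :
    ((E3 A' r K K₂ C Y).card : ℝ) ≤ Real.log Y ^ (c + K₂ + C) := by
  unfold E3
  calc ((shr (shr (E1 A' r K Y) (Real.log Y ^ K₂)) (Real.log Y ^ C)).card : ℝ) ≤
      (shr (E1 A' r K Y) (Real.log Y ^ K₂)).card * Real.log Y ^ C := shr_card _ (by positivity)
    _ ≤ ((E1 A' r K Y).card * Real.log Y ^ K₂) * Real.log Y ^ C := by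
        apply mul_le_mul_of_nonneg_right (shr_card _ (by positivity)) (by positivity)
    _ ≤ (Real.log Y ^ c * Real.log Y ^ K₂) * Real.log Y ^ C := by gcongr
    _ = Real.log Y ^ (c + K₂ + C) := by rw [pow_add, pow_add]

/-- the exceptional integers of all scales -/
noncomputable def D3 (A' : ℕ) (r : ℝ) (K K₂ C x : ℕ) : Finset ℕ :=
  ((Scs x).filter (fun Y : ℕ => (x : ℝ) ^ (1 / 2 : ℝ) ≤ (Y : ℝ) ∧ Y ≤ x)).biUnion (fun Y => E3 A' r K K₂ C Y)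

lemma AdX_ofU {A' K K₂ C x q a : ℕ} {r : ℝ} (hx : 2 ≤ x) (h : ∀ d ∈ D3 A' r K K₂ C x, ¬ d ∣ Nat.gcd a q) :
    AdX (RU A' r K K₂ C) x q a := by
  intro Y hY1 hY2 hk d hd
  apply h d
  unfold D3
  rw [mem_biUnion]
  refine ⟨Y, ?_, hd⟩
  rw [mem_filter]
  exact ⟨mem_Scs hx hY2 hk, hY1, hY2⟩

/-- the exceptional integers: their number and their radicals -/
lemma D3_prop (h1c : S_CELL1) (h2c : S_CELL2) (A' K₂ C : ℕ) {r : ℝ} (hr : 0 < r) (hr3 : r ≤ 1 / 3) : ∃ c : ℕ, ∀ A₀ : ℕ,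
    ∃ x₀ : ℕ, ∀ x : ℕ, x₀ ≤ x → ((D3 A' r ((A₀ + 1) + C + K₂ + 1) K₂ C x).card : ℝ) ≤ Real.log x ^ c ∧
    ∀ d ∈ D3 A' r ((A₀ + 1) + C + K₂ + 1) K₂ C x, Real.log x ^ A₀ < (rad d : ℝ) := by
  classical
  obtain ⟨c, Y₀', hc⟩ := E1_card A' hr hr3
  refine ⟨c + K₂ + C + 2, fun A₀ => ?_⟩
  obtain ⟨Y₀'', hrad⟩ := E3_rad h1c h2c A' K₂ C hr hr3 (A₀ + 1)
  obtain ⟨Y₀, hY₀d⟩ : ∃ Y₀, Y₀ = max Y₀' Y₀'' := ⟨_, rfl⟩
  obtain ⟨x₁, hx₁⟩ := Filter.eventually_atTop.1 (ev_log 1 (s := 1) (by norm_num) (max 100 (2 ^ (A₀ + 1))))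
  refine ⟨max (Y₀ ^ 2) (max x₁ 1), fun x hx => ?_⟩
  have hxY : Y₀ ^ 2 ≤ x := le_trans (le_max_left _ _) hx
  have hLm := (hx₁ x (le_trans (le_max_left _ _) (le_trans (le_max_right _ _) hx))).1
  have hx1 : 1 ≤ x := le_trans (le_max_right _ _) (le_trans (le_max_right _ _) hx)
  have hx0 : (0 : ℝ) < x := by exact_mod_cast hx1
  obtain ⟨L, hLd⟩ : ∃ L, L = Real.log x := ⟨_, rfl⟩
  rw [← hLd] at hLm ⊢
  have hL100 : 100 ≤ L := (le_max_left _ _).trans hLm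
  have hLA : 2 ^ (A₀ + 1) ≤ L := (le_max_right _ _).trans hLm
  have hL0 : 0 < L := by linarith
  have hY : ∀ Y : ℕ, (x : ℝ) ^ (1 / 2 : ℝ) ≤ Y → Y ≤ x → Y₀ ≤ Y ∧ L ≤ 2 * Real.log Y ∧ Real.log Y ≤ L := by
    intro Y hY1 hY2
    have hY0 : (0 : ℝ) < Y := lt_of_lt_of_le (by positivity) hY1
    refine ⟨?_, ?_, ?_⟩
    · have h1 : (Y₀ : ℝ) ≤ Y := by
        calc (Y₀ : ℝ) = ((Y₀ : ℝ) ^ (2 : ℕ)) ^ (1 / 2 : ℝ) := by
              rw [← Real.rpow_natCast, ← Real.rpow_mul (Nat.cast_nonneg _)]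
              norm_num
          _ ≤ (x : ℝ) ^ (1 / 2 : ℝ) := by
              apply Real.rpow_le_rpow (by positivity) _ (by norm_num)
              exact_mod_cast hxY
          _ ≤ Y := hY1
      exact_mod_cast h1
    · have h1 := Real.log_le_log (by positivity) hY1
      rw [Real.log_rpow hx0, ← hLd] at h1
      linarith
    · rw [hLd]
      exact Real.log_le_log hY0 (by exact_mod_cast hY2)
  constructor
  · have h1 : (((Scs x).filter (fun Y : ℕ => (x : ℝ) ^ (1 / 2 : ℝ) ≤ (Y : ℝ) ∧ Y ≤ x)).card : ℝ) ≤ L ^ 2 := by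
      have h2 : ((Scs x).filter (fun Y : ℕ => (x : ℝ) ^ (1 / 2 : ℝ) ≤ (Y : ℝ) ∧ Y ≤ x)).card ≤
          (Nat.log 2 x + 2) + (Nat.log 2 x + 2) := by
        refine (card_filter_le _ _).trans ?_
        unfold Scs
        refine (card_union_le _ _).trans (Nat.add_le_add ?_ ?_)
        · exact card_image_le.trans (by rw [card_range])
        · exact card_image_le.trans (by rw [card_range])
      have h3 : (Nat.log 2 x : ℝ) ≤ 2 * L := by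
        have h1 : 2 ^ Nat.log 2 x ≤ x := Nat.pow_log_le_self 2 (by omega)
        have h2 : (2 : ℝ) ^ Nat.log 2 x ≤ x := by exact_mod_cast h1
        have h3 := Real.log_le_log (by positivity) h2
        rw [Real.log_pow, ← hLd] at h3
        have h4 := Real.log_two_gt_d9
        have h5 : (0 : ℝ) ≤ (Nat.log 2 x : ℝ) := Nat.cast_nonneg _
        nlinarith
      have h4 : (((Scs x).filter (fun Y : ℕ => (x : ℝ) ^ (1 / 2 : ℝ) ≤ (Y : ℝ) ∧ Y ≤ x)).card : ℝ) ≤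
          (((Nat.log 2 x + 2) + (Nat.log 2 x + 2) : ℕ) : ℝ) := by exact_mod_cast h2
      push_cast at h4
      nlinarith
    have h2 : ∀ Y ∈ (Scs x).filter (fun Y : ℕ => (x : ℝ) ^ (1 / 2 : ℝ) ≤ (Y : ℝ) ∧ Y ≤ x),
        ((E3 A' r ((A₀ + 1) + C + K₂ + 1) K₂ C Y).card : ℝ) ≤ L ^ (c + K₂ + C) := by
      intro Y hYm
      rw [mem_filter] at hYm
      obtain ⟨k1, k2, k3⟩ := hY Y hYm.2.1 hYm.2.2
      have k1' : Y₀' ≤ Y := le_trans (by rw [hY₀d]; exact le_max_left _ _) k1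
      refine (E3_card (c := c) (by linarith) (hc Y k1' _)).trans ?_
      exact pow_le_pow_left₀ (by linarith) k3 _
    unfold D3
    calc (((((Scs x).filter (fun Y : ℕ => (x : ℝ) ^ (1 / 2 : ℝ) ≤ (Y : ℝ) ∧ Y ≤ x)).biUnion
          (fun Y => E3 A' r ((A₀ + 1) + C + K₂ + 1) K₂ C Y)).card : ℕ) : ℝ) ≤
        ∑ Y ∈ (Scs x).filter (fun Y : ℕ => (x : ℝ) ^ (1 / 2 : ℝ) ≤ (Y : ℝ) ∧ Y ≤ x),
          ((E3 A' r ((A₀ + 1) + C + K₂ + 1) K₂ C Y).card : ℝ) := by exact_mod_cast card_biUnion_le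
      _ ≤ ∑ Y ∈ (Scs x).filter (fun Y : ℕ => (x : ℝ) ^ (1 / 2 : ℝ) ≤ (Y : ℝ) ∧ Y ≤ x), L ^ (c + K₂ + C) := sum_le_sum h2
      _ = (((Scs x).filter (fun Y : ℕ => (x : ℝ) ^ (1 / 2 : ℝ) ≤ (Y : ℝ) ∧ Y ≤ x)).card : ℝ) * L ^ (c + K₂ + C) := by
          rw [sum_const, nsmul_eq_mul]
      _ ≤ L ^ 2 * L ^ (c + K₂ + C) := by gcongr
      _ = L ^ (c + K₂ + C + 2) := by ring
  · intro d hd
    unfold D3 at hd
    rw [mem_biUnion] at hd
    obtain ⟨Y, hYm, hd⟩ := hd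
    rw [mem_filter] at hYm
    obtain ⟨k1, k2, k3⟩ := hY Y hYm.2.1 hYm.2.2
    have k1' : Y₀'' ≤ Y := le_trans (by rw [hY₀d]; exact le_max_right _ _) k1
    have h1 := hrad Y k1' d hd
    refine lt_of_le_of_lt ?_ h1
    have h2 : L ^ A₀ * 2 ^ (A₀ + 1) ≤ 2 ^ (A₀ + 1) * Real.log Y ^ (A₀ + 1) := by
      calc L ^ A₀ * 2 ^ (A₀ + 1) ≤ L ^ A₀ * L := by gcongr
        _ = L ^ (A₀ + 1) := by ring
        _ ≤ (2 * Real.log Y) ^ (A₀ + 1) := pow_le_pow_left₀ hL0.le k2 _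
        _ = _ := mul_pow _ _ _
    have h3 : (0 : ℝ) < 2 ^ (A₀ + 1) := by positivity
    rw [mul_comm] at h2
    exact le_of_mul_le_mul_left h2 h3

lemma coreVU_mono {R : ℕ → ℕ → ℕ → Prop} {A A₂ D D₂ : ℕ} {ρ : ℝ} (hρ : 0 < ρ) (hA : A₂ ≤ A) (hD : D₂ ≤ D)
    (h : CoreVU R A D ρ) : CoreVU R A₂ D₂ ρ := by
  obtain ⟨B, hB⟩ := h
  refine ⟨B, fun E => ?_⟩
  obtain ⟨Y₀, hY₀⟩ := hB E
  obtain ⟨Y₁, hY₁⟩ := Filter.eventually_atTop.1 (ev_log 1 (s := 1) (by norm_num) 3)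
  refine ⟨max Y₀ (max Y₁ 1), fun Y hY z hz1 hz2 q Q V _ hqQ hQY hVY hVQ a hR => ?_⟩
  have hL3 := (hY₁ Y (le_trans (le_max_left _ _) (le_trans (le_max_right _ _) hY))).1
  have hY1 : 1 ≤ Y := le_trans (le_max_right _ _) (le_trans (le_max_right _ _) hY)
  have hY0 : (0 : ℝ) < Y := by exact_mod_cast hY1
  have hYr1 : (1 : ℝ) ≤ Y := by exact_mod_cast hY1
  have hq : 1 ≤ q := Nat.pos_of_ne_zero (NeZero.ne q)
  have hq1 : (1 : ℝ) ≤ q := by exact_mod_cast hq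
  have hlQ : 1 ≤ Real.log Q := by
    have h1 : (Y : ℝ) ^ (1 / 3 : ℝ) ≤ Q := by
      calc (Y : ℝ) ^ (1 / 3 : ℝ) ≤ (Y : ℝ) ^ (1 / 3 + ρ) :=
            Real.rpow_le_rpow_of_exponent_le hYr1 (by linarith)
        _ ≤ q * (Y : ℝ) ^ (1 / 3 + ρ) := le_mul_of_one_le_left (by positivity) hq1
        _ ≤ Q := hqQ
    have h2 := Real.log_le_log (by positivity) h1
    rw [Real.log_rpow hY0] at h2
    linarith
  have hVQ' : (V : ℝ) ≤ Q * Real.log Q ^ D := hVQ.trans (by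
    apply mul_le_mul_of_nonneg_left _ (Nat.cast_nonneg _)
    exact pow_le_pow_right₀ hlQ hD)
  refine (hY₀ Y (le_trans (le_max_left _ _) hY) z hz1 hz2 q Q V hqQ hQY hVY hVQ' a hR).trans ?_
  have hq0 : (0 : ℝ) < q := by linarith
  apply div_le_div_of_nonneg_left (by positivity) (by positivity)
  apply mul_le_mul_of_nonneg_left _ hq0.le
  exact pow_le_pow_right₀ hlQ hA

/-- the windows at all scales, for every modulus -/
theorem scU (hC : S_CVU) (A : ℕ) {ρ : ℝ} (hρ : 0 < ρ) : ∃ (A' K₂ C : ℕ) (r : ℝ), 0 < r ∧ r ≤ 1 / 3 ∧ ∀ K : ℕ,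
    ScStm (AdX (RU A' r K K₂ C)) A ρ := by
  obtain ⟨r₀, hr₀⟩ : ∃ r₀ : ℝ, r₀ = min (min ρ (1 / 12) / 4 / 2) (1 / 24) := ⟨_, rfl⟩
  have hr₀0 : 0 < r₀ := by
    rw [hr₀]
    exact lt_min (div_pos (div_pos (lt_min hρ (by norm_num)) (by norm_num)) (by norm_num)) (by norm_num)
  obtain ⟨A', K₂, C, h⟩ := hC (6 * (A + 9) + 30) (2 * (A + 9) + 8) (r₀ / 2) (by positivity)
  refine ⟨A', K₂, C, min (r₀ / 2 / 2 / 2) (1 / 3), lt_min (by positivity) (by norm_num), min_le_right _ _, fun K => ?_⟩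
  obtain ⟨R, hR⟩ : ∃ R : ℕ → ℕ → ℕ → Prop, R = RU A' (min (r₀ / 2 / 2 / 2) (1 / 3)) K K₂ C := ⟨_, rfl⟩
  have hcore : CoreVU R (6 * (A + 9) + 30) (2 * (A + 9) + 8) (r₀ / 2) := by
    rw [hR]
    exact h K
  rw [← hR]
  have h1 : WStm (AdX R) (A + 1 + 4) r₀ := by
    apply all_of _ _ hr₀0
    · apply hybrid_of _ _ hr₀0
      apply block_of _ _ hr₀0
      exact core_of_VU (D := 2 * (A + 9) + 8) (coreVU_mono (by positivity) (by omega) le_rfl hcore)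
    · exact long_ofU R (A + 1 + 4 + 4) hr₀0 hcore
  apply scale_of _ _ hρ
  apply count_of _ _ (div_pos (lt_min hρ (by norm_num)) (by norm_num))
  rw [← hr₀]
  exact h1

/-- every modulus: both forms of the formula -/
theorem regAllU (h1c : S_CELL1) (h2c : S_CELL2) (hC : S_CVU) (A W : ℕ) {ρ ε : ℝ} (hρ : 0 < ρ) (hε : 0 < ε) : ∃ c : ℕ, ∀ A₀ : ℕ, ∃ x₀ : ℕ, ∀ x : ℕ, x₀ ≤ x →
    ∃ D : Finset ℕ, (D.card : ℝ) ≤ Real.log x ^ c ∧ (∀ d ∈ D, Real.log x ^ A₀ < (rad d : ℝ)) ∧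
    ∀ q : ℕ, 1 ≤ q → ∀ a : ℕ, (∀ d ∈ D, ¬ d ∣ Nat.gcd a q) →
      ∃ Bad : Finset ℕ, (Bad.card : ℝ) ≤ x / (q * Real.log x ^ A) ∧
      ∀ n : ℕ, n ≤ x → n ∉ Bad → n % q = a % q → 2 ∣ n → ∀ U V : ℕ, U ≤ V → (q : ℝ) * (n : ℝ) ^ (1 / 3 + ρ) ≤ V →
        2 * V ≤ n → |(wc n U V : ℝ) - SS n * ∑ b ∈ Ioc U V, wt n b| ≤ V / Real.log n ^ (A + W + 4) ∧
        (0 < V → (V : ℝ) / Real.log n ^ W ≤ (V : ℝ) - U →
          |(wc n U V : ℝ) - SS n * (((V : ℝ) - U) / (Real.log V * Real.log n))| ≤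
            ε * (SS n * (((V : ℝ) - U) / (Real.log V * Real.log n)))) := by
  classical
  obtain ⟨A', K₂, C, r, hr0, hr3, h⟩ := scU hC (A + W + 4) hρ
  obtain ⟨c, hc⟩ := D3_prop h1c h2c A' K₂ C hr0 hr3
  refine ⟨c, fun A₀ => ?_⟩
  obtain ⟨x₁, h₁⟩ := hc A₀
  obtain ⟨x₂, h₂⟩ := h ((A₀ + 1) + C + K₂ + 1)
  obtain ⟨x₃, h₃⟩ := rel_of _ (A + 1) W hρ hε (by
    have : A + 1 + W + 3 = A + W + 4 := by ring
    rw [this]
    exact h ((A₀ + 1) + C + K₂ + 1))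
  obtain ⟨x₄, hx₄⟩ := Filter.eventually_atTop.1 (ev_log 1 (s := 1) (by norm_num) 2)
  refine ⟨max (max x₁ x₂) (max (max x₃ x₄) 2), fun x hx => ?_⟩
  have hxx₁ : x₁ ≤ x := le_trans (le_trans (le_max_left _ _) (le_max_left _ _)) hx
  have hxx₂ : x₂ ≤ x := le_trans (le_trans (le_max_right _ _) (le_max_left _ _)) hx
  have hxx₃ : x₃ ≤ x := le_trans (le_trans (le_trans (le_max_left _ _) (le_max_left _ _)) (le_max_right _ _)) hx
  have hL2 := (hx₄ x (le_trans (le_trans (le_trans (le_max_right _ _) (le_max_left _ _)) (le_max_right _ _)) hx)).1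
  have hx2 : 2 ≤ x := le_trans (le_trans (le_max_right _ _) (le_max_right _ _)) hx
  have hx0 : (0 : ℝ) < x := by exact_mod_cast (by omega : 0 < x)
  obtain ⟨hD1, hD2⟩ := h₁ x hxx₁
  refine ⟨D3 A' r ((A₀ + 1) + C + K₂ + 1) K₂ C x, hD1, hD2, fun q hq a hreg => ?_⟩
  obtain ⟨Bad₁, hb11, hb12⟩ := h₂ x hxx₂ q hq a (AdX_ofU hx2 hreg)
  obtain ⟨Bad₂, hb21, hb22⟩ := h₃ x hxx₃ q hq a (AdX_ofU hx2 hreg)
  have hq0 : (0 : ℝ) < q := by exact_mod_cast hq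
  refine ⟨Bad₁ ∪ Bad₂, ?_, ?_⟩
  · have h1 : ((Bad₁ ∪ Bad₂).card : ℝ) ≤ Bad₁.card + Bad₂.card := by exact_mod_cast card_union_le _ _
    have h2 : ∀ k : ℕ, A + 1 ≤ k → (x : ℝ) / (q * Real.log x ^ k) ≤ x / (q * Real.log x ^ A) * (1 / 2) := by
      intro k hk
      have h3 : (x : ℝ) / (q * Real.log x ^ A) * (1 / 2) = x / (q * (2 * Real.log x ^ A)) := by
        field_simp
      rw [h3]
      apply div_le_div_of_nonneg_left hx0.le (by positivity)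
      apply mul_le_mul_of_nonneg_left _ hq0.le
      calc 2 * Real.log x ^ A ≤ Real.log x * Real.log x ^ A := by gcongr
        _ = Real.log x ^ (A + 1) := by ring
        _ ≤ Real.log x ^ k := pow_le_pow_right₀ (by linarith) hk
    have h4 := h2 (A + W + 4) (by omega)
    have h5 := h2 (A + 1) le_rfl
    linarith
  · intro n hnx hn hmod h2n U V hUV hV hVn
    rw [mem_union, not_or] at hn
    exact ⟨hb12 n hnx hn.1 hmod h2n U V hUV hV hVn, fun h0 hw => hb22 n hnx hn.2 hmod h2n U V hUV hV hVn h0 hw⟩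

/-- the statement for natural `x` -/
def DStmU (F : ℕ → ℕ → Prop) (A : ℕ) (θ : ℝ) : Prop := ∃ c : ℕ, ∀ A₀ : ℕ, ∃ x₀ : ℕ, ∀ x : ℕ, x₀ ≤ x →
    ∃ D : Finset ℕ, (D.card : ℝ) ≤ Real.log x ^ c ∧ (∀ d ∈ D, Real.log x ^ A₀ < (rad d : ℝ)) ∧
    ∀ q : ℕ, 1 ≤ q → (q : ℝ) ≤ (x : ℝ) ^ θ → ∀ a : ℕ, (∀ d ∈ D, ¬ d ∣ Nat.gcd a q) → ∃ Bad : Finset ℕ,
      (Bad.card : ℝ) ≤ x / (q * Real.log x ^ A) ∧
      ∀ n : ℕ, 0 < n → n ≤ x → n ∉ Bad → n % q = a % q → 2 ∣ n → F q n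

/-- from natural `x` and natural residues to real `x` and integral residues, bounded moduli -/
theorem transferDU (F : ℕ → ℕ → Prop) {θ η : ℝ} (hθ : 0 < θ) (hη : η < θ) (A : ℕ) (hF : DStmU F (A + 1) θ) :
    ∃ c : ℕ, ∀ A₀ : ℕ, ∃ x₀ : ℝ, ∀ x : ℝ, x₀ ≤ x →
    ∃ D : Finset ℕ, (D.card : ℝ) ≤ Real.log x ^ c ∧ (∀ d ∈ D, Real.log x ^ A₀ < (rad d : ℝ)) ∧
    ∀ q : ℕ, 1 ≤ q → (q : ℝ) ≤ x ^ η → ∀ a : ℤ, (∀ d ∈ D, ¬ d ∣ Int.gcd a q) →
      (excD F x q a).Finite ∧ ((excD F x q a).ncard : ℝ) ≤ x / (q * Real.log x ^ A) := by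
  obtain ⟨c, hc⟩ := hF
  refine ⟨c, fun A₀ => ?_⟩
  obtain ⟨x₁, h₁⟩ := hc (A₀ + 1)
  refine ⟨max (max (x₁ + 1) (Real.exp (2 ^ (A + A₀ + 4)))) (((2 : ℝ) ^ θ) ^ (1 / (θ - η))), fun x hx => ?_⟩
  have hx1 : (x₁ : ℝ) + 1 ≤ x := ((le_max_left _ _).trans (le_max_left _ _)).trans hx
  have hxe : Real.exp (2 ^ (A + A₀ + 4)) ≤ x := ((le_max_right _ _).trans (le_max_left _ _)).trans hx
  have hxη : ((2 : ℝ) ^ θ) ^ (1 / (θ - η)) ≤ x := (le_max_right _ _).trans hx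
  have hx0 : 0 < x := lt_of_lt_of_le (Real.exp_pos _) hxe
  have hl16 : (2 : ℝ) ^ (A + A₀ + 4) ≤ Real.log x := (Real.le_log_iff_exp_le hx0).2 hxe
  have h2A : (1 : ℝ) ≤ 2 ^ A := one_le_pow₀ (by norm_num)
  have h2A₀ : (1 : ℝ) ≤ 2 ^ A₀ := one_le_pow₀ (by norm_num)
  have he : (2 : ℝ) ^ (A + A₀ + 4) = 2 ^ A * 2 ^ A₀ * 16 := by rw [pow_add, pow_add]; norm_num
  rw [he] at hl16
  have hAA : (1 : ℝ) ≤ 2 ^ A * 2 ^ A₀ := one_le_mul_of_one_le_of_one_le h2A h2A₀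
  have hA1 : (2 : ℝ) ^ A ≤ 2 ^ A * 2 ^ A₀ := le_mul_of_one_le_right (by positivity) h2A₀
  have hA2 : (2 : ℝ) ^ A₀ ≤ 2 ^ A * 2 ^ A₀ := le_mul_of_one_le_left (by positivity) h2A
  have hl : 16 ≤ Real.log x := by linarith
  obtain ⟨N, hN⟩ : ∃ N, N = ⌊x⌋₊ := ⟨_, rfl⟩
  have hNx : (N : ℝ) ≤ x := by rw [hN]; exact Nat.floor_le hx0.le
  have hxN : x < N + 1 := by rw [hN]; exact Nat.lt_floor_add_one x
  have hxN1 : x₁ ≤ N := by
    rw [hN]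
    apply Nat.le_floor
    linarith
  have hx16 : 16 ≤ x := hl.trans ((Real.log_le_sub_one_of_pos hx0).trans (by linarith))
  have hN0 : (0 : ℝ) < N := by linarith
  have hNhalf : x / 2 ≤ N := by linarith
  have hlN : Real.log x - 1 ≤ Real.log N := by
    have h1 := Real.log_le_log (by positivity) hNhalf
    rw [Real.log_div hx0.ne' (by norm_num)] at h1
    have := Real.log_two_lt_d9
    linarith
  have hlN2 : Real.log x / 2 ≤ Real.log N := by linarith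
  have hlN0 : 0 < Real.log N := by linarith
  have hlNx : Real.log N ≤ Real.log x := Real.log_le_log hN0 hNx
  have hpow : ∀ k : ℕ, (2 : ℝ) ^ k ≤ Real.log N → Real.log x ^ k ≤ Real.log N ^ (k + 1) := by
    intro k hk
    calc Real.log x ^ k = 2 ^ k * (Real.log x / 2) ^ k := by rw [div_pow]; field_simp
      _ ≤ Real.log N * Real.log N ^ k := by
        have e2 : (Real.log x / 2) ^ k ≤ Real.log N ^ k := pow_le_pow_left₀ (by linarith) hlN2 k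
        gcongr
      _ = Real.log N ^ (k + 1) := by ring
  obtain ⟨D, hD1, hD2, hD3⟩ := h₁ N hxN1
  refine ⟨D, hD1.trans (pow_le_pow_left₀ hlN0.le hlNx c), fun d hd => lt_of_le_of_lt (hpow A₀ (by linarith)) (hD2 d hd),
    fun q hq hqx a hqD => ?_⟩
  obtain ⟨b, hb, hbg⟩ : ∃ b : ℕ, (b : ℤ) = a % q ∧ Nat.gcd b q = Int.gcd a q :=
    ⟨(a % q).toNat, Int.toNat_of_nonneg (Int.emod_nonneg _ (by omega)), gcd_toNatU q a hq⟩
  have hq0 : (0 : ℝ) < q := by exact_mod_cast hq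
  have hqN : (q : ℝ) ≤ (N : ℝ) ^ θ := by
    have e1 : (2 : ℝ) ^ θ ≤ x ^ (θ - η) := by
      have e2 := Real.rpow_le_rpow (by positivity) hxη (show 0 ≤ θ - η by linarith)
      rw [← Real.rpow_mul (by positivity)] at e2
      have e3 : 1 / (θ - η) * (θ - η) = 1 := by
        have : θ - η ≠ 0 := by
          have : 0 < θ - η := by linarith
          exact this.ne'
        field_simp
      rwa [e3, Real.rpow_one] at e2
    have e4 : x ^ η * (2 : ℝ) ^ θ ≤ x ^ θ := by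
      calc x ^ η * (2 : ℝ) ^ θ ≤ x ^ η * x ^ (θ - η) := by gcongr
        _ = x ^ θ := by
            rw [← Real.rpow_add hx0]
            congr 1
            ring
    calc (q : ℝ) ≤ x ^ η := hqx
      _ ≤ x ^ θ / 2 ^ θ := by
          rw [le_div_iff₀ (by positivity)]
          exact e4
      _ = (x / 2) ^ θ := by rw [Real.div_rpow hx0.le (by norm_num)]
      _ ≤ (N : ℝ) ^ θ := Real.rpow_le_rpow (by positivity) hNhalf hθ.le
  obtain ⟨Bad, hb1, hb2⟩ := hD3 q hq hqN b (by rw [hbg]; exact hqD)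
  have hsub : excD F x q a ⊆ (Bad : Set ℕ) := by
    intro n hn
    obtain ⟨h0, h2, h3, h4, h5⟩ := hn
    by_contra hcon
    apply h5
    apply hb2 n h0 _ (by simpa using hcon) _ h3
    · rw [hN]
      exact Nat.le_floor h2
    · have h6 : (n : ℤ) % q = a % q := h4
      have h7 : ((n % q : ℕ) : ℤ) = ((b % q : ℕ) : ℤ) := by
        rw [Int.natCast_mod, Int.natCast_mod, h6, hb, Int.emod_emod_of_dvd _ dvd_rfl]
      exact_mod_cast h7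
  refine ⟨Set.Finite.subset (Finset.finite_toSet Bad) hsub, ?_⟩
  have h1 : (excD F x q a).ncard ≤ Bad.card := by
    have := Set.ncard_le_ncard hsub (Finset.finite_toSet Bad)
    rwa [Set.ncard_coe_finset] at this
  have h2 : ((excD F x q a).ncard : ℝ) ≤ Bad.card := by exact_mod_cast h1
  refine h2.trans (hb1.trans ?_)
  have h3 : Real.log x ^ A ≤ Real.log N ^ (A + 1) := hpow A (by linarith)
  have h4 : 0 < Real.log x ^ A := by positivity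
  calc (N : ℝ) / (q * Real.log N ^ (A + 1)) ≤ x / (q * Real.log N ^ (A + 1)) := by gcongr
    _ ≤ x / (q * Real.log x ^ A) := by
      apply div_le_div_of_nonneg_left hx0.le (by positivity)
      gcongr

/-- every modulus: all formulas, natural `x` -/
theorem regDU (h1c : S_CELL1) (h2c : S_CELL2) (hC : S_CVU) (A W : ℕ) {ρ ε : ℝ} (hρ : 0 < ρ) (hρ2 : ρ ≤ 2 / 3) (hε : 0 < ε) :
    DStmU (Full ε ρ W) A (2 / 3 - ρ / 2) := by
  obtain ⟨e, he⟩ : ∃ e : ℝ, e = min ε (1 / 200) := ⟨_, rfl⟩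
  have he0 : 0 < e := by rw [he]; exact lt_min hε (by norm_num)
  have heε : e ≤ ε := by rw [he]; exact min_le_left _ _
  have he200 : e ≤ 1 / 200 := by rw [he]; exact min_le_right _ _
  obtain ⟨c, hc⟩ := regAllU h1c h2c hC (A + 1) W (ρ := ρ / 4) (ε := e / 4) (by positivity) (by positivity)
  obtain ⟨n₀, hn₀⟩ := g_HL he0 (by linarith)
  refine ⟨c, fun A₀ => ?_⟩
  obtain ⟨x₁, h₁⟩ := hc A₀
  obtain ⟨x₂, h₂⟩ := add_small A (r := ρ / 4) (by positivity)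
  obtain ⟨N, hN⟩ : ∃ N : ℕ, N = max n₀ 3 := ⟨_, rfl⟩
  obtain ⟨x₃, h₃⟩ := eventually_atTop.1 (((tendsto_rpow_atTop (show 0 < ρ / 12 by positivity)).comp
    tendsto_natCast_atTop_atTop).eventually (eventually_ge_atTop (max 4 (N : ℝ))))
  refine ⟨max (max x₁ x₂) (max x₃ 1), fun x hx => ?_⟩
  have hxx₁ : x₁ ≤ x := le_trans (le_trans (le_max_left _ _) (le_max_left _ _)) hx
  have hxx₂ : x₂ ≤ x := le_trans (le_trans (le_max_right _ _) (le_max_left _ _)) hx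
  have hxx₃ : x₃ ≤ x := le_trans (le_trans (le_max_left _ _) (le_max_right _ _)) hx
  have hx1 : 1 ≤ x := le_trans (le_trans (le_max_right _ _) (le_max_right _ _)) hx
  have hxp : max 4 (N : ℝ) ≤ (x : ℝ) ^ (ρ / 12) := h₃ x hxx₃
  have hx4 : 4 ≤ (x : ℝ) ^ (ρ / 12) := (le_max_left _ _).trans hxp
  have hxN : (N : ℝ) ≤ (x : ℝ) ^ (ρ / 12) := (le_max_right _ _).trans hxp
  have hx0 : (0 : ℝ) < x := by exact_mod_cast hx1
  have hxr1 : (1 : ℝ) ≤ x := by exact_mod_cast hx1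
  obtain ⟨D, hD1, hD2, hD3⟩ := h₁ x hxx₁
  refine ⟨D, hD1, hD2, fun q hq hqx a hqD => ?_⟩
  have hq0 : (0 : ℝ) < q := by exact_mod_cast hq
  have hq1 : (1 : ℝ) ≤ q := by exact_mod_cast hq
  obtain ⟨Bad, hb1, hb2⟩ := hD3 q hq a hqD
  obtain ⟨Bad', hb3, hb4⟩ := h₂ x hxx₂ q hq (hqx.trans (Real.rpow_le_rpow_of_exponent_le hxr1 (by linarith))) a Bad hb1
  refine ⟨Bad', hb3, fun n hn0 hnx hn hmod h2n => ?_⟩
  obtain ⟨hbig, hnB⟩ := hb4 n hn0 hn hmod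
  have hform := hb2 n hnx hnB hmod h2n
  have hnr0 : (0 : ℝ) < n := by exact_mod_cast hn0
  have hnr1 : (1 : ℝ) ≤ n := by exact_mod_cast hn0
  have hnN : N ≤ n := by
    have h1 : (x : ℝ) ^ (ρ / 12) ≤ (x : ℝ) ^ (1 - ρ / 4) :=
      Real.rpow_le_rpow_of_exponent_le hxr1 (by linarith)
    have h2 : (N : ℝ) ≤ n := by linarith
    exact_mod_cast h2
  have hn3 : 3 ≤ n := le_trans (by rw [hN]; exact le_max_right _ _) hnN
  have hnn₀ : n₀ ≤ n := le_trans (by rw [hN]; exact le_max_left _ _) hnN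
  have hlog : 1 ≤ Real.log n := by
    rw [Real.le_log_iff_exp_le hnr0]
    have h1 : (3 : ℝ) ≤ n := by exact_mod_cast hn3
    linarith [Real.exp_one_lt_d9]
  -- the modulus is small
  have hq4 : 4 * (q : ℝ) ≤ (n : ℝ) ^ (2 / 3 - ρ / 4) := by
    calc 4 * (q : ℝ) ≤ (x : ℝ) ^ (ρ / 12) * (x : ℝ) ^ (2 / 3 - ρ / 2) := by gcongr
      _ = (x : ℝ) ^ (2 / 3 - 5 * ρ / 12) := by
          rw [← Real.rpow_add hx0]
          congr 1
          ring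
      _ ≤ (x : ℝ) ^ ((1 - ρ / 4) * (2 / 3 - ρ / 4)) := by
          apply Real.rpow_le_rpow_of_exponent_le hxr1
          nlinarith [sq_nonneg ρ]
      _ = ((x : ℝ) ^ (1 - ρ / 4)) ^ (2 / 3 - ρ / 4) := by rw [← Real.rpow_mul hx0.le]
      _ ≤ (n : ℝ) ^ (2 / 3 - ρ / 4) := Real.rpow_le_rpow (by positivity) hbig.le (by linarith)
  have hqn : (q : ℝ) * (n : ℝ) ^ (1 / 3 + ρ / 4) ≤ n / 4 := by
    have h1 : (n : ℝ) ^ (2 / 3 - ρ / 4) * (n : ℝ) ^ (1 / 3 + ρ / 4) = n := by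
      rw [← Real.rpow_add hnr0]
      have : 2 / 3 - ρ / 4 + (1 / 3 + ρ / 4) = 1 := by ring
      rw [this, Real.rpow_one]
    have h2 : 4 * (q : ℝ) * (n : ℝ) ^ (1 / 3 + ρ / 4) ≤ (n : ℝ) ^ (2 / 3 - ρ / 4) * (n : ℝ) ^ (1 / 3 + ρ / 4) := by
      gcongr
    rw [h1] at h2
    linarith
  have hmono : ∀ V : ℕ, (q : ℝ) * (n : ℝ) ^ (1 / 3 + ρ) ≤ V → (q : ℝ) * (n : ℝ) ^ (1 / 3 + ρ / 4) ≤ V := by
    intro V hV
    refine le_trans ?_ hV
    have : (n : ℝ) ^ (1 / 3 + ρ / 4) ≤ (n : ℝ) ^ (1 / 3 + ρ) := Real.rpow_le_rpow_of_exponent_le hnr1 (by linarith)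
    gcongr
  refine ⟨?_, ?_, ?_⟩
  · -- the number of all representations
    obtain ⟨m, hm⟩ := h2n
    have hm2 : n / 2 = m := by omega
    have hV : (q : ℝ) * (n : ℝ) ^ (1 / 3 + ρ / 4) ≤ ((n / 2 : ℕ) : ℝ) := by
      have : (n : ℝ) = 2 * ((n / 2 : ℕ) : ℝ) := by
        rw [hm2]
        exact_mod_cast hm
      linarith
    have h1 := (hform 0 (n / 2) (Nat.zero_le _) hV (by omega)).2 (by omega) (by
      rw [Nat.cast_zero, sub_zero]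
      apply div_le_self (Nat.cast_nonneg _)
      exact one_le_pow₀ hlog)
    have h2 := hn₀ n hnn₀ ⟨m, hm⟩ h1
    have hHL0 : 0 ≤ HL n := by
      unfold HL
      have := one_le_SS n
      have h3 : sing n = SS n := rfl
      rw [h3]
      positivity
    refine ⟨h2.trans (mul_le_mul_of_nonneg_right heε hHL0), ?_⟩
    have h3 := Pool.Agent.R459.sing_num n
    have h4 := (abs_le.1 h2).1
    have h5 : 327 / 250 * ((n : ℝ) / Real.log n ^ 2) ≤ HL n := by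
      unfold HL
      gcongr
    have h6 : e * HL n ≤ 1 / 200 * HL n := mul_le_mul_of_nonneg_right he200 hHL0
    have h7 : 0 ≤ (n : ℝ) / Real.log n ^ 2 := by positivity
    linarith
  · intro U V hUV hV hVn
    refine ((hform U V hUV (hmono V hV) hVn).1).trans ?_
    apply div_le_div_of_nonneg_left (Nat.cast_nonneg _) (by positivity)
    exact pow_le_pow_right₀ hlog (by omega)
  · intro U V hUV hV hVn hV0 hW
    refine ((hform U V hUV (hmono V hV) hVn).2 hV0 hW).trans ?_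
    apply mul_le_mul_of_nonneg_right (by linarith)
    have h1 := one_le_SS n
    have h2 : 0 ≤ (V : ℝ) - U := by
      have : (U : ℝ) ≤ V := by exact_mod_cast hUV
      linarith
    have h3 : 0 ≤ Real.log (V : ℝ) := Real.log_natCast_nonneg V
    positivity

/-- every modulus: all formulas, real `x` -/
theorem regRealU (h1c : S_CELL1) (h2c : S_CELL2) (hC : S_CVU) (A W : ℕ) {ρ ε : ℝ} (hρ : 0 < ρ) (hε : 0 < ε) :
    ∃ c : ℕ, ∀ A₀ : ℕ, ∃ x₀ : ℝ, ∀ x : ℝ, x₀ ≤ x →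
    ∃ D : Finset ℕ, (D.card : ℝ) ≤ Real.log x ^ c ∧ (∀ d ∈ D, Real.log x ^ A₀ < (rad d : ℝ)) ∧
    ∀ q : ℕ, 1 ≤ q → (q : ℝ) ≤ x ^ (2 / 3 - ρ) → ∀ a : ℤ, (∀ d ∈ D, ¬ d ∣ Int.gcd a q) →
      (excD (Full ε ρ W) x q a).Finite ∧ ((excD (Full ε ρ W) x q a).ncard : ℝ) ≤ x / (q * Real.log x ^ A) := by
  by_cases hρ2 : ρ ≤ 2 / 3
  · exact transferDU (Full ε ρ W) (θ := 2 / 3 - ρ / 2) (η := 2 / 3 - ρ) (by linarith) (by linarith) A
      (regDU h1c h2c hC (A + 1) W hρ hρ2 hε)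
  · push Not at hρ2
    refine ⟨0, fun A₀ => ⟨2, fun x hx => ⟨∅, by simp, by simp, fun q hq hqx a _ => ?_⟩⟩⟩
    exfalso
    have h1 : x ^ (2 / 3 - ρ) < 1 := Real.rpow_lt_one_of_one_lt_of_neg (by linarith) (by linarith)
    have h2 : (1 : ℝ) ≤ q := by exact_mod_cast hq
    linarith

end Pool.Agent.H567.PP
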