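import Pool.Agent.H567.PP.All2
import Pool.Agent.H567.PP.RegU
import Pool.Agent.H567.PP.X.Gmb
import Pool.Agent.H567.PP.X.Jacf
import Pool.Agent.H567.PP.X.Shl2
import Pool.Agent.H567.PP.X.Core6
import Pool.Agent.H567.PP.X.Fru
import Pool.Agent.H567.PP.X.CoreU
import Pool.Agent.H567.PP.X.Cvu

/-!
Project PP (helper567): assembly of the theorems for every modulus.
-/

set_option autoImplicit false

namespace Pool.Agent.H567.PP

open Pool.Agent.H567.HW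

theorem shl2_all : S_SHL2 := Pool.Agent.H707.PP.shl2 Pool.Agent.H263.PP.jacf

theorem cvu_all : S_CVU := Pool.Agent.H295.PP.cvu Pool.Agent.H376.PP.coreu shl2_all

theorem gmb_all : S_GMB := Pool.Agent.H376.PP.gmb pint_all

theorem fru_all : S_FRU := Pool.Agent.H643.PP.fru Pool.Agent.H400.PP.core6 shl2_all gmb_all

/-- every modulus: all formulas, real `x`; the exceptional integers have a large radical -/
theorem reg_univ (A W : ℕ) {ρ ε : ℝ} (hρ : 0 < ρ) (hε : 0 < ε) :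
    ∃ c : ℕ, ∀ A₀ : ℕ, ∃ x₀ : ℝ, ∀ x : ℝ, x₀ ≤ x →
    ∃ D : Finset ℕ, (D.card : ℝ) ≤ Real.log x ^ c ∧ (∀ d ∈ D, Real.log x ^ A₀ < (rad d : ℝ)) ∧
    ∀ q : ℕ, 1 ≤ q → (q : ℝ) ≤ x ^ (2 / 3 - ρ) → ∀ a : ℤ, (∀ d ∈ D, ¬ d ∣ Int.gcd a q) →
      (excD (Full ε ρ W) x q a).Finite ∧ ((excD (Full ε ρ W) x q a).ncard : ℝ) ≤ x / (q * Real.log x ^ A) :=
  regRealU cell1_all cell2_all cvu_all A W hρ hε

end Pool.Agent.H567.PP
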