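import Pool.Agent.H567.PP.All3
import Pool.Agent.H567.HW.F33

/-!
Project PP (helper567): the formulas of `HW/Bae`, `HW/B58`, `HW/F33` in all residue classes of every modulus whose
common divisor with the modulus is not divisible by an exceptional integer (of a large radical).
-/

set_option autoImplicit false

namespace Pool.Agent.H567.PP

open Finset Filter
open Pool.Agent.H567.HW
open Pool.Agent.Y614.GJ.Core (ev_log)

/-- the relative formula, without the small integers, natural `x` -/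
theorem bigU (A W : ℕ) {ρ ε r : ℝ} (hρ : 0 < ρ) (hε : 0 < ε) (hr : 0 < r) : ∃ c : ℕ, ∀ A₀ : ℕ, ∃ x₀ : ℕ,
    ∀ x : ℕ, x₀ ≤ x →
    ∃ D : Finset ℕ, (D.card : ℝ) ≤ Real.log x ^ c ∧ (∀ d ∈ D, Real.log x ^ A₀ < (rad d : ℝ)) ∧
    ∀ q : ℕ, 1 ≤ q → (q : ℝ) ≤ (x : ℝ) ^ (2 / 3 : ℝ) → ∀ a : ℕ, (∀ d ∈ D, ¬ d ∣ Nat.gcd a q) → ∃ Bad : Finset ℕ,
      (Bad.card : ℝ) ≤ x / (q * Real.log x ^ A) ∧
      ∀ n : ℕ, 0 < n → n ≤ x → n ∉ Bad → n % q = a % q → 2 ∣ n → (x : ℝ) ^ (1 - r) < n ∧ FormR ε ρ W q n := by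
  obtain ⟨c, hc⟩ := regAllU cell1_all cell2_all cvu_all (A + 1) W hρ hε
  refine ⟨c, fun A₀ => ?_⟩
  obtain ⟨x₁, h₁⟩ := hc A₀
  obtain ⟨x₂, h₂⟩ := add_small A hr
  refine ⟨max x₁ x₂, fun x hx => ?_⟩
  obtain ⟨D, hD1, hD2, hD3⟩ := h₁ x (le_trans (le_max_left _ _) hx)
  refine ⟨D, hD1, hD2, fun q hq hqx a hqD => ?_⟩
  obtain ⟨Bad, hb1, hb2⟩ := hD3 q hq a hqD
  obtain ⟨Bad', hb3, hb4⟩ := h₂ x (le_trans (le_max_right _ _) hx) q hq hqx a Bad hb1
  refine ⟨Bad', hb3, fun n hn0 hnx hn hmod h2n => ?_⟩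
  obtain ⟨hbig, hnB⟩ := hb4 n hn0 hn hmod
  exact ⟨hbig, fun U V hUV hV hVn hV0 hw => (hb2 n hnx hnB hmod h2n U V hUV hV hVn).2 hV0 hw⟩

/-- a larger exponent and a larger error -/
lemma formR_mono {ρ ρ' ε ε' : ℝ} (hρ : ρ' ≤ ρ) (hε : ε' ≤ ε) {W q n : ℕ} (hn : 0 < n) (h : FormR ε' ρ' W q n) :
    FormR ε ρ W q n := by
  intro U V hUV hV hVn hV0 hw
  have hn1 : (1 : ℝ) ≤ n := by exact_mod_cast hn
  have h1 : (q : ℝ) * (n : ℝ) ^ (1 / 3 + ρ') ≤ V := by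
    refine le_trans ?_ hV
    have : (n : ℝ) ^ (1 / 3 + ρ') ≤ (n : ℝ) ^ (1 / 3 + ρ) := Real.rpow_le_rpow_of_exponent_le hn1 (by linarith)
    gcongr
  refine (h U V hUV h1 hVn hV0 hw).trans ?_
  apply mul_le_mul_of_nonneg_right hε
  have h1 := one_le_SS n
  have h2 : 0 ≤ (V : ℝ) - U := by
    have : (U : ℝ) ≤ V := by exact_mod_cast hUV
    linarith
  have h3 : 0 ≤ Real.log (V : ℝ) := Real.log_natCast_nonneg V
  have h4 : 0 ≤ Real.log (n : ℝ) := Real.log_natCast_nonneg n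
  positivity

/-- the least prime, natural `x` -/
theorem baeDU {ρ ε : ℝ} (hρ : 0 < ρ) (hρ2 : ρ ≤ 2 / 3) (hε : 0 < ε) (A : ℕ) :
    DStmU (fun q n => Small ρ q n ∧ FormS ε ρ q n) A (2 / 3 - ρ / 2) := by
  have hρ4 : 0 < ρ / 4 := by positivity
  obtain ⟨e, he⟩ : ∃ e, e = min ε (1 / 2) := ⟨_, rfl⟩
  have he0 : 0 < e := by rw [he]; exact lt_min hε (by norm_num)
  obtain ⟨c, hc⟩ := bigU A 0 hρ4 he0 hρ4
  refine ⟨c, fun A₀ => ?_⟩
  obtain ⟨x₁, h₁⟩ := hc A₀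
  obtain ⟨x₃, h₃⟩ := eventually_atTop.1 (ev_pow (s := ρ / 12) (by positivity) 4)
  refine ⟨max x₁ (max x₃ 1), fun x hx => ?_⟩
  have hxx₁ : x₁ ≤ x := le_trans (le_max_left _ _) hx
  have hxx₃ : x₃ ≤ x := le_trans (le_trans (le_max_left _ _) (le_max_right _ _)) hx
  have hx1 : 1 ≤ x := le_trans (le_trans (le_max_right _ _) (le_max_right _ _)) hx
  have hx4 := h₃ x hxx₃
  have hx0 : (0 : ℝ) < x := by exact_mod_cast hx1
  have hxr1 : (1 : ℝ) ≤ x := by exact_mod_cast hx1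
  obtain ⟨D, hD1, hD2, hD3⟩ := h₁ x hxx₁
  refine ⟨D, hD1, hD2, fun q hq hqx a hqD => ?_⟩
  have hqx' : (q : ℝ) ≤ (x : ℝ) ^ (2 / 3 : ℝ) :=
    hqx.trans (Real.rpow_le_rpow_of_exponent_le hxr1 (by linarith))
  obtain ⟨Bad, hb1, hb2⟩ := hD3 q hq hqx' a hqD
  have hq0 : (0 : ℝ) < q := by exact_mod_cast hq
  have hq1 : (1 : ℝ) ≤ q := by exact_mod_cast hq
  refine ⟨Bad, hb1, ?_⟩
  intro n h0 hnx hn hmod h2n
  obtain ⟨hbig, hR0⟩ := hb2 n h0 hnx hn hmod h2n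
  have hR1 : FormR (1 / 2) (ρ / 4) 0 q n := formR_mono le_rfl (by rw [he]; exact min_le_right _ _) h0 hR0
  have hR2 : FormR ε ρ 0 q n := formR_mono (by linarith) (by rw [he]; exact min_le_left _ _) h0 hR0
  have hn0 : (0 : ℝ) < n := by exact_mod_cast h0
  have hn1r : (1 : ℝ) ≤ n := by exact_mod_cast h0
  refine ⟨?_, ?_⟩
  · -- existence
    have hq4 : 4 * (q : ℝ) ≤ (n : ℝ) ^ (2 / 3 - ρ / 4) := by
      calc 4 * (q : ℝ) ≤ (x : ℝ) ^ (ρ / 12) * (x : ℝ) ^ (2 / 3 - ρ / 2) := by gcongr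
        _ = (x : ℝ) ^ (2 / 3 - 5 * ρ / 12) := by
            rw [← Real.rpow_add hx0]
            congr 1
            ring
        _ ≤ (x : ℝ) ^ ((1 - ρ / 4) * (2 / 3 - ρ / 4)) := by
            apply Real.rpow_le_rpow_of_exponent_le hxr1
            have e : (1 - ρ / 4) * (2 / 3 - ρ / 4) = 2 / 3 - 5 * ρ / 12 + ρ ^ 2 / 16 := by ring
            rw [e]
            have : 0 ≤ ρ ^ 2 / 16 := by positivity
            linarith
        _ = ((x : ℝ) ^ (1 - ρ / 4)) ^ (2 / 3 - ρ / 4) := by rw [Real.rpow_mul hx0.le]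
        _ ≤ (n : ℝ) ^ (2 / 3 - ρ / 4) :=
            Real.rpow_le_rpow (by positivity) hbig.le (by linarith)
    have hn3 : 2 ≤ (n : ℝ) ^ (3 * ρ / 4) := by
      calc (2 : ℝ) ≤ (x : ℝ) ^ (ρ / 12) := by linarith
        _ ≤ (x : ℝ) ^ ((1 - ρ / 4) * (3 * ρ / 4)) := by
            apply Real.rpow_le_rpow_of_exponent_le hxr1
            have e : (1 - ρ / 4) * (3 * ρ / 4) - ρ / 12 = ρ * (2 / 3 - 3 * ρ / 16) := by ring
            have : 0 ≤ ρ * (2 / 3 - 3 * ρ / 16) := mul_nonneg hρ.le (by linarith)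
            linarith
        _ = ((x : ℝ) ^ (1 - ρ / 4)) ^ (3 * ρ / 4) := by rw [Real.rpow_mul hx0.le]
        _ ≤ (n : ℝ) ^ (3 * ρ / 4) :=
            Real.rpow_le_rpow (by positivity) hbig.le (by positivity)
    obtain ⟨t, ht⟩ : ∃ t : ℝ, t = q * (n : ℝ) ^ (1 / 3 + ρ / 4) := ⟨_, rfl⟩
    have ht1 : 1 ≤ t := by
      rw [ht]
      exact one_le_mul_of_one_le_of_one_le hq1 (Real.one_le_rpow hn1r (by positivity))
    have htn : 4 * t ≤ n := by
      calc 4 * t = (4 * q) * (n : ℝ) ^ (1 / 3 + ρ / 4) := by rw [ht]; ring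
        _ ≤ (n : ℝ) ^ (2 / 3 - ρ / 4) * (n : ℝ) ^ (1 / 3 + ρ / 4) := by gcongr
        _ = n := by
            rw [← Real.rpow_add hn0]
            have : 2 / 3 - ρ / 4 + (1 / 3 + ρ / 4) = 1 := by ring
            rw [this, Real.rpow_one]
    have ht2 : 2 * t ≤ q * (n : ℝ) ^ (1 / 3 + ρ) := by
      calc 2 * t ≤ (n : ℝ) ^ (3 * ρ / 4) * t := by gcongr
        _ = q * (n : ℝ) ^ (1 / 3 + ρ) := by
            rw [ht]
            have : (n : ℝ) ^ (3 * ρ / 4) * (n : ℝ) ^ (1 / 3 + ρ / 4) = (n : ℝ) ^ (1 / 3 + ρ) := by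
              rw [← Real.rpow_add hn0]
              congr 1
              ring
            rw [← this]
            ring
    obtain ⟨V, hV⟩ : ∃ V : ℕ, V = ⌈t⌉₊ := ⟨_, rfl⟩
    have hV1 : t ≤ V := by rw [hV]; exact Nat.le_ceil t
    have hV2 : (V : ℝ) ≤ 2 * t := by
      have : (V : ℝ) < t + 1 := by rw [hV]; exact Nat.ceil_lt_add_one (by linarith)
      linarith
    have hV0 : 0 < V := by
      have : (0 : ℝ) < V := by linarith
      exact_mod_cast this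
    have h2V : 2 * V ≤ n := by
      have : 2 * (V : ℝ) ≤ n := by linarith
      exact_mod_cast this
    have hf := hR1 0 V (Nat.zero_le _) (by rw [← ht]; exact hV1) h2V hV0 (by simp)
    have hVn : (2 : ℝ) * V ≤ n := by exact_mod_cast h2V
    have hpos : 0 < wc n 0 V := by
      by_contra hcon
      have h1 : wc n 0 V = 0 := by omega
      rw [h1] at hf
      have hSS := one_le_SS n
      have hlogn : 0 < Real.log n := Real.log_pos (by linarith)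
      rcases Nat.lt_or_ge V 2 with hV22 | hV22
      · -- `V = 1` is impossible, since `n` is large
        have h2 : V = 1 := by omega
        rw [h2] at hV1
        have h3 : (1 : ℝ) < (n : ℝ) ^ (1 / 3 + ρ / 4) := Real.one_lt_rpow (by linarith) (by positivity)
        have h4 : (1 : ℝ) < t := by
          rw [ht]
          calc (1 : ℝ) < (n : ℝ) ^ (1 / 3 + ρ / 4) := h3
            _ ≤ q * (n : ℝ) ^ (1 / 3 + ρ / 4) := le_mul_of_one_le_left (by positivity) hq1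
        norm_num at hV1
        linarith
      · have hlogV : 0 < Real.log V := by
          apply Real.log_pos
          have : (2 : ℝ) ≤ V := by exact_mod_cast hV22
          linarith
        have hM : 0 < SS n * (((V : ℝ) - (0 : ℕ)) / (Real.log V * Real.log n)) := by
          have : (0 : ℝ) < (V : ℝ) - (0 : ℕ) := by
            push_cast
            linarith
          positivity
        rw [Nat.cast_zero, zero_sub, abs_neg, abs_of_pos (by simpa using hM)] at hf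
        simp only [Nat.cast_zero] at hM
        linarith
    unfold wc at hpos
    rw [card_pos] at hpos
    obtain ⟨p, hp⟩ := hpos
    rw [mem_filter, mem_Ioc] at hp
    refine ⟨p, hp.2.1, hp.2.2, ?_⟩
    have : (p : ℝ) ≤ V := by exact_mod_cast hp.1.2
    linarith
  · intro y hy h2y
    have hy0 : 0 < y := by
      have h1 : 0 < (q : ℝ) * (n : ℝ) ^ (1 / 3 + ρ) := by positivity
      have : (0 : ℝ) < y := by linarith
      exact_mod_cast this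
    have := hR2 0 y (Nat.zero_le _) hy h2y hy0 (by simp)
    rwa [Nat.cast_zero, sub_zero] at this

/-- the least prime, real `x` -/
theorem baeReal {ρ ε : ℝ} (hρ : 0 < ρ) (hε : 0 < ε) (A : ℕ) : ∃ c : ℕ, ∀ A₀ : ℕ, ∃ x₀ : ℝ, ∀ x : ℝ, x₀ ≤ x →
    ∃ D : Finset ℕ, (D.card : ℝ) ≤ Real.log x ^ c ∧ (∀ d ∈ D, Real.log x ^ A₀ < (rad d : ℝ)) ∧
    ∀ q : ℕ, 1 ≤ q → (q : ℝ) ≤ x ^ (2 / 3 - ρ) → ∀ a : ℤ, (∀ d ∈ D, ¬ d ∣ Int.gcd a q) →
      (excD (fun q n => Small ρ q n ∧ FormS ε ρ q n) x q a).Finite ∧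
        ((excD (fun q n => Small ρ q n ∧ FormS ε ρ q n) x q a).ncard : ℝ) ≤ x / (q * Real.log x ^ A) := by
  by_cases hρ2 : ρ ≤ 2 / 3
  · exact transferDU _ (θ := 2 / 3 - ρ / 2) (η := 2 / 3 - ρ) (by linarith) (by linarith) A
      (baeDU hρ hρ2 hε (A + 1))
  · push Not at hρ2
    refine ⟨0, fun A₀ => ⟨2, fun x hx => ⟨∅, by simp, by simp, fun q hq hqx a _ => ?_⟩⟩⟩
    exfalso
    have h1 : x ^ (2 / 3 - ρ) < 1 := Real.rpow_lt_one_of_one_lt_of_neg (by linarith) (by linarith)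
    have h2 : (1 : ℝ) ≤ q := by exact_mod_cast hq
    linarith

/-- the interval, natural `x` -/
theorem b58DU {ρ ε : ℝ} (hρ : 0 < ρ) (hρ2 : ρ ≤ 1 / 6) (hε : 0 < ε) (A : ℕ) :
    DStmU (FormI ε) A (1 / 6 - ρ / 2) := by
  have hρ4 : 0 < ρ / 4 := by positivity
  have hρ22 : 0 < ρ / 2 := by positivity
  obtain ⟨e, he⟩ : ∃ e, e = min (ε / 3) 1 := ⟨_, rfl⟩
  have he0 : 0 < e := by rw [he]; exact lt_min (by linarith) one_pos
  have he1 : e ≤ 1 := by rw [he]; exact min_le_right _ _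
  have heε : e ≤ ε / 3 := by rw [he]; exact min_le_left _ _
  obtain ⟨c, hc⟩ := bigU A 1 hρ4 he0 hρ22
  refine ⟨c, fun A₀ => ?_⟩
  obtain ⟨x₁, h₁⟩ := hc A₀
  obtain ⟨n₂, h₂⟩ := eventually_atTop.1 (int_main he0)
  obtain ⟨n₃, h₃⟩ := Filter.eventually_atTop.1 (ev_log 1 (s := 1) (by norm_num) 8)
  obtain ⟨m, hm⟩ : ∃ m, m = max (max n₂ n₃) 65 := ⟨_, rfl⟩
  refine ⟨max x₁ (m ^ 2), fun x hx => ?_⟩
  have hxx₁ : x₁ ≤ x := le_trans (le_max_left _ _) hx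
  have hxm : m ^ 2 ≤ x := le_trans (le_max_right _ _) hx
  have hm65 : 65 ≤ m := by rw [hm]; exact le_max_right _ _
  have hx1 : 1 ≤ x := le_trans (Nat.one_le_pow _ _ (by omega)) hxm
  have hx0 : (0 : ℝ) < x := by exact_mod_cast hx1
  have hxr1 : (1 : ℝ) ≤ x := by exact_mod_cast hx1
  obtain ⟨D, hD1, hD2, hD3⟩ := h₁ x hxx₁
  refine ⟨D, hD1, hD2, fun q hq hqx a hqD => ?_⟩
  have hqx' : (q : ℝ) ≤ (x : ℝ) ^ (2 / 3 : ℝ) :=
    hqx.trans (Real.rpow_le_rpow_of_exponent_le hxr1 (by linarith))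
  obtain ⟨B, hb1, hb2⟩ := hD3 q hq hqx' a hqD
  refine ⟨B, hb1, fun n h0 hnx hn hmod h2n => ?_⟩
  obtain ⟨hbig, hR⟩ := hb2 n h0 hnx hn hmod h2n
  have hn0 : (0 : ℝ) < n := by exact_mod_cast h0
  have hn1r : (1 : ℝ) ≤ n := by exact_mod_cast h0
  have hmn : m ≤ n := by
    have h1 : (m : ℝ) ≤ n := by
      have h2 : (m : ℝ) ^ 2 ≤ x := by exact_mod_cast hxm
      calc (m : ℝ) = ((m : ℝ) ^ 2) ^ (1 / 2 : ℝ) := by
            rw [← Real.sqrt_eq_rpow, Real.sqrt_sq (Nat.cast_nonneg _)]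
        _ ≤ (x : ℝ) ^ (1 / 2 : ℝ) := Real.rpow_le_rpow (by positivity) h2 (by norm_num)
        _ ≤ (x : ℝ) ^ (1 - ρ / 2) := Real.rpow_le_rpow_of_exponent_le hxr1 (by linarith)
        _ ≤ n := hbig.le
    exact_mod_cast h1
  have hn2 : n₂ ≤ n := le_trans (by rw [hm]; exact le_trans (le_max_left _ _) (le_max_left _ _)) hmn
  have hn3 : n₃ ≤ n := le_trans (by rw [hm]; exact le_trans (le_max_right _ _) (le_max_left _ _)) hmn
  have hn64 : 64 < n := by omega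
  obtain ⟨hl8, -⟩ := h₃ n hn3
  obtain ⟨s, hs⟩ : ∃ s, s = Real.sqrt n := ⟨_, rfl⟩
  have hnr64 : (64 : ℝ) < n := by exact_mod_cast hn64
  have hs8 : 8 < s := by
    rw [hs, show (8 : ℝ) = Real.sqrt 64 by
      rw [show (64 : ℝ) = 8 ^ 2 by norm_num]; exact (Real.sqrt_sq (by norm_num)).symm]
    exact Real.sqrt_lt_sqrt (by norm_num) hnr64
  have hss : s * s = n := by rw [hs]; exact Real.mul_self_sqrt hn0.le
  obtain ⟨U, hU⟩ : ∃ U, U = Nat.sqrt n := ⟨_, rfl⟩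
  obtain ⟨V, hV⟩ : ∃ V, V = ⌈4 * Real.sqrt n⌉₊ - 1 := ⟨_, rfl⟩
  have hU2 : (U : ℝ) ≤ s := by
    rw [hU, hs]
    exact Real.nat_sqrt_le_real_sqrt
  have hU1 : s - 1 ≤ U := by
    have := Real.real_sqrt_lt_nat_sqrt_succ (a := n)
    rw [← hU, ← hs] at this
    linarith
  have hceil : 1 ≤ ⌈4 * Real.sqrt n⌉₊ := by
    rw [Nat.one_le_ceil_iff]
    rw [← hs]
    linarith
  have hV2 : (V : ℝ) ≤ 4 * s := by
    rw [hV, Nat.cast_sub hceil, ← hs]
    have : (⌈4 * s⌉₊ : ℝ) < 4 * s + 1 := Nat.ceil_lt_add_one (by linarith)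
    push_cast
    linarith
  have hV1 : 4 * s - 1 ≤ V := by
    rw [hV, Nat.cast_sub hceil, ← hs]
    have : 4 * s ≤ (⌈4 * s⌉₊ : ℝ) := Nat.le_ceil _
    push_cast
    linarith
  have hUV : U ≤ V := by
    have : (U : ℝ) ≤ V := by linarith
    exact_mod_cast this
  have hV0 : 0 < V := by
    have : (0 : ℝ) < V := by linarith
    exact_mod_cast this
  have h2V : 2 * V ≤ n := by
    have : 2 * (V : ℝ) ≤ n := by nlinarith
    exact_mod_cast this
  have hqV : (q : ℝ) * (n : ℝ) ^ (1 / 3 + ρ / 4) ≤ V := by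
    have h1 : (q : ℝ) ≤ (n : ℝ) ^ (1 / 6 - ρ / 4) := by
      calc (q : ℝ) ≤ (x : ℝ) ^ (1 / 6 - ρ / 2) := hqx
        _ ≤ (x : ℝ) ^ ((1 - ρ / 2) * (1 / 6 - ρ / 4)) := by
            apply Real.rpow_le_rpow_of_exponent_le hxr1
            have e1 : (1 - ρ / 2) * (1 / 6 - ρ / 4) - (1 / 6 - ρ / 2) = ρ / 6 + ρ ^ 2 / 8 := by ring
            have : 0 ≤ ρ / 6 + ρ ^ 2 / 8 := by positivity
            linarith
        _ = ((x : ℝ) ^ (1 - ρ / 2)) ^ (1 / 6 - ρ / 4) := by rw [Real.rpow_mul hx0.le]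
        _ ≤ (n : ℝ) ^ (1 / 6 - ρ / 4) := Real.rpow_le_rpow (by positivity) hbig.le (by linarith)
    calc (q : ℝ) * (n : ℝ) ^ (1 / 3 + ρ / 4) ≤ (n : ℝ) ^ (1 / 6 - ρ / 4) * (n : ℝ) ^ (1 / 3 + ρ / 4) := by gcongr
      _ = s := by
          rw [← Real.rpow_add hn0, hs, Real.sqrt_eq_rpow]
          congr 1
          ring
      _ ≤ V := by linarith
  have hwin : (V : ℝ) / Real.log n ^ 1 ≤ (V : ℝ) - U := by
    rw [pow_one, div_le_iff₀ (by linarith)]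
    nlinarith
  have hf := hR U V hUV hqV h2V hV0 hwin
  have hm2 := h₂ n hn2 U V (by rw [← hs]; exact hU1) (by rw [← hs]; exact hU2) (by rw [← hs]; exact hV1)
    (by rw [← hs]; exact hV2)
  have hSS := one_le_SS n
  unfold FormI
  have hcard : (ints n).ncard = wc n U V := by
    rw [ints_eq hn64, Set.ncard_coe_finset, ← hU, ← hV]
    rfl
  rw [hcard]
  have h3 : |SS n * (((V : ℝ) - U) / (Real.log V * Real.log n)) - 6 * (SS n * (Real.sqrt n / Real.log n ^ 2))| ≤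
      e * (6 * (SS n * (Real.sqrt n / Real.log n ^ 2))) := by
    have e1 : SS n * (((V : ℝ) - U) / (Real.log V * Real.log n)) - 6 * (SS n * (Real.sqrt n / Real.log n ^ 2)) =
        SS n * ((((V : ℝ) - U) / (Real.log V * Real.log n)) - 6 * (Real.sqrt n / Real.log n ^ 2)) := by ring
    rw [e1, abs_mul, abs_of_pos (by linarith : (0 : ℝ) < SS n)]
    calc SS n * |((V : ℝ) - U) / (Real.log V * Real.log n) - 6 * (Real.sqrt n / Real.log n ^ 2)| ≤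
        SS n * (e * (6 * (Real.sqrt n / Real.log n ^ 2))) := mul_le_mul_of_nonneg_left hm2 (by linarith)
      _ = _ := by ring
  have hz : 0 ≤ 6 * (SS n * (Real.sqrt n / Real.log n ^ 2)) := by positivity
  refine (rel_two he0.le he1 hz hf h3).trans ?_
  apply mul_le_mul_of_nonneg_right _ hz
  linarith

/-- the interval, real `x` -/
theorem b58Real {ρ ε : ℝ} (hρ : 0 < ρ) (hε : 0 < ε) (A : ℕ) : ∃ c : ℕ, ∀ A₀ : ℕ, ∃ x₀ : ℝ, ∀ x : ℝ, x₀ ≤ x →
    ∃ D : Finset ℕ, (D.card : ℝ) ≤ Real.log x ^ c ∧ (∀ d ∈ D, Real.log x ^ A₀ < (rad d : ℝ)) ∧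
    ∀ q : ℕ, 1 ≤ q → (q : ℝ) ≤ x ^ (1 / 6 - ρ) → ∀ a : ℤ, (∀ d ∈ D, ¬ d ∣ Int.gcd a q) →
      (excD (FormI ε) x q a).Finite ∧ ((excD (FormI ε) x q a).ncard : ℝ) ≤ x / (q * Real.log x ^ A) := by
  by_cases hρ2 : ρ ≤ 1 / 6
  · exact transferDU _ (θ := 1 / 6 - ρ / 2) (η := 1 / 6 - ρ) (by linarith) (by linarith) A
      (b58DU hρ hρ2 hε (A + 1))
  · push Not at hρ2
    refine ⟨0, fun A₀ => ⟨2, fun x hx => ⟨∅, by simp, by simp, fun q hq hqx a _ => ?_⟩⟩⟩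
    exfalso
    have h1 : x ^ (1 / 6 - ρ) < 1 := Real.rpow_lt_one_of_one_lt_of_neg (by linarith) (by linarith)
    have h2 : (1 : ℝ) ≤ q := by exact_mod_cast hq
    linarith

/-- the statement for natural `x`, all integers, all moduli -/
def TStmU (F : ℕ → ℕ → Prop) (A : ℕ) : Prop := ∃ c : ℕ, ∀ A₀ : ℕ, ∃ x₀ : ℕ, ∀ x : ℕ, x₀ ≤ x →
    ∃ D : Finset ℕ, (D.card : ℝ) ≤ Real.log x ^ c ∧ (∀ d ∈ D, Real.log x ^ A₀ < (rad d : ℝ)) ∧
    ∀ q : ℕ, 1 ≤ q → ∀ a : ℕ, (∀ d ∈ D, ¬ d ∣ Nat.gcd a q) → ∃ Bad : Finset ℕ,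
      (Bad.card : ℝ) ≤ x / (q * Real.log x ^ A) ∧
      ∀ n : ℕ, 0 < n → n ≤ x → n ∉ Bad → n % q = a % q → F q n

/-- from natural `x` and natural residues to real `x` and integral residues, all integers -/
theorem transferTU (F : ℕ → ℕ → Prop) (A : ℕ) (hF : TStmU F (A + 1)) :
    ∃ c : ℕ, ∀ A₀ : ℕ, ∃ x₀ : ℝ, ∀ x : ℝ, x₀ ≤ x →
    ∃ D : Finset ℕ, (D.card : ℝ) ≤ Real.log x ^ c ∧ (∀ d ∈ D, Real.log x ^ A₀ < (rad d : ℝ)) ∧
    ∀ q : ℕ, 1 ≤ q → ∀ a : ℤ, (∀ d ∈ D, ¬ d ∣ Int.gcd a q) →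
      (excsetT F x q a).Finite ∧ ((excsetT F x q a).ncard : ℝ) ≤ x / (q * Real.log x ^ A) := by
  obtain ⟨c, hc⟩ := hF
  refine ⟨c, fun A₀ => ?_⟩
  obtain ⟨x₁, h₁⟩ := hc (A₀ + 1)
  refine ⟨max (x₁ + 1) (Real.exp (2 ^ (A + A₀ + 4))), fun x hx => ?_⟩
  have hx1 : (x₁ : ℝ) + 1 ≤ x := (le_max_left _ _).trans hx
  have hxe : Real.exp (2 ^ (A + A₀ + 4)) ≤ x := (le_max_right _ _).trans hx
  have hx0 : 0 < x := lt_of_lt_of_le (Real.exp_pos _) hxe
  have hl16 : (2 : ℝ) ^ (A + A₀ + 4) ≤ Real.log x := (Real.le_log_iff_exp_le hx0).2 hxe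
  have h2A : (1 : ℝ) ≤ 2 ^ A := one_le_pow₀ (by norm_num)
  have h2A₀ : (1 : ℝ) ≤ 2 ^ A₀ := one_le_pow₀ (by norm_num)
  have he : (2 : ℝ) ^ (A + A₀ + 4) = 2 ^ A * 2 ^ A₀ * 16 := by rw [pow_add, pow_add]; norm_num
  rw [he] at hl16
  have hAA : (1 : ℝ) ≤ 2 ^ A * 2 ^ A₀ := one_le_mul_of_one_le_of_one_le h2A h2A₀
  have hA1 : (2 : ℝ) ^ A ≤ 2 ^ A * 2 ^ A₀ := le_mul_of_one_le_right (by positivity) h2A₀
  have hA2 : (2 : ℝ) ^ A₀ ≤ 2 ^ A * 2 ^ A₀ := le_mul_of_one_le_left (by positivity) h2A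
  have hl : 16 ≤ Real.log x := by linarith
  obtain ⟨N, hN⟩ : ∃ N, N = ⌊x⌋₊ := ⟨_, rfl⟩
  have hNx : (N : ℝ) ≤ x := by rw [hN]; exact Nat.floor_le hx0.le
  have hxN : x < N + 1 := by rw [hN]; exact Nat.lt_floor_add_one x
  have hxN1 : x₁ ≤ N := by
    rw [hN]
    apply Nat.le_floor
    linarith
  have hx16 : 16 ≤ x := hl.trans ((Real.log_le_sub_one_of_pos hx0).trans (by linarith))
  have hN0 : (0 : ℝ) < N := by linarith
  have hNhalf : x / 2 ≤ N := by linarith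
  have hlN : Real.log x - 1 ≤ Real.log N := by
    have h1 := Real.log_le_log (by positivity) hNhalf
    rw [Real.log_div hx0.ne' (by norm_num)] at h1
    have := Real.log_two_lt_d9
    linarith
  have hlN2 : Real.log x / 2 ≤ Real.log N := by linarith
  have hlN0 : 0 < Real.log N := by linarith
  have hlNx : Real.log N ≤ Real.log x := Real.log_le_log hN0 hNx
  have hpow : ∀ k : ℕ, (2 : ℝ) ^ k ≤ Real.log N → Real.log x ^ k ≤ Real.log N ^ (k + 1) := by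
    intro k hk
    calc Real.log x ^ k = 2 ^ k * (Real.log x / 2) ^ k := by rw [div_pow]; field_simp
      _ ≤ Real.log N * Real.log N ^ k := by
        have e2 : (Real.log x / 2) ^ k ≤ Real.log N ^ k := pow_le_pow_left₀ (by linarith) hlN2 k
        gcongr
      _ = Real.log N ^ (k + 1) := by ring
  obtain ⟨D, hD1, hD2, hD3⟩ := h₁ N hxN1
  refine ⟨D, hD1.trans (pow_le_pow_left₀ hlN0.le hlNx c), fun d hd => lt_of_le_of_lt (hpow A₀ (by linarith)) (hD2 d hd),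
    fun q hq a hqD => ?_⟩
  obtain ⟨b, hb, hbg⟩ : ∃ b : ℕ, (b : ℤ) = a % q ∧ Nat.gcd b q = Int.gcd a q :=
    ⟨(a % q).toNat, Int.toNat_of_nonneg (Int.emod_nonneg _ (by omega)), gcd_toNatU q a hq⟩
  have hq0 : (0 : ℝ) < q := by exact_mod_cast hq
  obtain ⟨Bad, hb1, hb2⟩ := hD3 q hq b (by rw [hbg]; exact hqD)
  have hsub : excsetT F x q a ⊆ (Bad : Set ℕ) := by
    intro n hn
    obtain ⟨h0, h2, h4, h5⟩ := hn
    by_contra hcon
    apply h5
    apply hb2 n h0 _ (by simpa using hcon) _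
    · rw [hN]
      exact Nat.le_floor h2
    · have h6 : (n : ℤ) % q = a % q := h4
      have h7 : ((n % q : ℕ) : ℤ) = ((b % q : ℕ) : ℤ) := by
        rw [Int.natCast_mod, Int.natCast_mod, h6, hb, Int.emod_emod_of_dvd _ dvd_rfl]
      exact_mod_cast h7
  refine ⟨Set.Finite.subset (Finset.finite_toSet Bad) hsub, ?_⟩
  have h1 : (excsetT F x q a).ncard ≤ Bad.card := by
    have := Set.ncard_le_ncard hsub (Finset.finite_toSet Bad)
    rwa [Set.ncard_coe_finset] at this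
  have h2 : ((excsetT F x q a).ncard : ℝ) ≤ Bad.card := by exact_mod_cast h1
  refine h2.trans (hb1.trans ?_)
  have h3 : Real.log x ^ A ≤ Real.log N ^ (A + 1) := hpow A (by linarith)
  have h4 : 0 < Real.log x ^ A := by positivity
  calc (N : ℝ) / (q * Real.log N ^ (A + 1)) ≤ x / (q * Real.log N ^ (A + 1)) := by gcongr
    _ ≤ x / (q * Real.log x ^ A) := by
      apply div_le_div_of_nonneg_left hx0.le (by positivity)
      gcongr

/-- the exceptional divisors for `(2 a, 2 q)` and for `(a, q)` -/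
lemma halve {D : Finset ℕ} {a q : ℕ} (h : ∀ d ∈ D.image (fun d => if 2 ∣ d then d / 2 else d), ¬ d ∣ Nat.gcd a q) :
    ∀ d ∈ D, ¬ d ∣ Nat.gcd (2 * a) (2 * q) := by
  intro d hd hdv
  rw [Nat.gcd_mul_left] at hdv
  apply h _ (mem_image_of_mem _ hd)
  split_ifs with h2
  · obtain ⟨k, rfl⟩ := h2
    rw [Nat.mul_div_cancel_left k (by norm_num)]
    exact (Nat.mul_dvd_mul_iff_left (by norm_num)).1 hdv
  · exact Nat.Coprime.dvd_of_dvd_mul_left ((Nat.Prime.coprime_iff_not_dvd Nat.prime_two).2 h2).symm hdv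

lemma halve_rad {d : ℕ} (hd : 1 ≤ d) : rad d ≤ 2 * rad (if 2 ∣ d then d / 2 else d) := by
  split_ifs with h2
  · have h1 := rad_div (e := d) (j := 2) hd (by norm_num)
    rw [Nat.gcd_eq_right h2] at h1
    omega
  · have := rad_pos d
    omega

/-- all windows, natural `x` -/
theorem f33TU {ρ ε : ℝ} (hρ : 0 < ρ) (hε : 0 < ε) (W A : ℕ) : TStmU (FormT ε ρ W) A := by
  have hρ2 : 0 < ρ / 2 := by positivity
  obtain ⟨c, hc⟩ := regAllU cell1_all cell2_all cvu_all (A + 1) W hρ2 hε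
  refine ⟨2 * c, fun A₀ => ?_⟩
  obtain ⟨x₁, h₁⟩ := hc (A₀ + 1)
  obtain ⟨n₂, h₂⟩ := eventually_atTop.1 (ev_pow hρ2 (2 * (2 : ℝ) ^ (1 / 3 + ρ / 2)))
  obtain ⟨m, hm⟩ : ∃ m, m = max n₂ 3 := ⟨_, rfl⟩
  obtain ⟨x₂, hx₂⟩ := eventually_atTop.1 (ev_log (A + 1) (s := 1 / 2) (by norm_num) 2)
  refine ⟨max (max x₁ x₂) (m ^ 4 + 1), fun x hx => ?_⟩
  have hxx₁ : x₁ ≤ x := le_trans (le_trans (le_max_left _ _) (le_max_left _ _)) hx
  have hxx₂ : x₂ ≤ x := le_trans (le_trans (le_max_right _ _) (le_max_left _ _)) hx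
  have hxm : m ^ 4 ≤ x := le_trans (le_trans (Nat.le_succ _) (le_max_right _ _)) hx
  have hx1 : 1 ≤ x := le_trans (le_trans (Nat.le_add_left 1 _) (le_max_right _ _)) hx
  obtain ⟨hL2, hLp⟩ := hx₂ x hxx₂
  obtain ⟨L, hLd⟩ : ∃ L, L = Real.log x := ⟨_, rfl⟩
  rw [← hLd] at hL2 hLp ⊢
  have hx0 : (0 : ℝ) < x := by exact_mod_cast hx1
  have hL0 : 0 < L := by linarith
  have hL1 : 1 ≤ L := by linarith
  have hLx : L ≤ Real.log ((2 * x : ℕ) : ℝ) := by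
    rw [hLd]
    apply Real.log_le_log hx0
    push_cast
    linarith
  have hLx2 : Real.log ((2 * x : ℕ) : ℝ) ≤ L ^ 2 := by
    push_cast
    rw [Real.log_mul (by norm_num) hx0.ne', ← hLd]
    have := Real.log_two_lt_d9
    nlinarith
  obtain ⟨D, hD1, hD2, hD3⟩ := h₁ (2 * x) (by omega)
  have hDpos : ∀ d ∈ D, 1 ≤ d := by
    intro d hd
    by_contra hcon
    have hd0 : d = 0 := by omega
    have h3 := hD2 d hd
    have h4 : (1 : ℝ) ≤ Real.log ((2 * x : ℕ) : ℝ) ^ (A₀ + 1) := one_le_pow₀ (hL1.trans hLx)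
    have h5 : rad d = 1 := by rw [hd0]; simp [rad]
    rw [h5, Nat.cast_one] at h3
    linarith
  refine ⟨D.image (fun d => if 2 ∣ d then d / 2 else d), ?_, ?_, fun q hq a hqD => ?_⟩
  · have h3 : ((D.image (fun d => if 2 ∣ d then d / 2 else d)).card : ℝ) ≤ D.card := by exact_mod_cast card_image_le
    refine h3.trans (hD1.trans ?_)
    rw [pow_mul]
    exact pow_le_pow_left₀ (by linarith) hLx2 c
  · intro d hd
    rw [mem_image] at hd
    obtain ⟨e, he, rfl⟩ := hd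
    have h3 := hD2 e he
    have h4 : (rad e : ℝ) ≤ 2 * rad (if 2 ∣ e then e / 2 else e) := by exact_mod_cast halve_rad (hDpos e he)
    have h5 : 2 * L ^ A₀ ≤ Real.log ((2 * x : ℕ) : ℝ) ^ (A₀ + 1) := by
      calc 2 * L ^ A₀ ≤ L * L ^ A₀ := by gcongr
        _ = L ^ (A₀ + 1) := by ring
        _ ≤ _ := pow_le_pow_left₀ hL0.le hLx _
    linarith
  have hq0 : (0 : ℝ) < q := by exact_mod_cast hq
  have hq1 : (1 : ℝ) ≤ q := by exact_mod_cast hq
  obtain ⟨Bad, hb1, hb2⟩ := hD3 (2 * q) (by omega) (2 * a) (halve hqD)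
  refine ⟨Bad.image (fun N => N / 2) ∪ (if q ≤ m then range m else ∅), ?_, ?_⟩
  · have h1 : ((Bad.image (fun N => N / 2) ∪ (if q ≤ m then range m else ∅)).card : ℝ) ≤
        Bad.card + (if q ≤ m then range m else ∅).card := by
      have := (card_union_le (Bad.image (fun N => N / 2)) (if q ≤ m then range m else ∅)).trans
        (Nat.add_le_add_right card_image_le _)
      exact_mod_cast this
    have h2 : ((2 * x : ℕ) : ℝ) / ((2 * q : ℕ) * Real.log ((2 * x : ℕ) : ℝ) ^ (A + 1)) ≤ x / (q * L ^ (A + 1)) := by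
      have e1 : ((2 * x : ℕ) : ℝ) / ((2 * q : ℕ) * Real.log ((2 * x : ℕ) : ℝ) ^ (A + 1)) =
          x / (q * Real.log ((2 * x : ℕ) : ℝ) ^ (A + 1)) := by
        have : 0 < Real.log ((2 * x : ℕ) : ℝ) := lt_of_lt_of_le hL0 hLx
        push_cast
        push_cast at this
        field_simp
      rw [e1]
      apply div_le_div_of_nonneg_left hx0.le (by positivity)
      have := pow_le_pow_left₀ hL0.le hLx (A + 1)
      gcongr
    have h3 : ((if q ≤ m then range m else ∅).card : ℝ) ≤ x / (q * L ^ (A + 1)) := by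
      split_ifs with h
      · rw [card_range, le_div_iff₀ (by positivity)]
        have hqm : (q : ℝ) ≤ m := by exact_mod_cast h
        have h4 : (m : ℝ) ^ 4 ≤ x := by exact_mod_cast hxm
        have h5 : (m : ℝ) ^ 2 ≤ (x : ℝ) ^ (1 / 2 : ℝ) := by
          rw [← Real.sqrt_eq_rpow]
          apply Real.le_sqrt_of_sq_le
          rw [← pow_mul]
          exact h4
        calc (m : ℝ) * (q * L ^ (A + 1)) ≤ m * (m * (x : ℝ) ^ (1 / 2 : ℝ)) := by gcongr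
          _ = (m : ℝ) ^ 2 * (x : ℝ) ^ (1 / 2 : ℝ) := by ring
          _ ≤ (x : ℝ) ^ (1 / 2 : ℝ) * (x : ℝ) ^ (1 / 2 : ℝ) := by gcongr
          _ = x := by
              rw [← Real.rpow_add hx0]
              norm_num
      · rw [card_empty, Nat.cast_zero]
        positivity
    have h4 : (x : ℝ) / (q * L ^ (A + 1)) = x / (q * L ^ A) * (1 / L) := by
      rw [pow_add]
      field_simp
    have h5 : 1 / L ≤ 1 / 2 := one_div_le_one_div_of_le (by norm_num) hL2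
    have h6 : (x : ℝ) / (q * L ^ A) * (1 / L) ≤ x / (q * L ^ A) * (1 / 2) :=
      mul_le_mul_of_nonneg_left h5 (by positivity)
    linarith
  intro n h0 hnx hn hmod U V hUV hV hVn hD
  rw [mem_union, not_or] at hn
  obtain ⟨hnB, hnS⟩ := hn
  have hn0 : (0 : ℝ) < n := by exact_mod_cast h0
  have hn1r : (1 : ℝ) ≤ n := by exact_mod_cast h0
  have hVr : (0 : ℝ) < V := lt_of_lt_of_le (by positivity) hV
  have hV0 : 0 < V := by exact_mod_cast hVr
  have hmn : m ≤ n := by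
    by_contra hcon
    push Not at hcon
    have hqm : q ≤ m := by
      have h1 : (q : ℝ) ≤ n := by
        have h2 : (q : ℝ) * 1 ≤ q * (n : ℝ) ^ (1 / 3 + ρ) := by
          have : 1 ≤ (n : ℝ) ^ (1 / 3 + ρ) := Real.one_le_rpow hn1r (by linarith)
          gcongr
        have h3 : (V : ℝ) < n := by exact_mod_cast hVn
        linarith
      have h2 : q ≤ n := by exact_mod_cast h1
      omega
    apply hnS
    rw [if_pos hqm, mem_range]
    exact hcon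
  have hn3 : (3 : ℝ) ≤ n := by
    have : 3 ≤ n := le_trans (by rw [hm]; exact le_max_right _ _) hmn
    exact_mod_cast this
  have hpow := h₂ n (le_trans (by rw [hm]; exact le_max_left _ _) hmn)
  have hlog1 : 1 ≤ Real.log n := by
    rw [Real.le_log_iff_exp_le hn0]
    have := Real.exp_one_lt_d9
    linarith
  have hlog2 : Real.log n ≤ Real.log ((2 * n : ℕ) : ℝ) := by
    apply Real.log_le_log hn0
    push_cast
    linarith
  have hV' : ((2 * q : ℕ) : ℝ) * ((2 * n : ℕ) : ℝ) ^ (1 / 3 + ρ / 2) ≤ V := by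
    refine le_trans ?_ hV
    push_cast
    rw [Real.mul_rpow (by norm_num) hn0.le]
    calc 2 * (q : ℝ) * ((2 : ℝ) ^ (1 / 3 + ρ / 2) * (n : ℝ) ^ (1 / 3 + ρ / 2)) =
        q * ((2 * (2 : ℝ) ^ (1 / 3 + ρ / 2)) * (n : ℝ) ^ (1 / 3 + ρ / 2)) := by ring
      _ ≤ q * ((n : ℝ) ^ (ρ / 2) * (n : ℝ) ^ (1 / 3 + ρ / 2)) := by gcongr
      _ = q * (n : ℝ) ^ (1 / 3 + ρ) := by
          rw [← Real.rpow_add hn0]
          congr 2
          ring
  have hD' : (V : ℝ) / Real.log ((2 * n : ℕ) : ℝ) ^ W ≤ (V : ℝ) - U := by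
    refine le_trans ?_ hD
    apply div_le_div_of_nonneg_left hVr.le (by positivity)
    exact pow_le_pow_left₀ (by linarith) hlog2 W
  have hNB : 2 * n ∉ Bad := by
    intro hcon
    apply hnB
    rw [mem_image]
    exact ⟨2 * n, hcon, by omega⟩
  have hmod' : (2 * n) % (2 * q) = (2 * a) % (2 * q) := by
    rw [Nat.mul_mod_mul_left, Nat.mul_mod_mul_left, hmod]
  have := (hb2 (2 * n) (by omega) hNB hmod' (Dvd.intro _ rfl) U V hUV hV' (by omega)).2 hV0 hD'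
  push_cast at this
  exact this

/-- all windows, real `x` -/
theorem f33Real {ρ ε : ℝ} (hρ : 0 < ρ) (hε : 0 < ε) (W A : ℕ) : ∃ c : ℕ, ∀ A₀ : ℕ, ∃ x₀ : ℝ, ∀ x : ℝ, x₀ ≤ x →
    ∃ D : Finset ℕ, (D.card : ℝ) ≤ Real.log x ^ c ∧ (∀ d ∈ D, Real.log x ^ A₀ < (rad d : ℝ)) ∧
    ∀ q : ℕ, 1 ≤ q → ∀ a : ℤ, (∀ d ∈ D, ¬ d ∣ Int.gcd a q) →
      (excsetT (FormT ε ρ W) x q a).Finite ∧
        ((excsetT (FormT ε ρ W) x q a).ncard : ℝ) ≤ x / (q * Real.log x ^ A) :=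
  transferTU (FormT ε ρ W) A (f33TU hρ hε W (A + 1))

end Pool.Agent.H567.PP
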