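import Pool.Agent.H567.PP.Hard3

/-!
Project PP (helper567): lower bounds up to `x ^ (4 / 5 - ρ)`, and the common form of the theorems for every modulus.
-/

set_option autoImplicit false

namespace Pool.Agent.H567.PP

open Finset Filter
open Pool.Agent.H567.HW
open Pool.Agent.H560R3.GB (sing)
open Pool.Agent.T6.H3.FF (WinM)
open Pool.Agent.Y614.GJ.Core (ev_log)

/-- the class `a` modulo `q` is excluded by `D` -/
def Excl (D : Finset ℕ) (q : ℕ) (a : ℤ) : Prop := ∃ d ∈ D, d ∣ Int.gcd a q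

/-- the number of the multiples of `d` in a system of residues -/
theorem card_dvd {q d : ℕ} (hd : 0 < d) (hdq : d ∣ q) : ((range q).filter (fun a => d ∣ a)).card = q / d := by
  obtain ⟨k, rfl⟩ := hdq
  rw [Nat.mul_div_cancel_left k hd]
  have h1 : (range (d * k)).filter (fun a => d ∣ a) = (range k).image (fun i => d * i) := by
    ext a
    rw [mem_filter, mem_image, mem_range]
    constructor
    · rintro ⟨h1, i, rfl⟩
      exact ⟨i, mem_range.2 (Nat.lt_of_mul_lt_mul_left h1), rfl⟩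
    · rintro ⟨i, hi, rfl⟩
      exact ⟨Nat.mul_lt_mul_of_pos_left (mem_range.1 hi) hd, Dvd.intro i rfl⟩
  rw [h1, card_image_of_injective _ (fun i j h => Nat.eq_of_mul_eq_mul_left hd h), card_range]

theorem rad_le (d : ℕ) (hd : 0 < d) : rad d ≤ d := Nat.le_of_dvd hd (Nat.prod_primeFactors_dvd d)

open Classical in
/-- few classes are excluded -/
theorem few_classes {D : Finset ℕ} {L : ℝ} {c B : ℕ} (hL : 1 ≤ L) (hc : (D.card : ℝ) ≤ L ^ c)
    (hD : ∀ d ∈ D, L ^ (B + c) < (rad d : ℝ)) (hD0 : ∀ d ∈ D, 0 < d) {q : ℕ} (hq : 1 ≤ q) :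
    (((range q).filter (fun a : ℕ => Excl D q a)).card : ℝ) ≤ q / L ^ B := by
  have hL0 : 0 < L := by linarith
  have hsub : (range q).filter (fun a : ℕ => Excl D q a) ⊆
      (D.filter (fun d => d ∣ q)).biUnion (fun d => (range q).filter (fun a => d ∣ a)) := by
    intro a ha
    rw [mem_filter] at ha
    obtain ⟨ha, d, hd, hda⟩ := ha
    rw [Int.gcd_natCast_natCast] at hda
    rw [mem_biUnion]
    refine ⟨d, ?_, ?_⟩
    · rw [mem_filter]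
      exact ⟨hd, hda.trans (Nat.gcd_dvd_right _ _)⟩
    · rw [mem_filter]
      exact ⟨ha, hda.trans (Nat.gcd_dvd_left _ _)⟩
  have h1 : (((range q).filter (fun a : ℕ => Excl D q a)).card : ℝ) ≤
      ∑ d ∈ D.filter (fun d => d ∣ q), (((range q).filter (fun a => d ∣ a)).card : ℝ) := by
    exact_mod_cast (card_le_card hsub).trans card_biUnion_le
  have h2 : ∀ d ∈ D.filter (fun d => d ∣ q), (((range q).filter (fun a => d ∣ a)).card : ℝ) ≤ q / L ^ (B + c) := by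
    intro d hd
    rw [mem_filter] at hd
    have hd0 := hD0 d hd.1
    have hd0r : (0 : ℝ) < d := by exact_mod_cast hd0
    rw [card_dvd hd0 hd.2]
    have h3 : L ^ (B + c) ≤ (d : ℝ) := by
      refine (hD d hd.1).le.trans ?_
      exact_mod_cast rad_le d hd0
    calc ((q / d : ℕ) : ℝ) ≤ (q : ℝ) / d := Nat.cast_div_le
      _ ≤ q / L ^ (B + c) := div_le_div_of_nonneg_left (Nat.cast_nonneg _) (by positivity) h3
  refine h1.trans ((sum_le_sum h2).trans ?_)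
  rw [sum_const, nsmul_eq_mul]
  have h4 : ((D.filter (fun d => d ∣ q)).card : ℝ) ≤ L ^ c := by
    refine le_trans ?_ hc
    exact_mod_cast card_filter_le _ _
  calc ((D.filter (fun d => d ∣ q)).card : ℝ) * (q / L ^ (B + c)) ≤ L ^ c * (q / L ^ (B + c)) := by gcongr
    _ = q / L ^ B := by
        rw [pow_add]
        field_simp

/-- the form in which the theorems are proved -/
def Base (Q : ℝ → ℕ → ℤ → Prop) : Prop := ∃ c : ℕ, ∀ A₀ : ℕ, ∃ x₀ : ℝ, ∀ x : ℝ, x₀ ≤ x →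
    ∃ D : Finset ℕ, (D.card : ℝ) ≤ Real.log x ^ c ∧ (∀ d ∈ D, Real.log x ^ A₀ < (rad d : ℝ)) ∧
    ∀ q : ℕ, 1 ≤ q → ∀ a : ℤ, (∀ d ∈ D, ¬ d ∣ Int.gcd a q) → Q x q a

/-- two theorems at once -/
theorem base_and {Q₁ Q₂ : ℝ → ℕ → ℤ → Prop} (h1 : Base Q₁) (h2 : Base Q₂) :
    Base (fun x q a => Q₁ x q a ∧ Q₂ x q a) := by
  obtain ⟨c₁, h₁⟩ := h1
  obtain ⟨c₂, h₂⟩ := h2
  refine ⟨c₁ + c₂ + 1, fun A₀ => ?_⟩
  obtain ⟨x₁, h₁⟩ := h₁ A₀
  obtain ⟨x₂, h₂⟩ := h₂ A₀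
  refine ⟨max (max x₁ x₂) (Real.exp 8), fun x hx => ?_⟩
  have hxx₁ : x₁ ≤ x := (le_max_left _ _).trans ((le_max_left _ _).trans hx)
  have hxx₂ : x₂ ≤ x := (le_max_right _ _).trans ((le_max_left _ _).trans hx)
  have hxe : Real.exp 8 ≤ x := (le_max_right _ _).trans hx
  have hx0 : 0 < x := (Real.exp_pos _).trans_le hxe
  have hL8 : 8 ≤ Real.log x := (Real.le_log_iff_exp_le hx0).2 hxe
  have hL1 : 1 ≤ Real.log x := by linarith
  obtain ⟨D₁, hc₁, hr₁, hD₁⟩ := h₁ x hxx₁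
  obtain ⟨D₂, hc₂, hr₂, hD₂⟩ := h₂ x hxx₂
  refine ⟨D₁ ∪ D₂, ?_, ?_, fun q hq a ha => ⟨hD₁ q hq a fun d hd => ha d (mem_union_left _ hd),
    hD₂ q hq a fun d hd => ha d (mem_union_right _ hd)⟩⟩
  · have h3 : ((D₁ ∪ D₂).card : ℝ) ≤ D₁.card + D₂.card := by exact_mod_cast card_union_le _ _
    have h4 : Real.log x ^ c₁ ≤ Real.log x ^ (c₁ + c₂) := pow_le_pow_right₀ hL1 (by omega)
    have h5 : Real.log x ^ c₂ ≤ Real.log x ^ (c₁ + c₂) := pow_le_pow_right₀ hL1 (by omega)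
    have h6 : 0 < Real.log x ^ (c₁ + c₂) := by positivity
    calc ((D₁ ∪ D₂).card : ℝ) ≤ 2 * Real.log x ^ (c₁ + c₂) := by linarith
      _ ≤ Real.log x * Real.log x ^ (c₁ + c₂) := by gcongr; linarith
      _ = Real.log x ^ (c₁ + c₂ + 1) := by ring
  · intro d hd
    rcases mem_union.1 hd with h | h
    · exact hr₁ d h
    · exact hr₂ d h

open Classical in
/-- the form in which the theorems are stated -/
theorem base_final {Q : ℝ → ℕ → ℤ → Prop} (h : Base Q) : ∃ c : ℕ, ∀ B : ℕ, ∃ x₀ : ℝ, ∀ x : ℝ, x₀ ≤ x →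
    ∃ D : Finset ℕ, (D.card : ℝ) ≤ Real.log x ^ c ∧ (∀ d ∈ D, Real.log x ^ B < (rad d : ℝ)) ∧
    ∀ q : ℕ, 1 ≤ q →
      (∀ a : ℤ, (rad (Int.gcd a q) : ℝ) ≤ Real.log x ^ B → ¬ Excl D q a) ∧
      (((range q).filter (fun a : ℕ => Excl D q a)).card : ℝ) ≤ q / Real.log x ^ B ∧
      ∀ a : ℤ, ¬ Excl D q a → Q x q a := by
  obtain ⟨c, h⟩ := h
  refine ⟨c, fun B => ?_⟩
  obtain ⟨x₁, h⟩ := h (B + c)
  refine ⟨max x₁ (Real.exp 8), fun x hx => ?_⟩
  have hxx₁ : x₁ ≤ x := (le_max_left _ _).trans hx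
  have hxe : Real.exp 8 ≤ x := (le_max_right _ _).trans hx
  have hx0 : 0 < x := (Real.exp_pos _).trans_le hxe
  have hL8 : 8 ≤ Real.log x := (Real.le_log_iff_exp_le hx0).2 hxe
  have hL1 : 1 ≤ Real.log x := by linarith
  obtain ⟨D, hDc, hDr, hD⟩ := h x hxx₁
  have hBc : Real.log x ^ B ≤ Real.log x ^ (B + c) := pow_le_pow_right₀ hL1 (by omega)
  have hD0 : ∀ d ∈ D, 0 < d := by
    intro d hd
    rcases Nat.eq_zero_or_pos d with h0 | h0
    · exfalso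
      have h3 := hDr d hd
      have h4 : (1 : ℝ) ≤ Real.log x ^ (B + c) := one_le_pow₀ hL1
      have h5 : rad d = 1 := by rw [h0]; simp [rad]
      rw [h5, Nat.cast_one] at h3
      linarith
    · exact h0
  refine ⟨D, hDc, fun d hd => lt_of_le_of_lt hBc (hDr d hd), fun q hq => ⟨?_, ?_, ?_⟩⟩
  · rintro a ha ⟨d, hd, hda⟩
    have hg : 0 < Int.gcd a q := Int.gcd_pos_of_ne_zero_right _ (by exact_mod_cast (by omega : q ≠ 0))
    have h3 := hDr d hd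
    have h4 : rad d ≤ rad (Int.gcd a q) := by
      unfold rad
      refine Finset.prod_le_prod_of_subset_of_one_le' (Nat.primeFactors_mono hda (by omega)) fun p hp _ => ?_
      exact (Nat.prime_of_mem_primeFactors hp).pos
    have h5 : (rad d : ℝ) ≤ rad (Int.gcd a q) := by exact_mod_cast h4
    linarith
  · exact few_classes hL1 hDc hDr hD0 hq
  · intro a ha
    exact hD q hq a fun d hd hda => ha ⟨d, hd, hda⟩

/-- the even exceptional integers -/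
def evenExc (F : ℕ → Prop) (x : ℝ) (q : ℕ) (a : ℤ) : Set ℕ :=
  {n : ℕ | 0 < n ∧ (n : ℝ) ≤ x ∧ 2 ∣ n ∧ (n : ℤ) ≡ a [ZMOD q] ∧ ¬ F n}

/-- the exceptional integers -/
def allExc (F : ℕ → Prop) (x : ℝ) (q : ℕ) (a : ℤ) : Set ℕ :=
  {n : ℕ | 0 < n ∧ (n : ℝ) ≤ x ∧ (n : ℤ) ≡ a [ZMOD q] ∧ ¬ F n}

theorem fru_base (Q : ℕ → Prop) (W : ℕ) (hQ : ∃ n₀ : ℕ, ∀ n : ℕ, n₀ ≤ n → 2 ∣ n → WinM W n → Q n) {ρ : ℝ} (hρ : 0 < ρ)
    (A : ℕ) : Base (fun x q a => (q : ℝ) ≤ x ^ (4 / 5 - ρ) → (evenExc Q x q a).Finite ∧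
      ((evenExc Q x q a).ncard : ℝ) ≤ x / (q * Real.log x ^ A)) := by
  obtain ⟨c, h⟩ := fru_all Q W hQ ρ hρ A
  refine ⟨c, fun A₀ => ?_⟩
  obtain ⟨x₀, h⟩ := h A₀
  refine ⟨x₀, fun x hx => ?_⟩
  obtain ⟨D, h1, h2, h3⟩ := h x hx
  exact ⟨D, h1, h2, fun q hq a ha hqx => h3 q hq hqx a ha⟩

theorem bae_base {ρ ε : ℝ} (hρ : 0 < ρ) (hε : 0 < ε) (A : ℕ) : Base (fun x q a => (q : ℝ) ≤ x ^ (2 / 3 - ρ) →
    (excD (fun q n => Small ρ q n ∧ FormS ε ρ q n) x q a).Finite ∧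
      ((excD (fun q n => Small ρ q n ∧ FormS ε ρ q n) x q a).ncard : ℝ) ≤ x / (q * Real.log x ^ A)) := by
  obtain ⟨c, h⟩ := baeReal hρ hε A
  refine ⟨c, fun A₀ => ?_⟩
  obtain ⟨x₀, h⟩ := h A₀
  refine ⟨x₀, fun x hx => ?_⟩
  obtain ⟨D, h1, h2, h3⟩ := h x hx
  exact ⟨D, h1, h2, fun q hq a ha hqx => h3 q hq hqx a ha⟩

theorem b58_base {ρ ε : ℝ} (hρ : 0 < ρ) (hε : 0 < ε) (A : ℕ) : Base (fun x q a => (q : ℝ) ≤ x ^ (1 / 6 - ρ) →
    (excD (FormI ε) x q a).Finite ∧ ((excD (FormI ε) x q a).ncard : ℝ) ≤ x / (q * Real.log x ^ A)) := by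
  obtain ⟨c, h⟩ := b58Real hρ hε A
  refine ⟨c, fun A₀ => ?_⟩
  obtain ⟨x₀, h⟩ := h A₀
  refine ⟨x₀, fun x hx => ?_⟩
  obtain ⟨D, h1, h2, h3⟩ := h x hx
  exact ⟨D, h1, h2, fun q hq a ha hqx => h3 q hq hqx a ha⟩

theorem f33_base {ρ ε : ℝ} (hρ : 0 < ρ) (hε : 0 < ε) (W A : ℕ) : Base (fun x q a =>
    (excsetT (FormT ε ρ W) x q a).Finite ∧
      ((excsetT (FormT ε ρ W) x q a).ncard : ℝ) ≤ x / (q * Real.log x ^ A)) := f33Real hρ hε W A

/-- a small prime, up to a power of the logarithm -/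
def LowP (W m : ℕ) : Prop := ∃ p : ℕ, p.Prime ∧ (m - p).Prime ∧ (p : ℝ) ≤ m / Real.log m ^ W

theorem lowP_of (W : ℕ) : ∃ m₀ : ℕ, ∀ m : ℕ, m₀ ≤ m → 2 ∣ m → WinM (W + 1) m → LowP W m := by
  obtain ⟨m₀, h₀⟩ := Filter.eventually_atTop.1 (ev_log (W + 1) (s := 1 / 2) (by norm_num) 2)
  refine ⟨max m₀ 16, fun m hm _ hw => ?_⟩
  obtain ⟨hL2, hLp⟩ := h₀ m (le_trans (le_max_left _ _) hm)
  have hm16 : (16 : ℝ) ≤ m := by exact_mod_cast le_trans (le_max_right _ _) hm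
  have hm0 : (0 : ℝ) < m := by linarith
  obtain ⟨L, hL⟩ : ∃ L, L = Real.log m := ⟨_, rfl⟩
  rw [← hL] at hL2 hLp
  have hL0 : 0 < L := by linarith
  have hsq : (m : ℝ) ^ (1 / 2 : ℝ) * (m : ℝ) ^ (1 / 2 : ℝ) = m := by
    rw [← Real.rpow_add hm0]; norm_num
  have hs4 : 4 ≤ (m : ℝ) ^ (1 / 2 : ℝ) := by
    rw [← Real.sqrt_eq_rpow]
    apply Real.le_sqrt_of_sq_le
    linarith
  have hbig : 4 ≤ (m : ℝ) / L ^ (W + 1) := by
    rw [le_div_iff₀ (by positivity)]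
    calc 4 * L ^ (W + 1) ≤ (m : ℝ) ^ (1 / 2 : ℝ) * (m : ℝ) ^ (1 / 2 : ℝ) := by gcongr
      _ = m := hsq
  have hdiv : (m : ℝ) / L ^ W = L * (m / L ^ (W + 1)) := by
    rw [pow_succ]
    field_simp
  obtain ⟨V, hV⟩ : ∃ V : ℕ, V = ⌊(m : ℝ) / L ^ W⌋₊ := ⟨_, rfl⟩
  have hV1 : (V : ℝ) ≤ m / L ^ W := by rw [hV]; exact Nat.floor_le (by positivity)
  have hV2 : (m : ℝ) / L ^ W < V + 1 := by rw [hV]; exact Nat.lt_floor_add_one _
  have hV3 : (m : ℝ) / L ^ (W + 1) ≤ V := by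
    have : 2 * ((m : ℝ) / L ^ (W + 1)) ≤ L * (m / L ^ (W + 1)) := by gcongr
    rw [← hdiv] at this
    linarith
  have hV0 : 0 < V := by
    have : (0 : ℝ) < V := by linarith
    exact_mod_cast this
  have hVm : V ≤ m := by
    have h1 : (m : ℝ) / L ^ W ≤ m := div_le_self hm0.le (one_le_pow₀ (by linarith))
    have : (V : ℝ) ≤ m := by linarith
    exact_mod_cast this
  have h1 := hw 0 V hV0 hVm (by rw [← hL, Nat.cast_zero, sub_zero]; exact hV3)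
  have h2 : 1 ≤ sing m := one_le_SS m
  have h3 : 0 < 1 / 8 * (sing m * ((V : ℝ) - ((0 : ℕ) : ℝ)) / Real.log m ^ 2) := by
    rw [← hL, Nat.cast_zero, sub_zero]
    have : (0 : ℝ) < V := by exact_mod_cast hV0
    positivity
  have h4 : (0 : ℝ) < Pool.Agent.W93.PG.cnt m 0 V := lt_of_lt_of_le h3 h1
  have h5 : 0 < Pool.Agent.W93.PG.cnt m 0 V := by exact_mod_cast h4
  unfold Pool.Agent.W93.PG.cnt at h5
  rw [card_pos] at h5
  obtain ⟨p, hp⟩ := h5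
  rw [mem_filter, mem_Ioc] at hp
  refine ⟨p, hp.2.1, hp.2.2, ?_⟩
  rw [← hL]
  have : (p : ℝ) ≤ V := by exact_mod_cast hp.1.2
  linarith

/-- at least an eighth of the expected number in all windows of `[0, n]` which are not too short -/
def LowT (W n : ℕ) : Prop :=
  ∀ U V : ℕ, U < V → V ≤ n → (n : ℝ) / Real.log n ^ W ≤ (V : ℝ) - U →
    1 / 8 * (sing (2 * n) * (((V : ℝ) - U) / Real.log (2 * n) ^ 2)) ≤
      ((Ioc U V).filter (fun p => p.Prime ∧ (2 * n - p).Prime)).card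

theorem lowT_of (W : ℕ) : ∃ m₀ : ℕ, ∀ m : ℕ, m₀ ≤ m → 2 ∣ m → WinM (W + 1) m → LowT W (m / 2) := by
  refine ⟨16, fun m hm h2 hw => ?_⟩
  obtain ⟨n, rfl⟩ := h2
  have hn2 : 2 * n / 2 = n := by omega
  rw [hn2]
  intro U V hUV hVn hlen
  have hn8 : (8 : ℝ) ≤ n := by exact_mod_cast (by omega : 8 ≤ n)
  have hn0 : (0 : ℝ) < n := by linarith
  have hcast : ((2 * n : ℕ) : ℝ) = 2 * (n : ℝ) := by push_cast; ring
  have hl2 : 2 ≤ Real.log (2 * (n : ℝ)) := by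
    rw [Real.le_log_iff_exp_le (by linarith)]
    have h1 : Real.exp 2 = Real.exp 1 * Real.exp 1 := by rw [← Real.exp_add]; norm_num
    have h2 := Real.exp_one_lt_d9
    have h3 := Real.exp_pos 1
    nlinarith
  have hl1 : 1 ≤ Real.log (n : ℝ) := by
    rw [Real.le_log_iff_exp_le hn0]
    linarith [Real.exp_one_lt_d9]
  have hle : Real.log (n : ℝ) ≤ Real.log (2 * (n : ℝ)) := Real.log_le_log hn0 (by linarith)
  have h1 : ((2 * n : ℕ) : ℝ) / Real.log ((2 * n : ℕ) : ℝ) ^ (W + 1) ≤ (V : ℝ) - U := by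
    refine le_trans ?_ hlen
    rw [hcast, div_le_div_iff₀ (by positivity) (by positivity)]
    calc 2 * (n : ℝ) * Real.log n ^ W ≤ Real.log (2 * (n : ℝ)) * n * Real.log (2 * (n : ℝ)) ^ W := by gcongr
      _ = n * Real.log (2 * (n : ℝ)) ^ (W + 1) := by ring
  have h2 := hw U V hUV (by omega) h1
  rw [hcast] at h2
  refine le_trans (le_of_eq ?_) h2
  ring

/-- from `2 n` to `n` -/
theorem halve_base (F : ℕ → Prop) {ρ : ℝ} (hρ : 0 < ρ) (A : ℕ)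
    (h : Base (fun x q a => (q : ℝ) ≤ x ^ (4 / 5 - ρ / 2) → (evenExc (fun m => F (m / 2)) x q a).Finite ∧
      ((evenExc (fun m => F (m / 2)) x q a).ncard : ℝ) ≤ x / (q * Real.log x ^ A))) :
    Base (fun x q a => (q : ℝ) ≤ x ^ (4 / 5 - ρ) → (allExc F x q a).Finite ∧
      ((allExc F x q a).ncard : ℝ) ≤ x / (q * Real.log x ^ A)) := by
  obtain ⟨c, h⟩ := h
  refine ⟨2 * c, fun B => ?_⟩
  obtain ⟨x₀, h⟩ := h (B + 1)
  obtain ⟨x₁, hx₁⟩ : ∃ x₁ : ℝ, ∀ x : ℝ, x₁ ≤ x → 4 ≤ x ^ (ρ / 2) := by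
    have h := (tendsto_rpow_atTop (show (0 : ℝ) < ρ / 2 by linarith)).eventually_ge_atTop (4 : ℝ)
    exact Filter.eventually_atTop.1 h
  refine ⟨max (max x₀ x₁) (Real.exp 8), fun x hx => ?_⟩
  have hxa : x₀ ≤ x := (le_max_left _ _).trans ((le_max_left _ _).trans hx)
  have hxb := hx₁ x ((le_max_right _ _).trans ((le_max_left _ _).trans hx))
  have hx8 : Real.exp 8 ≤ x := (le_max_right _ _).trans hx
  have hx0 : 0 < x := lt_of_lt_of_le (Real.exp_pos _) hx8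
  have hl8 : 8 ≤ Real.log x := by rw [Real.le_log_iff_exp_le hx0]; exact hx8
  have hl2 : Real.log x ≤ Real.log (2 * x) := Real.log_le_log hx0 (by linarith)
  have hl2' : Real.log (2 * x) ≤ Real.log x ^ 2 := by
    rw [Real.log_mul (by norm_num) hx0.ne']
    have := Real.log_two_lt_d9
    nlinarith
  obtain ⟨D, hD1, hD2, h⟩ := h (2 * x) (by linarith)
  have hDpos : ∀ d ∈ D, 1 ≤ d := by
    intro d hd
    by_contra hcon
    have hd0 : d = 0 := by omega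
    have h3 := hD2 d hd
    have h4 : (1 : ℝ) ≤ Real.log (2 * x) ^ (B + 1) := one_le_pow₀ (by linarith)
    have h5 : rad d = 1 := by rw [hd0]; simp [rad]
    rw [h5, Nat.cast_one] at h3
    linarith
  refine ⟨D.image (fun d => if 2 ∣ d then d / 2 else d), ?_, ?_, fun q hq a hqD hqx => ?_⟩
  · have h3 : ((D.image (fun d => if 2 ∣ d then d / 2 else d)).card : ℝ) ≤ D.card := by exact_mod_cast card_image_le
    refine h3.trans (hD1.trans ?_)
    rw [pow_mul]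
    exact pow_le_pow_left₀ (by linarith) hl2' c
  · intro d hd
    rw [mem_image] at hd
    obtain ⟨e, he, rfl⟩ := hd
    have h3 := hD2 e he
    have h4 : (rad e : ℝ) ≤ 2 * rad (if 2 ∣ e then e / 2 else e) := by exact_mod_cast halve_rad (hDpos e he)
    have h5 : 2 * Real.log x ^ B ≤ Real.log (2 * x) ^ (B + 1) := by
      calc 2 * Real.log x ^ B ≤ Real.log x * Real.log x ^ B := by gcongr; linarith
        _ = Real.log x ^ (B + 1) := by ring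
        _ ≤ _ := pow_le_pow_left₀ (by linarith) hl2 _
    linarith
  have hq0 : (0 : ℝ) < q := by exact_mod_cast hq
  have hq2 : ((2 * q : ℕ) : ℝ) ≤ (2 * x) ^ (4 / 5 - ρ / 2) := by
    push_cast
    have e1 : x ^ (4 / 5 - ρ / 2) = x ^ (4 / 5 - ρ) * x ^ (ρ / 2) := by
      rw [← Real.rpow_add hx0]; congr 1; ring
    have e0 : 0 ≤ x ^ (4 / 5 - ρ) := by positivity
    rcases le_or_gt 0 (4 / 5 - ρ / 2) with hc | hc
    · have e2 : x ^ (4 / 5 - ρ / 2) ≤ (2 * x) ^ (4 / 5 - ρ / 2) :=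
        Real.rpow_le_rpow hx0.le (by linarith) hc
      nlinarith
    · exfalso
      have e3 : x ^ (4 / 5 - ρ) ≤ x ^ (0 : ℝ) :=
        Real.rpow_le_rpow_of_exponent_le (by linarith [Real.add_one_le_exp (8 : ℝ)]) (by linarith)
      have e4 : x ^ (4 / 5 - ρ / 2) ≤ x ^ (0 : ℝ) :=
        Real.rpow_le_rpow_of_exponent_le (by linarith [Real.add_one_le_exp (8 : ℝ)]) hc.le
      rw [Real.rpow_zero] at e3 e4
      have e5 : (1 : ℝ) ≤ q := by exact_mod_cast hq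
      nlinarith
  obtain ⟨b, hb, hbg⟩ : ∃ b : ℕ, (b : ℤ) = a % q ∧ Nat.gcd b q = Int.gcd a q :=
    ⟨(a % q).toNat, Int.toNat_of_nonneg (Int.emod_nonneg _ (by omega)), gcd_toNatU q a hq⟩
  have hgcd : ∀ d ∈ D, ¬ d ∣ Int.gcd (2 * a) ((2 * q : ℕ) : ℤ) := by
    intro d hd
    have h3 := halve (D := D) (a := b) (q := q) (fun d hd => by rw [hbg]; exact hqD d hd) d hd
    have h4 : Int.gcd (2 * a) ((2 * q : ℕ) : ℤ) = Nat.gcd (2 * b) (2 * q) := by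
      rw [Nat.gcd_mul_left, hbg]
      push_cast
      rw [Int.gcd_mul_left]
      rfl
    rw [h4]
    exact h3
  obtain ⟨f1, f2⟩ := h (2 * q) (by omega) (2 * a) hgcd hq2
  obtain ⟨S, hS⟩ : ∃ S : Set ℕ, S = evenExc (fun m => F (m / 2)) (2 * x) (2 * q) (2 * a) := ⟨_, rfl⟩
  rw [← hS] at f1 f2
  have hmaps : ∀ n ∈ allExc F x q a, 2 * n ∈ S := by
    rintro n ⟨e1, e2, e3, e4⟩
    rw [hS]
    refine ⟨by omega, ?_, ⟨n, rfl⟩, ?_, ?_⟩
    · push_cast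
      linarith
    · push_cast
      exact Int.ModEq.mul_left' e3
    · have e5 : 2 * n / 2 = n := by omega
      simp only [e5]
      exact e4
  have hinj : Set.InjOn (fun n : ℕ => 2 * n) (allExc F x q a) := by
    intro n _ n' _ h
    have : 2 * n = 2 * n' := h
    omega
  have hfin : (allExc F x q a).Finite := Set.Finite.of_injOn (fun n hn => hmaps n hn) hinj f1
  refine ⟨hfin, ?_⟩
  have h1 : (allExc F x q a).ncard ≤ S.ncard :=
    Set.ncard_le_ncard_of_injOn (fun n : ℕ => 2 * n) hmaps hinj f1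
  have h2 : ((allExc F x q a).ncard : ℝ) ≤ (S.ncard : ℝ) := by exact_mod_cast h1
  refine h2.trans (f2.trans ?_)
  push_cast
  rw [mul_assoc 2 (q : ℝ), mul_div_mul_left _ _ (two_ne_zero)]
  apply div_le_div_of_nonneg_left hx0.le (by positivity)
  exact mul_le_mul_of_nonneg_left (pow_le_pow_left₀ (by linarith) hl2 A) hq0.le

theorem lowP_base {ρ : ℝ} (hρ : 0 < ρ) (W A : ℕ) : Base (fun x q a => (q : ℝ) ≤ x ^ (4 / 5 - ρ) →
    (evenExc (LowP W) x q a).Finite ∧ ((evenExc (LowP W) x q a).ncard : ℝ) ≤ x / (q * Real.log x ^ A)) :=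
  fru_base (LowP W) (W + 1) (lowP_of W) hρ A

theorem lowT_base {ρ : ℝ} (hρ : 0 < ρ) (W A : ℕ) : Base (fun x q a => (q : ℝ) ≤ x ^ (4 / 5 - ρ) →
    (allExc (LowT W) x q a).Finite ∧ ((allExc (LowT W) x q a).ncard : ℝ) ≤ x / (q * Real.log x ^ A)) :=
  halve_base (LowT W) hρ A (fru_base (fun m => LowT W (m / 2)) (W + 1) (lowT_of W) (by positivity) A)

end Pool.Agent.H567.PP
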