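import Pool.Agent.H567.PP.Hard4

/-!
Project PP (helper567): the interval from the square root to four times the square root, and all its parts.
-/

set_option autoImplicit false

namespace Pool.Agent.H567.PP

open Finset Filter
open Pool.Agent.H567.HW
open Pool.Agent.Y614.GJ.Core (ev_log)

/-- all windows which end beyond the square root -/
def Sub (ε : ℝ) (W n : ℕ) : Prop :=
  ∀ U V : ℕ, U ≤ V → Real.sqrt n ≤ V → 2 * V ≤ n → (V : ℝ) / Real.log n ^ W ≤ (V : ℝ) - U →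
    |(wc n U V : ℝ) - SS n * (((V : ℝ) - U) / (Real.log V * Real.log n))| ≤
      ε * (SS n * (((V : ℝ) - U) / (Real.log V * Real.log n)))

/-- the interval and its parts, natural `x` -/
theorem b58SU {ρ ε : ℝ} (hρ : 0 < ρ) (hρ2 : ρ ≤ 1 / 6) (hε : 0 < ε) (W A : ℕ) :
    DStmU (fun q n => FormI ε q n ∧ Sub ε W n) A (1 / 6 - ρ / 2) := by
  have hρ4 : 0 < ρ / 4 := by positivity
  have hρ22 : 0 < ρ / 2 := by positivity
  obtain ⟨e, he⟩ : ∃ e, e = min (ε / 3) 1 := ⟨_, rfl⟩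
  have he0 : 0 < e := by rw [he]; exact lt_min (by linarith) one_pos
  have he1 : e ≤ 1 := by rw [he]; exact min_le_right _ _
  have heε : e ≤ ε / 3 := by rw [he]; exact min_le_left _ _
  obtain ⟨c, hc⟩ := bigU A (W + 1) hρ4 he0 hρ22
  refine ⟨c, fun A₀ => ?_⟩
  obtain ⟨x₁, h₁⟩ := hc A₀
  obtain ⟨n₂, h₂⟩ := eventually_atTop.1 (int_main he0)
  obtain ⟨n₃, h₃⟩ := Filter.eventually_atTop.1 (ev_log 1 (s := 1) (by norm_num) 8)
  obtain ⟨m, hm⟩ : ∃ m, m = max (max n₂ n₃) 65 := ⟨_, rfl⟩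
  refine ⟨max x₁ (m ^ 2), fun x hx => ?_⟩
  have hxx₁ : x₁ ≤ x := le_trans (le_max_left _ _) hx
  have hxm : m ^ 2 ≤ x := le_trans (le_max_right _ _) hx
  have hm65 : 65 ≤ m := by rw [hm]; exact le_max_right _ _
  have hx1 : 1 ≤ x := le_trans (Nat.one_le_pow _ _ (by omega)) hxm
  have hx0 : (0 : ℝ) < x := by exact_mod_cast hx1
  have hxr1 : (1 : ℝ) ≤ x := by exact_mod_cast hx1
  obtain ⟨D, hD1, hD2, hD3⟩ := h₁ x hxx₁
  refine ⟨D, hD1, hD2, fun q hq hqx a hqD => ?_⟩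
  have hqx' : (q : ℝ) ≤ (x : ℝ) ^ (2 / 3 : ℝ) :=
    hqx.trans (Real.rpow_le_rpow_of_exponent_le hxr1 (by linarith))
  obtain ⟨B, hb1, hb2⟩ := hD3 q hq hqx' a hqD
  refine ⟨B, hb1, fun n h0 hnx hn hmod h2n => ?_⟩
  obtain ⟨hbig, hR⟩ := hb2 n h0 hnx hn hmod h2n
  have hn0 : (0 : ℝ) < n := by exact_mod_cast h0
  have hn1r : (1 : ℝ) ≤ n := by exact_mod_cast h0
  have hmn : m ≤ n := by
    have h1 : (m : ℝ) ≤ n := by
      have h2 : (m : ℝ) ^ 2 ≤ x := by exact_mod_cast hxm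
      calc (m : ℝ) = ((m : ℝ) ^ 2) ^ (1 / 2 : ℝ) := by
            rw [← Real.sqrt_eq_rpow, Real.sqrt_sq (Nat.cast_nonneg _)]
        _ ≤ (x : ℝ) ^ (1 / 2 : ℝ) := Real.rpow_le_rpow (by positivity) h2 (by norm_num)
        _ ≤ (x : ℝ) ^ (1 - ρ / 2) := Real.rpow_le_rpow_of_exponent_le hxr1 (by linarith)
        _ ≤ n := hbig.le
    exact_mod_cast h1
  have hn2 : n₂ ≤ n := le_trans (by rw [hm]; exact le_trans (le_max_left _ _) (le_max_left _ _)) hmn
  have hn3 : n₃ ≤ n := le_trans (by rw [hm]; exact le_trans (le_max_right _ _) (le_max_left _ _)) hmn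
  have hn64 : 64 < n := by omega
  obtain ⟨hl8, -⟩ := h₃ n hn3
  obtain ⟨s, hs⟩ : ∃ s, s = Real.sqrt n := ⟨_, rfl⟩
  have hnr64 : (64 : ℝ) < n := by exact_mod_cast hn64
  have hs8 : 8 < s := by
    rw [hs, show (8 : ℝ) = Real.sqrt 64 by
      rw [show (64 : ℝ) = 8 ^ 2 by norm_num]; exact (Real.sqrt_sq (by norm_num)).symm]
    exact Real.sqrt_lt_sqrt (by norm_num) hnr64
  have hss : s * s = n := by rw [hs]; exact Real.mul_self_sqrt hn0.le
  obtain ⟨U, hU⟩ : ∃ U, U = Nat.sqrt n := ⟨_, rfl⟩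
  obtain ⟨V, hV⟩ : ∃ V, V = ⌈4 * Real.sqrt n⌉₊ - 1 := ⟨_, rfl⟩
  have hU2 : (U : ℝ) ≤ s := by
    rw [hU, hs]
    exact Real.nat_sqrt_le_real_sqrt
  have hU1 : s - 1 ≤ U := by
    have := Real.real_sqrt_lt_nat_sqrt_succ (a := n)
    rw [← hU, ← hs] at this
    linarith
  have hceil : 1 ≤ ⌈4 * Real.sqrt n⌉₊ := by
    rw [Nat.one_le_ceil_iff]
    rw [← hs]
    linarith
  have hV2 : (V : ℝ) ≤ 4 * s := by
    rw [hV, Nat.cast_sub hceil, ← hs]
    have : (⌈4 * s⌉₊ : ℝ) < 4 * s + 1 := Nat.ceil_lt_add_one (by linarith)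
    push_cast
    linarith
  have hV1 : 4 * s - 1 ≤ V := by
    rw [hV, Nat.cast_sub hceil, ← hs]
    have : 4 * s ≤ (⌈4 * s⌉₊ : ℝ) := Nat.le_ceil _
    push_cast
    linarith
  have hUV : U ≤ V := by
    have : (U : ℝ) ≤ V := by linarith
    exact_mod_cast this
  have hV0 : 0 < V := by
    have : (0 : ℝ) < V := by linarith
    exact_mod_cast this
  have h2V : 2 * V ≤ n := by
    have : 2 * (V : ℝ) ≤ n := by nlinarith
    exact_mod_cast this
  have hqs : (q : ℝ) * (n : ℝ) ^ (1 / 3 + ρ / 4) ≤ s := by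
    have h1 : (q : ℝ) ≤ (n : ℝ) ^ (1 / 6 - ρ / 4) := by
      calc (q : ℝ) ≤ (x : ℝ) ^ (1 / 6 - ρ / 2) := hqx
        _ ≤ (x : ℝ) ^ ((1 - ρ / 2) * (1 / 6 - ρ / 4)) := by
            apply Real.rpow_le_rpow_of_exponent_le hxr1
            have e1 : (1 - ρ / 2) * (1 / 6 - ρ / 4) - (1 / 6 - ρ / 2) = ρ / 6 + ρ ^ 2 / 8 := by ring
            have : 0 ≤ ρ / 6 + ρ ^ 2 / 8 := by positivity
            linarith
        _ = ((x : ℝ) ^ (1 - ρ / 2)) ^ (1 / 6 - ρ / 4) := by rw [Real.rpow_mul hx0.le]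
        _ ≤ (n : ℝ) ^ (1 / 6 - ρ / 4) := Real.rpow_le_rpow (by positivity) hbig.le (by linarith)
    calc (q : ℝ) * (n : ℝ) ^ (1 / 3 + ρ / 4) ≤ (n : ℝ) ^ (1 / 6 - ρ / 4) * (n : ℝ) ^ (1 / 3 + ρ / 4) := by gcongr
      _ = s := by
          rw [← Real.rpow_add hn0, hs, Real.sqrt_eq_rpow]
          congr 1
          ring
  have hqV : (q : ℝ) * (n : ℝ) ^ (1 / 3 + ρ / 4) ≤ V := hqs.trans (by linarith)
  have hl1 : 1 ≤ Real.log n := by linarith
  have hwin : (V : ℝ) / Real.log n ^ (W + 1) ≤ (V : ℝ) - U := by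
    have h1 : (V : ℝ) / Real.log n ^ (W + 1) ≤ (V : ℝ) / Real.log n := by
      apply div_le_div_of_nonneg_left (Nat.cast_nonneg _) (by linarith)
      exact le_self_pow₀ hl1 (by omega)
    refine h1.trans ?_
    rw [div_le_iff₀ (by linarith)]
    nlinarith
  have hf := hR U V hUV hqV h2V hV0 hwin
  have hm2 := h₂ n hn2 U V (by rw [← hs]; exact hU1) (by rw [← hs]; exact hU2) (by rw [← hs]; exact hV1)
    (by rw [← hs]; exact hV2)
  have hSS := one_le_SS n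
  refine ⟨?_, ?_⟩
  swap
  · intro U' V' hUV' hV' h2V' hw'
    have hV0' : 0 < V' := by
      have h1 : 0 < Real.sqrt n := by rw [← hs]; linarith
      have : (0 : ℝ) < V' := by linarith
      exact_mod_cast this
    have hw2 : (V' : ℝ) / Real.log n ^ (W + 1) ≤ (V' : ℝ) - U' := by
      refine le_trans ?_ hw'
      apply div_le_div_of_nonneg_left (Nat.cast_nonneg _) (by positivity)
      exact pow_le_pow_right₀ hl1 (by omega)
    refine (hR U' V' hUV' (hqs.trans (by rw [hs]; exact hV')) h2V' hV0' hw2).trans ?_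
    apply mul_le_mul_of_nonneg_right (by linarith)
    have h2 : 0 ≤ (V' : ℝ) - U' := by
      have : (U' : ℝ) ≤ V' := by exact_mod_cast hUV'
      linarith
    have h3 : 0 ≤ Real.log (V' : ℝ) := Real.log_natCast_nonneg V'
    positivity
  unfold FormI
  have hcard : (ints n).ncard = wc n U V := by
    rw [ints_eq hn64, Set.ncard_coe_finset, ← hU, ← hV]
    rfl
  rw [hcard]
  have h3 : |SS n * (((V : ℝ) - U) / (Real.log V * Real.log n)) - 6 * (SS n * (Real.sqrt n / Real.log n ^ 2))| ≤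
      e * (6 * (SS n * (Real.sqrt n / Real.log n ^ 2))) := by
    have e1 : SS n * (((V : ℝ) - U) / (Real.log V * Real.log n)) - 6 * (SS n * (Real.sqrt n / Real.log n ^ 2)) =
        SS n * ((((V : ℝ) - U) / (Real.log V * Real.log n)) - 6 * (Real.sqrt n / Real.log n ^ 2)) := by ring
    rw [e1, abs_mul, abs_of_pos (by linarith : (0 : ℝ) < SS n)]
    calc SS n * |((V : ℝ) - U) / (Real.log V * Real.log n) - 6 * (Real.sqrt n / Real.log n ^ 2)| ≤
        SS n * (e * (6 * (Real.sqrt n / Real.log n ^ 2))) := mul_le_mul_of_nonneg_left hm2 (by linarith)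
      _ = _ := by ring
  have hz : 0 ≤ 6 * (SS n * (Real.sqrt n / Real.log n ^ 2)) := by positivity
  refine (rel_two he0.le he1 hz hf h3).trans ?_
  apply mul_le_mul_of_nonneg_right _ hz
  linarith

/-- the interval and its parts, real `x` -/
theorem b58S_base {ρ ε : ℝ} (hρ : 0 < ρ) (hε : 0 < ε) (W A : ℕ) : Base (fun x q a => (q : ℝ) ≤ x ^ (1 / 6 - ρ) →
    (excD (fun q n => FormI ε q n ∧ Sub ε W n) x q a).Finite ∧
      ((excD (fun q n => FormI ε q n ∧ Sub ε W n) x q a).ncard : ℝ) ≤ x / (q * Real.log x ^ A)) := by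
  by_cases hρ2 : ρ ≤ 1 / 6
  · obtain ⟨c, h⟩ := transferDU _ (θ := 1 / 6 - ρ / 2) (η := 1 / 6 - ρ) (by linarith) (by linarith) A
      (b58SU hρ hρ2 hε W (A + 1))
    refine ⟨c, fun A₀ => ?_⟩
    obtain ⟨x₀, h⟩ := h A₀
    refine ⟨x₀, fun x hx => ?_⟩
    obtain ⟨D, h1, h2, h3⟩ := h x hx
    exact ⟨D, h1, h2, fun q hq a ha hqx => h3 q hq hqx a ha⟩
  · push Not at hρ2
    refine ⟨0, fun A₀ => ⟨2, fun x hx => ⟨∅, by simp, by simp, fun q hq a _ hqx => ?_⟩⟩⟩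
    exfalso
    have h1 : x ^ (1 / 6 - ρ) < 1 := Real.rpow_lt_one_of_one_lt_of_neg (by linarith) (by linarith)
    have h2 : (1 : ℝ) ≤ q := by exact_mod_cast hq
    linarith

end Pool.Agent.H567.PP
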