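import Pool.Agent.H567.PP.Hard4
import Pool.Graph.R_seed8.W93.PG7

/-!
Project PP (helper567): from the windows of the first half to all windows.
-/

set_option autoImplicit false

namespace Pool.Agent.H567.PP

open Finset Filter
open Pool.Agent.H567.HW
open Pool.Agent.H560R3.GB (sing)
open Pool.Agent.W93.PG (cnt WinP)
open Pool.Agent.Y614.GJ.Core (ev_log)

lemma wc_mono {n U V U' V' : ℕ} (hU : U' ≤ U) (hV : V ≤ V') : wc n U V ≤ wc n U' V' := by
  unfold wc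
  exact card_le_card (filter_subset_filter _ (Ioc_subset_Ioc hU hV))

lemma wc_add (n : ℕ) {U V W : ℕ} (h1 : U ≤ V) (h2 : V ≤ W) : wc n U W = wc n U V + wc n V W := by
  unfold wc
  rw [← Ioc_union_Ioc_eq_Ioc h1 h2, filter_union, card_union_of_disjoint]
  apply disjoint_filter_filter
  rw [Finset.disjoint_left]
  intro a ha hb
  rw [mem_Ioc] at ha hb
  omega

/-- reflection -/
lemma wc_refl {m a b : ℕ} (hb : b ≤ m) : wc m a b = wc m (m - b - 1) (m - a - 1) := by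
  unfold wc
  refine card_bij (fun p _ => m - p) ?_ ?_ ?_
  · intro p hp
    rw [mem_filter, mem_Ioc] at hp
    obtain ⟨⟨h1, h2⟩, h3, h4⟩ := hp
    have h5 := h4.pos
    have h6 := h3.pos
    rw [mem_filter, mem_Ioc]
    refine ⟨⟨by omega, by omega⟩, h4, ?_⟩
    have : m - (m - p) = p := by omega
    rwa [this]
  · intro p hp p' hp' h
    rw [mem_filter, mem_Ioc] at hp hp'
    omega
  · intro p hp
    rw [mem_filter, mem_Ioc] at hp
    obtain ⟨⟨h1, h2⟩, h3, h4⟩ := hp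
    have h5 := h4.pos
    have h6 := h3.pos
    refine ⟨m - p, ?_, by omega⟩
    rw [mem_filter, mem_Ioc]
    refine ⟨⟨by omega, by omega⟩, h4, ?_⟩
    have : m - (m - p) = p := by omega
    rwa [this]

/-- one window of the first half -/
lemma one_side {m : ℕ} {e s L δ : ℝ} {h : ℕ} (he : 0 ≤ e) (he1 : e ≤ 1) (hs : 0 ≤ s) (hδ1 : 1 ≤ δ) (hδh : δ + 1 ≤ h)
    (_hL : L = Real.log m)
    (hR : ∀ U V : ℕ, U ≤ V → V ≤ h → δ ≤ (V : ℝ) - U → |(wc m U V : ℝ) - s * ((V : ℝ) - U)| ≤ e * (s * ((V : ℝ) - U)))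
    {U V : ℕ} (hUV : U ≤ V) (hV : V ≤ h) :
    |(wc m U V : ℝ) - s * ((V : ℝ) - U)| ≤ e * (s * ((V : ℝ) - U)) + 4 * (s * δ) := by
  have hUVr : (U : ℝ) ≤ V := by exact_mod_cast hUV
  have h0 : 0 ≤ s * ((V : ℝ) - U) := mul_nonneg hs (by linarith)
  have h1 : 0 ≤ s * δ := mul_nonneg hs (by linarith)
  rcases le_or_gt δ ((V : ℝ) - U) with hc | hc
  · have := hR U V hUV hV hc
    linarith
  · -- a short window is contained in a window of length `⌈δ⌉`
    obtain ⟨k, hk⟩ : ∃ k : ℕ, k = ⌈δ⌉₊ := ⟨_, rfl⟩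
    have hk1 : δ ≤ k := by rw [hk]; exact Nat.le_ceil δ
    have hk2 : (k : ℝ) < δ + 1 := by rw [hk]; exact Nat.ceil_lt_add_one (by linarith)
    have hkh : k ≤ h := by
      have : (k : ℝ) ≤ h := by linarith
      exact_mod_cast this
    have hbound : (wc m U V : ℝ) ≤ 4 * (s * δ) := by
      have key : ∀ U' V' : ℕ, U' ≤ U → V ≤ V' → V' ≤ h → V' = U' + k → (wc m U V : ℝ) ≤ 4 * (s * δ) := by
        intro U' V' hU' hV' hV'h hVk
        have h2 : ((V' : ℝ) - U') = k := by rw [hVk]; push_cast; ring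
        have h3 := hR U' V' (by omega) hV'h (by rw [h2]; exact hk1)
        rw [h2] at h3
        have h4 := (abs_le.1 h3).2
        have h5 : (wc m U V : ℝ) ≤ wc m U' V' := by exact_mod_cast wc_mono hU' hV'
        have h6 : s * k ≤ s * (2 * δ) := mul_le_mul_of_nonneg_left (by linarith) hs
        have h7 : 0 ≤ s * k := by positivity
        have h8 : e * (s * k) ≤ 1 * (s * k) := mul_le_mul_of_nonneg_right he1 h7
        linarith
      have hlen : V < U + k := by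
        have : (V : ℝ) < U + k := by linarith
        exact_mod_cast this
      rcases le_or_gt k V with hkV | hkV
      · exact key (V - k) V (by omega) le_rfl hV (by omega)
      · exact key 0 k (Nat.zero_le _) hkV.le hkh (by omega)
    have h2 : s * ((V : ℝ) - U) ≤ s * δ := mul_le_mul_of_nonneg_left hc.le hs
    have h3 : (0 : ℝ) ≤ wc m U V := Nat.cast_nonneg _
    have h4 : 0 ≤ e * (s * ((V : ℝ) - U)) := mul_nonneg he h0
    rw [abs_le]
    constructor <;> linarith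

/-- all windows -/
lemma two_sides {m : ℕ} {e s L δ : ℝ} (he : 0 ≤ e) (he1 : e ≤ 1) (hs : 0 ≤ s) (hδ1 : 1 ≤ δ)
    (hδh : δ + 1 ≤ ((m / 2 : ℕ) : ℝ)) (hm : 2 ∣ m) (hL : L = Real.log m)
    (hR : ∀ U V : ℕ, U ≤ V → V ≤ m / 2 → δ ≤ (V : ℝ) - U → |(wc m U V : ℝ) - s * ((V : ℝ) - U)| ≤ e * (s * ((V : ℝ) - U)))
    {U V : ℕ} (hUV : U < V) (hV : V ≤ m) :
    |(wc m U V : ℝ) - s * ((V : ℝ) - U)| ≤ e * (s * ((V : ℝ) - U)) + 9 * (s * δ) := by
  obtain ⟨h, hh⟩ : ∃ h, h = m / 2 := ⟨_, rfl⟩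
  rw [← hh] at hR hδh
  have hm2 : m = 2 * h := by omega
  have hsδ : 0 ≤ s * δ := mul_nonneg hs (by linarith)
  have hsδ1 : s ≤ s * δ := le_mul_of_one_le_right hs hδ1
  have hone : ∀ U V : ℕ, U ≤ V → V ≤ h → |(wc m U V : ℝ) - s * ((V : ℝ) - U)| ≤ e * (s * ((V : ℝ) - U)) + 4 * (s * δ) :=
    fun U V h1 h2 => one_side he he1 hs hδ1 hδh hL hR h1 h2
  -- the second half
  have htwo : ∀ U V : ℕ, U ≤ V → h ≤ U → V ≤ m →
      |(wc m U V : ℝ) - s * ((V : ℝ) - U)| ≤ e * (s * ((V : ℝ) - U)) + 5 * (s * δ) := by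
    intro U V h1 h2 h3
    have hUVr : (U : ℝ) ≤ V := by exact_mod_cast h1
    rcases Nat.eq_or_lt_of_le h1 with h1' | h1'
    · rw [h1']
      have : wc m V V = 0 := by unfold wc; simp
      rw [this]
      simp only [Nat.cast_zero, sub_self, mul_zero, abs_zero]
      linarith
    rw [wc_refl h3]
    have h4 := hone (m - V - 1) (m - U - 1) (by omega) (by omega)
    obtain ⟨t, ht⟩ : ∃ t : ℕ, m - U - 1 = m - V - 1 + t := ⟨m - U - 1 - (m - V - 1), by omega⟩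
    have ht1 : t ≤ V - U := by omega
    have ht2 : V - U ≤ t + 1 := by omega
    have e1 : ((m - U - 1 : ℕ) : ℝ) - ((m - V - 1 : ℕ) : ℝ) = t := by rw [ht]; push_cast; ring
    rw [e1] at h4
    have e2 : (t : ℝ) ≤ (V : ℝ) - U := by
      have : (t : ℝ) ≤ ((V - U : ℕ) : ℝ) := by exact_mod_cast ht1
      rwa [Nat.cast_sub h1] at this
    have e3 : (V : ℝ) - U ≤ t + 1 := by
      have : ((V - U : ℕ) : ℝ) ≤ ((t + 1 : ℕ) : ℝ) := by exact_mod_cast ht2
      rw [Nat.cast_sub h1] at this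
      push_cast at this
      exact this
    have e4 : s * t ≤ s * ((V : ℝ) - U) := mul_le_mul_of_nonneg_left e2 hs
    have e5 : s * ((V : ℝ) - U) ≤ s * t + s := by
      calc s * ((V : ℝ) - U) ≤ s * (t + 1) := mul_le_mul_of_nonneg_left e3 hs
        _ = s * t + s := by ring
    have e6 : e * (s * t) ≤ e * (s * ((V : ℝ) - U)) := mul_le_mul_of_nonneg_left e4 he
    rw [abs_le] at h4 ⊢
    constructor <;> linarith [h4.1, h4.2]
  rcases le_or_gt V h with hVh | hVh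
  · have := hone U V hUV.le hVh
    linarith
  rcases le_or_gt h U with hUh | hUh
  · have := htwo U V hUV.le hUh hV
    linarith
  · have h1 := hone U h hUh.le le_rfl
    have h2 := htwo h V hVh.le le_rfl hV
    have h3 := wc_add m hUh.le hVh.le
    rw [h3]
    push_cast
    have e1 : s * ((V : ℝ) - U) = s * ((h : ℝ) - U) + s * ((V : ℝ) - h) := by ring
    rw [e1]
    rw [abs_le] at h1 h2 ⊢
    constructor <;> linarith [h1.1, h1.2, h2.1, h2.2]

/-- from the windows of the first half, with the precise weights, to all windows which are not too short -/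
theorem winP_of {e : ℝ} (he : 0 < e) (A : ℕ) {r : ℝ} (hr : 0 < r) : ∃ m₀ : ℕ, ∀ m : ℕ, m₀ ≤ m → 2 ∣ m → ∀ (ρ : ℝ) (q : ℕ),
    (q : ℝ) * (m : ℝ) ^ (1 / 3 + ρ) ≤ (m : ℝ) ^ (1 - r) → FormR (min e 1 / 8) ρ (A + 3) q m → WinP e A m := by
  obtain ⟨ε, hε⟩ : ∃ ε, ε = min e 1 / 8 := ⟨_, rfl⟩
  have hmin : 0 < min e 1 := lt_min he one_pos
  have hε0 : 0 < ε := by rw [hε]; positivity
  have hε1 : 8 * ε ≤ 1 := by rw [hε]; have := min_le_right e 1; linarith
  have hεe : 8 * ε ≤ e := by rw [hε]; have := min_le_left e 1; linarith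
  obtain ⟨m₁, h₁⟩ := Filter.eventually_atTop.1 (ev_log (A + 3) (s := min r (ε / 2)) (by positivity) (max 8 (9 / ε)))
  obtain ⟨m₂, h₂⟩ := Filter.eventually_atTop.1 (ev_log (A + 4) (s := 1) (by norm_num) 8)
  refine ⟨max (max m₁ m₂) 16, fun m hm h2m ρ q hq hR => ?_⟩
  obtain ⟨hLm, hLp⟩ := h₁ m (le_trans (le_trans (le_max_left _ _) (le_max_left _ _)) hm)
  obtain ⟨hL8, hLp2⟩ := h₂ m (le_trans (le_trans (le_max_right _ _) (le_max_left _ _)) hm)
  have hm16 : 16 ≤ m := le_trans (le_max_right _ _) hm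
  rw [← hε] at hR
  obtain ⟨L, hL⟩ : ∃ L, L = Real.log m := ⟨_, rfl⟩
  rw [← hL] at hLm hLp hL8 hLp2
  have hL0 : 0 < L := by linarith
  have hL1 : 1 ≤ L := by linarith
  have hmr : (16 : ℝ) ≤ m := by exact_mod_cast hm16
  have hm0 : (0 : ℝ) < m := by linarith
  have hm1 : (1 : ℝ) ≤ m := by linarith
  rw [Real.rpow_one] at hLp2
  have hSS := one_le_SS m
  obtain ⟨s, hs⟩ : ∃ s, s = SS m / L ^ 2 := ⟨_, rfl⟩
  have hs0 : 0 < s := by rw [hs]; positivity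
  obtain ⟨δ, hδ⟩ : ∃ δ, δ = (m : ℝ) / L ^ (A + 3) := ⟨_, rfl⟩
  have hpr : L ^ (A + 3) ≤ (m : ℝ) ^ r := hLp.trans (Real.rpow_le_rpow_of_exponent_le hm1 (min_le_left _ _))
  have hpe : L ^ (A + 3) ≤ (m : ℝ) ^ (ε / 2) := hLp.trans (Real.rpow_le_rpow_of_exponent_le hm1 (min_le_right _ _))
  have hδr : (m : ℝ) ^ (1 - r) ≤ δ := by
    rw [hδ, le_div_iff₀ (by positivity)]
    calc (m : ℝ) ^ (1 - r) * L ^ (A + 3) ≤ (m : ℝ) ^ (1 - r) * (m : ℝ) ^ r := by gcongr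
      _ = m := by
          rw [← Real.rpow_add hm0]
          have : 1 - r + r = 1 := by ring
          rw [this, Real.rpow_one]
  have hδe : (m : ℝ) ^ (1 - ε / 2) ≤ δ := by
    rw [hδ, le_div_iff₀ (by positivity)]
    calc (m : ℝ) ^ (1 - ε / 2) * L ^ (A + 3) ≤ (m : ℝ) ^ (1 - ε / 2) * (m : ℝ) ^ (ε / 2) := by gcongr
      _ = m := by
          rw [← Real.rpow_add hm0]
          have : 1 - ε / 2 + ε / 2 = 1 := by ring
          rw [this, Real.rpow_one]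
  have hδ1 : 8 ≤ δ := by
    rw [hδ, le_div_iff₀ (by positivity)]
    calc 8 * L ^ (A + 3) ≤ L * L ^ (A + 3) := by gcongr
      _ = L ^ (A + 4) := by ring
      _ ≤ m := hLp2
  have hδm : δ ≤ m / 8 := by
    rw [hδ]
    apply div_le_div_of_nonneg_left hm0.le (by norm_num)
    calc (8 : ℝ) ≤ L := hL8
      _ ≤ L ^ (A + 3) := le_self_pow₀ hL1 (by omega)
  have hhalf : ((m / 2 : ℕ) : ℝ) = m / 2 := by
    rw [Nat.cast_div h2m (by norm_num)]
    norm_num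
  have hmain : ∀ U V : ℕ, U ≤ V → V ≤ m / 2 → δ ≤ (V : ℝ) - U →
      |(wc m U V : ℝ) - s * ((V : ℝ) - U)| ≤ (4 * ε) * (s * ((V : ℝ) - U)) := by
    intro U V hUV hV hd
    have hU0 : (0 : ℝ) ≤ U := Nat.cast_nonneg _
    have hVδ : δ ≤ V := by linarith
    have hV0r : (0 : ℝ) < V := by linarith
    have hV0 : 0 < V := by exact_mod_cast hV0r
    have hVm : (V : ℝ) ≤ m := by
      have : V ≤ m := by omega
      exact_mod_cast this
    have h1 := hR U V hUV (hq.trans (hδr.trans hVδ)) (by omega) hV0 (by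
      refine le_trans ?_ hd
      rw [← hL, hδ]
      gcongr)
    rw [← hL] at h1
    -- the logarithm
    have hv1 : (1 - ε / 2) * L ≤ Real.log V := by
      rw [hL, ← Real.log_rpow hm0]
      exact Real.log_le_log (by positivity) (hδe.trans hVδ)
    have hv2 : Real.log V ≤ L := by
      rw [hL]
      exact Real.log_le_log hV0r hVm
    obtain ⟨v, hv⟩ : ∃ v, v = Real.log (V : ℝ) := ⟨_, rfl⟩
    rw [← hv] at h1 hv1 hv2
    have hv0 : 0 < v := by
      have : 0 < (1 - ε / 2) * L := mul_pos (by linarith) hL0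
      linarith
    obtain ⟨T, hT⟩ : ∃ T : ℝ, T = (V : ℝ) - U := ⟨_, rfl⟩
    rw [← hT] at h1 hd ⊢
    have hT0 : 0 ≤ T := by linarith
    have e1 : s * T ≤ SS m * (T / (v * L)) := by
      rw [hs]
      have : SS m / L ^ 2 * T = SS m * (T / (L * L)) := by rw [sq]; ring
      rw [this]
      apply mul_le_mul_of_nonneg_left _ (by linarith)
      apply div_le_div_of_nonneg_left hT0 (by positivity)
      exact mul_le_mul_of_nonneg_right hv2 hL0.le
    have e2 : SS m * (T / (v * L)) ≤ (1 + ε) * (s * T) := by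
      have h3 : T / (v * L) ≤ (1 + ε) * (T / L ^ 2) := by
        rw [div_le_iff₀ (by positivity)]
        have h4 : (1 + ε) * (T / L ^ 2) * (v * L) = T * ((1 + ε) * v / L) := by
          field_simp
        rw [h4]
        apply le_mul_of_one_le_right hT0
        rw [le_div_iff₀ hL0, one_mul]
        have h5 : 1 ≤ (1 + ε) * (1 - ε / 2) := by nlinarith
        calc L ≤ ((1 + ε) * (1 - ε / 2)) * L := le_mul_of_one_le_left hL0.le h5
          _ = (1 + ε) * ((1 - ε / 2) * L) := by ring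
          _ ≤ (1 + ε) * v := mul_le_mul_of_nonneg_left hv1 (by linarith)
      calc SS m * (T / (v * L)) ≤ SS m * ((1 + ε) * (T / L ^ 2)) := mul_le_mul_of_nonneg_left h3 (by linarith)
        _ = (1 + ε) * (s * T) := by rw [hs]; ring
    have hsT : 0 ≤ s * T := mul_nonneg hs0.le hT0
    obtain ⟨M, hM⟩ : ∃ M, M = SS m * (T / (v * L)) := ⟨_, rfl⟩
    rw [← hM] at h1 e1 e2
    have e3 : ε * M ≤ ε * (2 * (s * T)) := mul_le_mul_of_nonneg_left (by nlinarith) hε0.le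
    rw [abs_le] at h1 ⊢
    constructor
    · nlinarith [h1.1]
    · nlinarith [h1.2]
  intro y₁ y₂ hy hy2 hlen
  have h3 := two_sides (e := 4 * ε) (s := s) (L := L) (δ := δ) (by linarith) (by linarith) hs0.le (by linarith)
    (by rw [hhalf]; linarith) h2m hL hmain hy hy2
  have hδA : δ * L ^ 3 = (m : ℝ) / L ^ A := by
    rw [hδ, pow_add]
    field_simp
  rw [← hL] at hlen
  have h9 : 9 * (s * δ) ≤ (4 * ε) * (s * ((y₂ : ℝ) - y₁)) := by
    have e1 : 9 ≤ ε * L := by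
      have : 9 / ε ≤ L := (le_max_right _ _).trans hLm
      rw [div_le_iff₀ hε0] at this
      linarith
    have e2 : 9 * δ ≤ (4 * ε) * ((y₂ : ℝ) - y₁) := by
      calc 9 * δ ≤ (ε * L) * δ := by gcongr
        _ ≤ (ε * L ^ 3) * δ := by
            have : L ≤ L ^ 3 := le_self_pow₀ hL1 (by norm_num)
            gcongr
        _ = ε * (δ * L ^ 3) := by ring
        _ = ε * ((m : ℝ) / L ^ A) := by rw [hδA]
        _ ≤ ε * ((y₂ : ℝ) - y₁) := mul_le_mul_of_nonneg_left hlen hε0.le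
        _ ≤ (4 * ε) * ((y₂ : ℝ) - y₁) := by
            have : 0 ≤ (y₂ : ℝ) - y₁ := by
              have : 0 ≤ (m : ℝ) / L ^ A := by positivity
              linarith
            nlinarith
    calc 9 * (s * δ) = s * (9 * δ) := by ring
      _ ≤ s * ((4 * ε) * ((y₂ : ℝ) - y₁)) := mul_le_mul_of_nonneg_left e2 hs0.le
      _ = _ := by ring
  have hy0 : 0 ≤ s * ((y₂ : ℝ) - y₁) := by
    have : (y₁ : ℝ) ≤ y₂ := by exact_mod_cast hy.le
    exact mul_nonneg hs0.le (by linarith)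
  have e5 : sing m * ((y₂ : ℝ) - y₁) / Real.log m ^ 2 = s * ((y₂ : ℝ) - y₁) := by
    rw [hs, ← hL]
    have : sing m = SS m := rfl
    rw [this]
    ring
  rw [e5]
  have e6 : (cnt m y₁ y₂ : ℝ) = wc m y₁ y₂ := rfl
  rw [e6]
  refine h3.trans ?_
  calc (4 * ε) * (s * ((y₂ : ℝ) - y₁)) + 9 * (s * δ) ≤ (4 * ε) * (s * ((y₂ : ℝ) - y₁)) + (4 * ε) * (s * ((y₂ : ℝ) - y₁)) := by
        linarith
    _ = (8 * ε) * (s * ((y₂ : ℝ) - y₁)) := by ring
    _ ≤ e * (s * ((y₂ : ℝ) - y₁)) := mul_le_mul_of_nonneg_right hεe hy0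

/-- consequences of the asymptotic formula in all windows, natural `x` -/
theorem winP_DU (Q : ℕ → Prop) {e : ℝ} (he : 0 < e) (B : ℕ) (hQ : ∃ n₀ : ℕ, ∀ n : ℕ, n₀ ≤ n → 2 ∣ n → WinP e B n → Q n)
    {ρ : ℝ} (hρ : 0 < ρ) (hρ2 : ρ ≤ 2 / 3) (A : ℕ) : DStmU (fun _ n => Q n) A (2 / 3 - ρ / 2) := by
  have hρ4 : 0 < ρ / 4 := by positivity
  have hρ8 : 0 < ρ / 8 := by positivity
  have hmin : 0 < min e 1 / 8 := by
    have : 0 < min e 1 := lt_min he one_pos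
    positivity
  obtain ⟨c, hc⟩ := bigU A (B + 3) hρ8 hmin hρ4
  obtain ⟨n₀, hn₀⟩ := hQ
  obtain ⟨m₀, hm₀⟩ := winP_of he B hρ8
  refine ⟨c, fun A₀ => ?_⟩
  obtain ⟨x₁, h₁⟩ := hc A₀
  obtain ⟨m, hm⟩ : ∃ m, m = max (max n₀ m₀) 2 := ⟨_, rfl⟩
  refine ⟨max x₁ (m ^ 2), fun x hx => ?_⟩
  have hxx₁ : x₁ ≤ x := le_trans (le_max_left _ _) hx
  have hxm : m ^ 2 ≤ x := le_trans (le_max_right _ _) hx
  have hm2 : 2 ≤ m := by rw [hm]; exact le_max_right _ _
  have hx1 : 1 ≤ x := le_trans (Nat.one_le_pow _ _ (by omega)) hxm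
  have hx0 : (0 : ℝ) < x := by exact_mod_cast hx1
  have hxr1 : (1 : ℝ) ≤ x := by exact_mod_cast hx1
  obtain ⟨D, hD1, hD2, hD3⟩ := h₁ x hxx₁
  refine ⟨D, hD1, hD2, fun q hq hqx a hqD => ?_⟩
  have hqx' : (q : ℝ) ≤ (x : ℝ) ^ (2 / 3 : ℝ) :=
    hqx.trans (Real.rpow_le_rpow_of_exponent_le hxr1 (by linarith))
  obtain ⟨Bad, hb1, hb2⟩ := hD3 q hq hqx' a hqD
  refine ⟨Bad, hb1, fun n h0 hnx hn hmod h2n => ?_⟩
  obtain ⟨hbig, hR⟩ := hb2 n h0 hnx hn hmod h2n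
  have hn0 : (0 : ℝ) < n := by exact_mod_cast h0
  have hmn : m ≤ n := by
    have h1 : (m : ℝ) ≤ n := by
      have h2 : (m : ℝ) ^ 2 ≤ x := by exact_mod_cast hxm
      calc (m : ℝ) = ((m : ℝ) ^ 2) ^ (1 / 2 : ℝ) := by
            rw [← Real.sqrt_eq_rpow, Real.sqrt_sq (Nat.cast_nonneg _)]
        _ ≤ (x : ℝ) ^ (1 / 2 : ℝ) := Real.rpow_le_rpow (by positivity) h2 (by norm_num)
        _ ≤ (x : ℝ) ^ (1 - ρ / 4) := Real.rpow_le_rpow_of_exponent_le hxr1 (by linarith)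
        _ ≤ n := hbig.le
    exact_mod_cast h1
  have hnn₀ : n₀ ≤ n := le_trans (by rw [hm]; exact le_trans (le_max_left _ _) (le_max_left _ _)) hmn
  have hnm₀ : m₀ ≤ n := le_trans (by rw [hm]; exact le_trans (le_max_right _ _) (le_max_left _ _)) hmn
  have hq4 : (q : ℝ) ≤ (n : ℝ) ^ (2 / 3 - ρ / 4) := by
    calc (q : ℝ) ≤ (x : ℝ) ^ (2 / 3 - ρ / 2) := hqx
      _ ≤ (x : ℝ) ^ ((1 - ρ / 4) * (2 / 3 - ρ / 4)) := by
          apply Real.rpow_le_rpow_of_exponent_le hxr1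
          nlinarith [sq_nonneg ρ]
      _ = ((x : ℝ) ^ (1 - ρ / 4)) ^ (2 / 3 - ρ / 4) := by rw [Real.rpow_mul hx0.le]
      _ ≤ (n : ℝ) ^ (2 / 3 - ρ / 4) := Real.rpow_le_rpow (by positivity) hbig.le (by linarith)
  have hqn : (q : ℝ) * (n : ℝ) ^ (1 / 3 + ρ / 8) ≤ (n : ℝ) ^ (1 - ρ / 8) := by
    calc (q : ℝ) * (n : ℝ) ^ (1 / 3 + ρ / 8) ≤ (n : ℝ) ^ (2 / 3 - ρ / 4) * (n : ℝ) ^ (1 / 3 + ρ / 8) := by gcongr
      _ = (n : ℝ) ^ (1 - ρ / 8) := by
          rw [← Real.rpow_add hn0]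
          congr 1
          ring
  exact hn₀ n hnn₀ h2n (hm₀ n hnm₀ h2n (ρ / 8) q hqn hR)

/-- consequences of the asymptotic formula in all windows, real `x` -/
theorem winP_base (Q : ℕ → Prop) {e : ℝ} (he : 0 < e) (B : ℕ) (hQ : ∃ n₀ : ℕ, ∀ n : ℕ, n₀ ≤ n → 2 ∣ n → WinP e B n → Q n)
    {ρ : ℝ} (hρ : 0 < ρ) (A : ℕ) : Base (fun x q a => (q : ℝ) ≤ x ^ (2 / 3 - ρ) → (evenExc Q x q a).Finite ∧
      ((evenExc Q x q a).ncard : ℝ) ≤ x / (q * Real.log x ^ A)) := by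
  by_cases hρ2 : ρ ≤ 2 / 3
  · obtain ⟨c, h⟩ := transferDU _ (θ := 2 / 3 - ρ / 2) (η := 2 / 3 - ρ) (by linarith) (by linarith) A
      (winP_DU Q he B hQ hρ hρ2 (A + 1))
    refine ⟨c, fun A₀ => ?_⟩
    obtain ⟨x₀, h⟩ := h A₀
    refine ⟨x₀, fun x hx => ?_⟩
    obtain ⟨D, h1, h2, h3⟩ := h x hx
    exact ⟨D, h1, h2, fun q hq a ha hqx => h3 q hq hqx a ha⟩
  · push Not at hρ2
    refine ⟨0, fun A₀ => ⟨2, fun x hx => ⟨∅, by simp, by simp, fun q hq a _ hqx => ?_⟩⟩⟩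
    exfalso
    have h1 : x ^ (2 / 3 - ρ) < 1 := Real.rpow_lt_one_of_one_lt_of_neg (by linarith) (by linarith)
    have h2 : (1 : ℝ) ≤ q := by exact_mod_cast hq
    linarith

end Pool.Agent.H567.PP
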