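import Pool.Graph.R_pool_sql_team_seeded_620a6dc7.helper24_UT_.Stm

/-!
# Project PP (helper567): primes twisted by characters whose conductor has a small radical

Postnikov's formula together with Vinogradov's method gives cancellation in `∑ Λ(n) χ(n) n^{-it}`, `n ≤ N`, for
primitive characters `χ` modulo `q ≤ N^A` with `rad q ≤ (log N)^B`.  Definitions and statements of the steps.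
-/

set_option autoImplicit false

namespace Pool.Agent.H567.PP

open Finset
open Pool.Agent.Y957.VK (TT WJ dz S_VMVT S_DBL S_WB)
open Pool.Agent.helper24_UT (tw CM TB S_ZSX S_PG)

/-- the radical of `q` -/
def rad (q : ℕ) : ℕ := ∏ p ∈ q.primeFactors, p

/-- `r! log (1 + x)`, truncated after the term of degree `r` -/
def Lam (r : ℕ) (x : ℤ) : ℤ := ∑ i ∈ Icc 1 r, (-1) ^ (i - 1) * ((r.factorial / i : ℕ) : ℤ) * x ^ i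

/-- (1) the truncated logarithm is additive modulo high powers -/
def S_LOGADD : Prop := ∀ (r : ℕ) (D x y : ℤ), 1 ≤ r → D ∣ x → D ∣ y →
  D ^ (r + 1) ∣ Lam r (x + y + x * y) - Lam r x - Lam r y

/-- (2) its valuations -/
def S_LAMVAL : Prop := ∀ (r p : ℕ) (x : ℤ), 1 ≤ r → p.Prime → x ≠ 0 → (p : ℤ) ∣ x → (p = 2 → (4 : ℤ) ∣ x) →
  Lam r x ≠ 0 ∧ padicValInt p (Lam r x) = padicValNat p r.factorial + padicValInt p x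

/-- (3) Postnikov's formula for primitive characters -/
def S_POST : Prop := ∀ (q D r : ℕ) (χ : DirichletCharacter ℂ q), 1 ≤ q → 1 ≤ r → χ.IsPrimitive → D ∣ q →
  (∀ p : ℕ, p.Prime → p ∣ q → p ∣ D) → (2 ∣ q → 4 ∣ D) →
  (∀ p : ℕ, p.Prime → p ∣ q → q.factorization p + r.factorial.factorization p ≤ (r + 1) * D.factorization p) →
  ∃ (b : ℕ → ℤ) (Q : ℕ → ℕ), (∀ i ∈ Icc 1 r, 1 ≤ Q i ∧ IsCoprime (b i) (Q i : ℤ) ∧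
    (∀ p : ℕ, p.Prime → p ∣ Q i → p ∣ q) ∧ q ≤ Q i * Nat.gcd q (D ^ i) ∧ Q i * Nat.gcd q (D ^ i) ≤ i * q) ∧
  ∀ w : ℤ, χ ((1 + (D : ℤ) * w : ℤ) : ZMod q) =
    Complex.exp (2 * Real.pi * Complex.I * ((∑ i ∈ Icc 1 r, (b i : ℝ) / (Q i : ℝ) * (w : ℝ) ^ i : ℝ) : ℂ))

/-- the coefficients of the phase of `χ(n + D x y) (n + D x y)^{-it}` as a polynomial in `x y` -/
noncomputable def be (D : ℕ) (t : ℝ) (b : ℕ → ℤ) (Q : ℕ → ℕ) (v : ℤ) (n i : ℕ) : ℝ :=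
  ((b i * v ^ i : ℤ) : ℝ) / (Q i : ℝ) + (-1) ^ i * t * (D : ℝ) ^ i / (2 * Real.pi * i * (n : ℝ) ^ i)

/-- (4) from character sums to bilinear sums -/
def S_SHIFTQ : Prop := ∀ (q D r N N' M : ℕ) (χ : DirichletCharacter ℂ q) (t : ℝ) (b : ℕ → ℤ) (Q : ℕ → ℕ)
  (v : ℕ → ℤ), 1 ≤ q → 1 ≤ r → 1 ≤ D → D ∣ q → (∀ p : ℕ, p.Prime → p ∣ q → p ∣ D) →
  (∀ w : ℤ, χ ((1 + (D : ℤ) * w : ℤ) : ZMod q) =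
    Complex.exp (2 * Real.pi * Complex.I * ((∑ i ∈ Icc 1 r, (b i : ℝ) / (Q i : ℝ) * (w : ℝ) ^ i : ℝ) : ℂ))) →
  (∀ n : ℕ, n.Coprime q → (q : ℤ) ∣ (n : ℤ) * v n - 1) →
  1 ≤ N → N ≤ N' → N' ≤ 2 * N → 1 ≤ M →
  ‖∑ n ∈ Ioc N N', χ (n : ZMod q) * tw t n‖ ≤
    1 / (M : ℝ) ^ 2 * ∑ n ∈ (Ioc N N').filter (fun n => n.Coprime q), ‖TT r M (be D t b Q (v n) n)‖ +
      2 * (D * (M : ℝ) ^ 2) + N * |t| * (D * (M : ℝ) ^ 2 / N) ^ (r + 1)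

/-- (5) spaced points -/
def S_WGAP : Prop := ∀ (s M j Q P : ℕ) (a δ : ℝ), 1 ≤ s → 1 ≤ M → 1 ≤ Q → 1 ≤ P → 0 < δ →
  (∀ l ∈ Icc 1 P, δ ≤ dz (a * Q * l)) →
  WJ s M j a ≤ (2 * (s * (M : ℝ) ^ j) / P + 2 * Q) *
    (2 * (2 * (s * (M : ℝ) ^ j) + 1) + 1 / δ * (1 + Real.log (1 / δ)))

/-- (6) one of the coefficients is good -/
def S_IDX : Prop := ∀ (N n s r m M D q R : ℕ) (t : ℝ) (b : ℕ → ℤ) (Q : ℕ → ℕ), 2 ≤ N → n ∈ Icc N (2 * N) → 1 ≤ s →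
  (N : ℝ) ^ (1 / 4 : ℝ) ≤ q → m = ⌈40 * Real.log q / Real.log N⌉₊ →
  r = ⌈100 * ((Real.log q + Real.log (max |t| 1)) / Real.log N + 1)⌉₊ → M = ⌊(N : ℝ) ^ (2 / 5 : ℝ)⌋₊ →
  (q : ℝ) ^ (1 / m : ℝ) ≤ D → (D : ℝ) ≤ R * (q : ℝ) ^ (1 / m : ℝ) → 2 ≤ R → (R : ℝ) ^ r ≤ (N : ℝ) ^ (1 / 1000 : ℝ) →
  100 * (s : ℝ) ^ 2 * r * (1 + Real.log N) ≤ (N : ℝ) ^ (1 / 1000 : ℝ) →
  (∀ i ∈ Icc 1 r, 1 ≤ Q i ∧ IsCoprime (b i) (Q i : ℤ) ∧ q ≤ Q i * D ^ i ∧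
    (i ≤ m → (Q i : ℝ) ≤ i * (q : ℝ) ^ (1 - i / m : ℝ)) ∧ (m ≤ i → Q i ≤ i)) →
  ∃ i ∈ Icc 1 r, WJ s M i ((b i : ℝ) / (Q i : ℝ) + (-1) ^ i * t * (D : ℝ) ^ i / (2 * Real.pi * i * (n : ℝ) ^ i)) ≤
    (M : ℝ) ^ (2 * i) * (N : ℝ) ^ (-(1 / 200) : ℝ)

/-- (7) bilinear sums with one good coefficient -/
def S_TNQ : Prop := ∃ C : ℕ, ∀ (r s M i : ℕ) (α : ℕ → ℝ) (Δ : ℝ), 20 ≤ r → s = r ^ 2 + r ^ 3 → 1 ≤ M → i ∈ Icc 1 r →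
  1 ≤ Δ → WJ s M i (α i) ≤ (M : ℝ) ^ (2 * i) / Δ →
  ‖TT r M α‖ ≤ (M : ℝ) ^ 2 * Real.exp (C * (r : ℝ) ^ C) *
    ((M : ℝ) ^ (1 / 100000 : ℝ) / Δ) ^ (1 / (4 * (s : ℝ) ^ 2) : ℝ)

/-- (8) the choice of `D` -/
def S_DSEL : Prop := ∀ q m : ℕ, 2 ≤ q → q % 4 ≠ 2 → 1 ≤ m → ∃ D : ℕ, 1 ≤ D ∧ D ∣ q ∧
  (∀ p : ℕ, p.Prime → p ∣ q → p ∣ D) ∧ (2 ∣ q → 4 ∣ D) ∧ (q : ℝ) ^ (1 / m : ℝ) ≤ D ∧
  (D : ℝ) ≤ (2 * rad q : ℕ) * (q : ℝ) ^ (1 / m : ℝ) ∧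
  (∀ r p : ℕ, 2 * m ≤ r + 1 → p.Prime → p ∣ q →
    q.factorization p + r.factorial.factorization p ≤ (r + 1) * D.factorization p) ∧
  (∀ i : ℕ, i ≤ m → (q : ℝ) ^ (i / m : ℝ) ≤ Nat.gcd q (D ^ i)) ∧ q ∣ D ^ m

/-- (8') conductors are not congruent to `2` modulo `4` -/
def S_MOD4 : Prop := ∀ (q : ℕ) (χ : DirichletCharacter ℂ q), χ.IsPrimitive → q % 4 ≠ 2

/-- (9) short character sums to large moduli with a small radical -/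
def S_TBBIG : Prop := ∃ η : ℝ, 0 < η ∧ η ≤ 1 / 10 ∧ ∀ A B K : ℕ, ∃ L₀ : ℝ, 2 ≤ L₀ ∧ ∀ L : ℝ, L₀ ≤ L →
  ∀ (q : ℕ) (χ : DirichletCharacter ℂ q) (t : ℝ), 2 ≤ q → χ.IsPrimitive → (rad q : ℝ) ≤ L ^ B →
  (q : ℝ) ≤ Real.exp (A * L) → |t| ≤ Real.exp (A * L) → ∀ N N' : ℕ, Real.exp (L ^ (1 - η)) ≤ N →
  (N : ℝ) ^ (1 / 4 : ℝ) ≤ q → N ≤ N' → N' ≤ 2 * N →
  ‖∑ n ∈ Ioc N N', χ (n : ZMod q) * tw t n‖ ≤ N / L ^ K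

/-- (10) moduli which are small compared with the length of the sum -/
def S_TBSMALL : Prop := ∃ η : ℝ, 0 < η ∧ η ≤ 1 / 10 ∧ ∀ A K : ℕ, ∃ L₀ : ℝ, 2 ≤ L₀ ∧ ∀ L : ℝ, L₀ ≤ L →
  ∀ (q : ℕ) (χ : DirichletCharacter ℂ q) (t : ℝ), 1 ≤ q → χ ≠ 1 → |t| ≤ Real.exp (A * L) →
  ∀ N N' : ℕ, Real.exp (L ^ (1 - η)) ≤ N → (q : ℝ) ≤ (N : ℝ) ^ (1 / 4 : ℝ) → N ≤ N' → N' ≤ 2 * N →
  ‖∑ n ∈ Ioc N N', χ (n : ZMod q) * tw t n‖ ≤ N / L ^ K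

/-- (11) the complete sums -/
def S_TBALL : Prop := ∃ η : ℝ, 0 < η ∧ η ≤ 1 / 10 ∧ ∀ A B K : ℕ, ∃ L₀ : ℝ, 2 ≤ L₀ ∧ ∀ L : ℝ, L₀ ≤ L →
  ∀ (q : ℕ) (χ : DirichletCharacter ℂ q) (t : ℝ), 2 ≤ q → χ.IsPrimitive → (rad q : ℝ) ≤ L ^ B →
  (q : ℝ) ≤ Real.exp (A * L) → |t| ≤ Real.exp (A * L) → ∀ M : ℕ, Real.exp (L ^ (1 - η)) ≤ M →
  ‖∑ m ∈ Icc 1 M, χ (m : ZMod q) * tw t m‖ ≤ M / L ^ K

/-- (12) the same for the squares -/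
def S_TB2 : Prop := ∃ η : ℝ, 0 < η ∧ η ≤ 1 / 10 ∧ ∀ A B K : ℕ, ∃ L₀ : ℝ, 2 ≤ L₀ ∧ ∀ L : ℝ, L₀ ≤ L →
  ∀ (q : ℕ) (χ : DirichletCharacter ℂ q) (t : ℝ), 8 * rad q < q → χ.IsPrimitive → (rad q : ℝ) ≤ L ^ B →
  (q : ℝ) ≤ Real.exp (A * L) → |t| ≤ Real.exp (A * L) → ∀ M : ℕ, Real.exp (L ^ (1 - η)) ≤ M →
  ‖∑ m ∈ Icc 1 M, χ (m : ZMod q) ^ 2 * tw t m‖ ≤ M / L ^ K

/-- (12') the square of a primitive character is not principal if the conductor is large compared with the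
radical -/
def S_SQNE : Prop := ∀ (q : ℕ) (χ : DirichletCharacter ℂ q), χ.IsPrimitive → 8 * rad q < q → χ ^ 2 ≠ 1

/-- (13) the sums over primes -/
def S_PPR : Prop := ∃ η : ℝ, 0 < η ∧ η ≤ 1 / 10 ∧ ∀ A B K : ℕ, ∃ L₀ : ℝ, 2 ≤ L₀ ∧ ∀ L : ℝ, L₀ ≤ L →
  ∀ (q : ℕ) (χ : DirichletCharacter ℂ q) (t : ℝ), χ.IsPrimitive → (rad q : ℝ) ≤ L ^ B → 8 * L ^ B < q →
  (q : ℝ) ≤ Real.exp (A * L) → |t| ≤ Real.exp (A * L) → ∀ N : ℕ, Real.exp (L ^ (1 - η)) ≤ N →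
  (N : ℝ) ≤ Real.exp L →
  ‖∑ n ∈ Icc 1 N, (ArithmeticFunction.vonMangoldt n : ℂ) * (χ (n : ZMod q) * tw t n)‖ ≤ N / L ^ K

end Pool.Agent.H567.PP
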