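import Pool.Agent.H567.PP.Stm3
import Pool.Agent.H567.HW.Pr5
import Pool.Agent.H567.HW.LongR

/-!
# Project PP (helper567), fourth part: EVERY modulus, the classes whose common divisor with the modulus is not
divisible by one of few large integers
-/

set_option autoImplicit false

namespace Pool.Agent.H567.PP

open Finset
open Pool.Agent.Y883.GJ
open Pool.Agent.H807R2.Dav (ee)
open Pool.Agent.H567.HW
open Pool.Agent.R460.GS (BdAt MajAt MinAt ApAt NcAt)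
open Pool.Agent.T6.H3.FF (WinM)
open Pool.Agent.Y614.GJ.Core (P)

/-- the integers of a set divided by their common divisors with the integers up to `X` -/
noncomputable def shr (S : Finset ℕ) (X : ℝ) : Finset ℕ :=
  (S ×ˢ range ⌊X⌋₊).image (fun p => p.1 / Nat.gcd p.1 (p.2 + 1))

lemma mem_shr {S : Finset ℕ} {X : ℝ} {e k : ℕ} (he : e ∈ S) (hk1 : 1 ≤ k) (hk : (k : ℝ) ≤ X) :
    e / Nat.gcd e k ∈ shr S X := by
  unfold shr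
  rw [mem_image]
  have h1 : k ≤ ⌊X⌋₊ := Nat.le_floor hk
  refine ⟨(e, k - 1), ?_, ?_⟩
  · rw [mem_product, mem_range]
    exact ⟨he, by simp only; omega⟩
  · simp only
    rw [Nat.sub_add_cancel hk1]

lemma shr_card (S : Finset ℕ) {X : ℝ} (hX : 0 ≤ X) : ((shr S X).card : ℝ) ≤ S.card * X := by
  have h1 : (shr S X).card ≤ S.card * ⌊X⌋₊ := by
    unfold shr
    refine card_image_le.trans ?_
    rw [card_product, card_range]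
  have h2 : ((shr S X).card : ℝ) ≤ (S.card : ℝ) * (⌊X⌋₊ : ℕ) := by exact_mod_cast h1
  exact h2.trans (mul_le_mul_of_nonneg_left (Nat.floor_le hX) (Nat.cast_nonneg _))

lemma rad_div' {e j : ℕ} (he : 1 ≤ e) (hj : 1 ≤ j) : rad e ≤ rad (e / Nat.gcd e j) * j := by
  obtain ⟨m, hm⟩ : ∃ m, m = e / Nat.gcd e j := ⟨_, rfl⟩
  have hg : 1 ≤ Nat.gcd e j := Nat.gcd_pos_of_pos_left _ he
  have hem : e = m * Nat.gcd e j := by
    rw [hm]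
    exact (Nat.div_mul_cancel (Nat.gcd_dvd_left e j)).symm
  rw [← hm]
  have hm0 : m ≠ 0 := by
    rintro rfl
    omega
  have h1 : e.primeFactors ⊆ m.primeFactors ∪ j.primeFactors := by
    intro p hp
    rw [mem_union]
    obtain ⟨hpp, hpe, -⟩ := Nat.mem_primeFactors.1 hp
    rw [hem] at hpe
    rcases (Nat.Prime.dvd_mul hpp).1 hpe with h | h
    · exact Or.inl (Nat.mem_primeFactors.2 ⟨hpp, h, hm0⟩)
    · exact Or.inr (Nat.mem_primeFactors.2 ⟨hpp, h.trans (Nat.gcd_dvd_right e j), by omega⟩)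
  have h2 : rad e ≤ ∏ p ∈ m.primeFactors ∪ j.primeFactors, p := by
    unfold rad
    exact Finset.prod_le_prod_of_subset_of_one_le' h1 fun p hp _ => by
      rw [mem_union] at hp
      rcases hp with h | h
      · exact (Nat.prime_of_mem_primeFactors h).pos
      · exact (Nat.prime_of_mem_primeFactors h).pos
  have h3 : (∏ p ∈ m.primeFactors ∪ j.primeFactors, p) * (∏ p ∈ m.primeFactors ∩ j.primeFactors, p) =
      (∏ p ∈ m.primeFactors, p) * ∏ p ∈ j.primeFactors, p := Finset.prod_union_inter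
  have h4 : 1 ≤ ∏ p ∈ m.primeFactors ∩ j.primeFactors, p :=
    Finset.prod_pos fun p hp => (Nat.prime_of_mem_primeFactors (mem_inter.1 hp).1).pos
  have h5 : ∏ p ∈ j.primeFactors, p ≤ j := Nat.le_of_dvd hj (Nat.prod_primeFactors_dvd j)
  calc rad e ≤ ∏ p ∈ m.primeFactors ∪ j.primeFactors, p := h2
    _ ≤ (∏ p ∈ m.primeFactors ∪ j.primeFactors, p) * (∏ p ∈ m.primeFactors ∩ j.primeFactors, p) :=
        Nat.le_mul_of_pos_right _ h4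
    _ = (∏ p ∈ m.primeFactors, p) * ∏ p ∈ j.primeFactors, p := h3
    _ ≤ rad m * j := Nat.mul_le_mul_left _ h5

/-- the radicals of the members of `shr` -/
lemma shr_rad {S : Finset ℕ} {X R : ℝ} (hX : 0 < X) (hS : ∀ e ∈ S, 1 ≤ e ∧ R * X < (rad e : ℝ)) {d : ℕ}
    (hd : d ∈ shr S X) : 1 ≤ d ∧ R < (rad d : ℝ) := by
  unfold shr at hd
  rw [mem_image] at hd
  obtain ⟨⟨e, j⟩, he, rfl⟩ := hd
  rw [mem_product, mem_range] at he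
  obtain ⟨he, hj⟩ := he
  simp only at he hj ⊢
  obtain ⟨he1, he2⟩ := hS e he
  have hjr : ((j + 1 : ℕ) : ℝ) ≤ X := by
    refine le_trans ?_ (Nat.floor_le hX.le)
    exact_mod_cast hj
  have h1 : (rad e : ℝ) ≤ (rad (e / Nat.gcd e (j + 1)) : ℝ) * ((j + 1 : ℕ) : ℝ) := by
    exact_mod_cast rad_div' he1 (by omega)
  refine ⟨Nat.div_pos (Nat.le_of_dvd he1 (Nat.gcd_dvd_left _ _)) (Nat.gcd_pos_of_pos_left _ he1), ?_⟩
  have h2 : R * X < (rad (e / Nat.gcd e (j + 1)) : ℝ) * X := by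
    refine lt_of_lt_of_le he2 (h1.trans ?_)
    exact mul_le_mul_of_nonneg_left hjr (Nat.cast_nonneg _)
  exact lt_of_mul_lt_mul_right h2 hX.le

/-- the lemma on the greatest common divisors -/
lemma lift_ex {E : Finset ℕ} {X₂ X : ℝ} {e k q a a' : ℕ} (he : e ∈ E) (he0 : 1 ≤ e) (hk1 : 1 ≤ k)
    (hk : (k : ℝ) ≤ X) (hd : e ∣ k * q) (ha : a' % q = a % q)
    (hno : ∀ d ∈ shr (shr E X₂) X, ¬ d ∣ Nat.gcd a q) : X₂ * (Nat.gcd a' e : ℝ) < e := by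
  by_contra hcon
  rw [not_lt] at hcon
  obtain ⟨g, hg⟩ : ∃ g, g = Nat.gcd a' e := ⟨_, rfl⟩
  rw [← hg] at hcon
  have hge : g ∣ e := by rw [hg]; exact Nat.gcd_dvd_right _ _
  have hga : g ∣ a' := by rw [hg]; exact Nat.gcd_dvd_left _ _
  have hg0 : 0 < g := Nat.pos_of_dvd_of_pos hge he0
  obtain ⟨t, ht⟩ := hge
  have ht0 : 1 ≤ t := by
    rcases Nat.eq_zero_or_pos t with h | h
    · rw [h, mul_zero] at ht
      omega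
    · exact h
  have hgr : (0 : ℝ) < g := by exact_mod_cast hg0
  have htX : (t : ℝ) ≤ X₂ := by
    have h1 : (e : ℝ) = g * t := by rw [ht]; push_cast; ring
    rw [h1] at hcon
    have h2 : (t : ℝ) * g ≤ X₂ * g := by linarith
    exact le_of_mul_le_mul_right h2 hgr
  have h3 : g ∈ shr E X₂ := by
    have h4 := mem_shr he ht0 htX
    have h5 : Nat.gcd e t = t := Nat.gcd_eq_right ⟨g, by rw [ht, mul_comm]⟩
    rw [h5] at h4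
    have h6 : e / t = g := by
      rw [ht]
      exact Nat.mul_div_cancel _ ht0
    rwa [h6] at h4
  have h7 := mem_shr h3 hk1 hk
  refine hno _ h7 ?_
  have hgk : 0 < Nat.gcd g k := Nat.gcd_pos_of_pos_right _ hk1
  have hdq : g / Nat.gcd g k ∣ q := by
    have h8 : g ∣ k * q := (Dvd.intro t ht.symm).trans hd
    have h9 : g / Nat.gcd g k ∣ k / Nat.gcd g k * q := by
      obtain ⟨x, hx⟩ := Nat.gcd_dvd_left g k
      obtain ⟨y, hy⟩ := Nat.gcd_dvd_right g k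
      obtain ⟨w, hw⟩ : ∃ w, w = Nat.gcd g k := ⟨_, rfl⟩
      rw [← hw] at hx hy hgk ⊢
      rw [hx, Nat.mul_div_cancel_left x hgk]
      rw [hy, Nat.mul_div_cancel_left y hgk]
      rw [hx, hy, mul_assoc] at h8
      exact Nat.dvd_of_mul_dvd_mul_left hgk h8
    exact (Nat.coprime_div_gcd_div_gcd hgk).dvd_of_dvd_mul_left h9
  have hda' : g / Nat.gcd g k ∣ a' := (Nat.div_dvd_of_dvd (Nat.gcd_dvd_left g k)).trans hga
  refine Nat.dvd_gcd ?_ hdq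
  have h10 : g / Nat.gcd g k ∣ a' % q := (Nat.dvd_mod_iff hdq).2 hda'
  rw [ha] at h10
  exact (Nat.dvd_mod_iff hdq).1 h10

/-- (21) Jacobi sums: the conductor of the quotient of the two characters -/
def S_JACF : Prop := ∀ (q : ℕ) [NeZero q] (χ ξ : DirichletCharacter ℂ q) (a : ZMod q),
  ‖∑ l : ZMod q, (χ * ξ)⁻¹ l * χ (a - l)‖ ≤ q * (1 + Real.log q) * Real.sqrt (1 / (ξ.conductor : ℝ))

/-- the correlation with a shifted character, only the common divisor with the conductor matters -/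
def ShG (N : ℕ) (ρ : ℝ) (B C K : ℕ) (F : ℕ → ℂ) : Prop :=
  ∀ (q : ℕ) [NeZero q], (q : ℝ) ≤ (N : ℝ) ^ (7 / 10 - ρ) → ∀ (χ : DirichletCharacter ℂ q) (a : ZMod q),
    Real.log N ^ K * (Nat.gcd a.val χ.conductor : ℝ) < χ.conductor →
    ∀ η : ℝ, |η| ≤ Real.log N ^ C / N → ∀ y : ℕ, y ≤ N →
    ‖∑ l : ZMod q, cl q y F η l * χ (a - l)‖ ≤ N / Real.log N ^ B

/-- (22) correlations of the primes with shifted characters -/
def S_SHL2 : Prop := ∀ (B C : ℕ) (ρ : ℝ), 0 < ρ → ∃ K N₀ : ℕ, ∀ N : ℕ, N₀ ≤ N →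
  ShG N (-(1 / 10) + ρ) B C K LA

/-- for every character of a large conductor: the sums with `G` are small, or the correlations of `F` with the shifted
character are small -/
def DichAt (N C K U₁ B₂ : ℕ) (F G : ℕ → ℂ) (q : ℕ) [NeZero q] (a : ZMod q) : Prop :=
  ∀ j : ℕ, ((j + 1 : ℕ) : ℝ) ≤ Real.log N ^ C → ∀ χ : DirichletCharacter ℂ ((j + 1) * q),
    Real.log N ^ K < (χ.conductor : ℝ) →
    (∀ η : ℝ, |η| ≤ Real.log N ^ C / N → ∀ y : ℕ, y ≤ N → ‖cs ((j + 1) * q) y G η χ‖ ≤ N / Real.log N ^ U₁) ∨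
    (∀ a' : ZMod ((j + 1) * q), ((a'.val : ℕ) : ZMod q) = a → ∀ η : ℝ, |η| ≤ Real.log N ^ C / N →
      ∀ y : ℕ, y ≤ N →
      ‖∑ l : ZMod ((j + 1) * q), cl ((j + 1) * q) y F η l * χ⁻¹ (a' - l)‖ ≤ N / Real.log N ^ B₂)

/-- (23) CORE6: the mean square in a residue class, under the dichotomy -/
def S_CORE6 : Prop := ∀ (A : ℕ) (ρ₁ ρ₂ : ℝ), -(3 / 10) < ρ₂ → ρ₂ < ρ₁ → ∃ A₁ : ℕ, ∀ C : ℕ, ∃ A₂ : ℕ, ∀ C₃ : ℕ,
  ∃ U₁ B₂ : ℕ, ∀ K : ℕ, ∃ U N₀ : ℕ, ∀ N : ℕ, N₀ ≤ N → ∀ F G : ℕ → ℂ, BdAt N F → BdAt N G →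
  MinAt N ρ₂ A₁ C G → MajAt N ρ₂ A₂ C C₃ G → ApAt N K U G → NcAt N U G →
  ∀ (q : ℕ) [NeZero q], (q : ℝ) ≤ (N : ℝ) ^ (7 / 10 - ρ₁) → ∀ a : ZMod q, DichAt N C K U₁ B₂ F G q a →
  ∀ y₁ y₂ : ℕ, y₁ ≤ N → y₂ ≤ N →
    ∑ n ∈ (Icc 1 (2 * N)).filter (fun n : ℕ => (n : ZMod q) = a),
      ‖∑ b ∈ Icc 1 y₁, ∑ c ∈ Icc 1 y₂, if b + c = n then F b * G c else 0‖ ^ 2 ≤
        (N : ℝ) ^ 3 / (q * Real.log N ^ A)

/-- (24) as `S_FRRAD`, for every modulus: the classes whose common divisor with the modulus is not divisible by a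
member of `D` -/
def S_FRU : Prop := ∀ (Q : ℕ → Prop) (W : ℕ), (∃ n₀ : ℕ, ∀ n : ℕ, n₀ ≤ n → 2 ∣ n → WinM W n → Q n) →
  ∀ (ρ : ℝ), 0 < ρ → ∀ A : ℕ,
    ∃ c : ℕ, ∀ A₀ : ℕ, ∃ x₀ : ℝ, ∀ x : ℝ, x₀ ≤ x → ∃ D : Finset ℕ, (D.card : ℝ) ≤ Real.log x ^ c ∧
      (∀ d ∈ D, Real.log x ^ A₀ < (rad d : ℝ)) ∧
      ∀ q : ℕ, 1 ≤ q → (q : ℝ) ≤ x ^ (4 / 5 - ρ) → ∀ a : ℤ, (∀ d ∈ D, ¬ d ∣ Int.gcd a q) →
        ({n : ℕ | 0 < n ∧ (n : ℝ) ≤ x ∧ 2 ∣ n ∧ (n : ℤ) ≡ a [ZMOD q] ∧ ¬ Q n}).Finite ∧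
        (({n : ℕ | 0 < n ∧ (n : ℝ) ≤ x ∧ 2 ∣ n ∧ (n : ℤ) ≡ a [ZMOD q] ∧ ¬ Q n}.ncard : ℕ) : ℝ) ≤
          x / (q * Real.log x ^ A)

/-- (25) the mean square in a residue class, the second function in almost all windows, under the dichotomy -/
def S_COREU : Prop := ∀ (F G : ℕ → ℂ) (A C C₃ : ℕ) (L : ℝ) (Y N Q q : ℕ) [NeZero q] (a : ZMod q),
    N = 3 * Y → 1 ≤ Q → Q ≤ Y → L = Real.log Q → 200 ≤ L → (q : ℝ) * L ^ C ≤ Q →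
    (∑ n ∈ Icc 1 Q, ‖F n‖ ^ 2 ≤ Q * L ^ 8) → (∀ n, n ≤ N → ‖G n‖ ≤ L ^ 2) →
    (∀ (k : ℕ) (h : ℤ) (β : ℝ), L ^ C ≤ k → (q : ℝ) * k * L ^ C ≤ Q →
      IsCoprime h (k : ℤ) → |q * β - h / k| ≤ 1 / (k : ℝ) ^ 2 → P q Q F β ≤ (Q : ℝ) ^ 2 / (q * L ^ (A + 9))) →
    (∀ (q' : ℕ) [NeZero q'], (q' : ℝ) ≤ q * L ^ C →
      ∃ B : Finset (DirichletCharacter ℂ q'), (B.card : ℝ) ≤ L ^ C₃ ∧
      ∀ η : ℝ, |η| ≤ L ^ C / Q → ∀ S : Finset (DirichletCharacter ℂ q'), Disjoint S B →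
      ∑ u ∈ Ico Y (2 * Y), ∑ χ ∈ S, ‖∑ n ∈ Ioc u (u + Q), G n * χ (n : ZMod q') * ee (n * η)‖ ^ 2 ≤
        Y * ((Q : ℝ) ^ 2 / L ^ (A + 2 * C + 9 + 4))) →
    (∀ (q' : ℕ) [NeZero q'], (q' : ℝ) ≤ q * L ^ C → ∀ η : ℝ,
      ∑ u ∈ Ico Y (2 * Y), ∑ l : ZMod q', (if IsUnit l then 0 else
        ‖∑ n ∈ (Ioc u (u + Q)).filter (fun n : ℕ => (n : ZMod q') = l), G n * ee (n * η)‖ ^ 2) ≤
        Y * ((Q : ℝ) ^ 2 / (q' * L ^ (A + 2 * C + 9 + 2)))) →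
    (∀ j : ℕ, ((j + 1 : ℕ) : ℝ) ≤ L ^ C → ∀ χ : DirichletCharacter ℂ ((j + 1) * q),
      (∀ η : ℝ, |η| ≤ L ^ C / Q →
        ∑ u ∈ Ico Y (2 * Y), ‖∑ n ∈ Ioc u (u + Q), G n * χ (n : ZMod ((j + 1) * q)) * ee (n * η)‖ ^ 2 ≤
          Y * ((Q : ℝ) / L ^ (C₃ + (A + 2 * C + 9) + 4)) ^ 2) ∨
      (∀ a' : ZMod ((j + 1) * q), ((a'.val : ℕ) : ZMod q) = a → ∀ η : ℝ, |η| ≤ L ^ C / Q →
        ‖∑ l : ZMod ((j + 1) * q), cl ((j + 1) * q) Q F η l * χ⁻¹ (a' - l)‖ ≤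
          Q / L ^ (2 * C₃ + (A + 2 * C + 9) + 3))) →
    ∑ n ∈ (Icc (Y + 2 * Q) (2 * Y)).filter (fun n : ℕ => (n : ZMod q) = a),
      ‖∑ b ∈ Icc 1 Q, F b * G (n - b)‖ ^ 2 ≤ Y * (Q : ℝ) ^ 2 / (q * L ^ A)

/-- as `CoreVStm`, the condition depends on the class of the sum of the two variables -/
def CoreVU (R : ℕ → ℕ → ℕ → Prop) (A D : ℕ) (ρ : ℝ) : Prop := ∃ B : ℕ, ∀ E : ℕ, ∃ Y₀ : ℕ, ∀ Y : ℕ, Y₀ ≤ Y →
    ∀ z : ℕ, Real.log (6 * Y) ^ B ≤ z → (z : ℝ) ≤ Real.log Y ^ E → ∀ (q Q V : ℕ) [NeZero q],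
    (q : ℝ) * (Y : ℝ) ^ (1 / 3 + ρ) ≤ Q → Q ≤ Y → V ≤ 2 * Y → (V : ℝ) ≤ Q * Real.log Q ^ D →
    ∀ a : ℕ, R Y q a →
      ∑ n ∈ (Icc (Y + 2 * Q) (2 * Y)).filter (fun n : ℕ => ((n + V : ℕ) : ZMod q) = (a : ZMod q)),
        ‖∑ b ∈ Icc 1 Q, LA (V + b) * GZ z (n - b)‖ ^ 2 ≤ Y * (Q : ℝ) ^ 2 / (q * Real.log Q ^ A)

/-- the exceptional integers of the scale `Y` -/
noncomputable def E3 (A' : ℕ) (r : ℝ) (K K₂ C Y : ℕ) : Finset ℕ :=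
  shr (shr (E1 A' r K Y) (Real.log Y ^ K₂)) (Real.log Y ^ C)

/-- no exceptional integer of the scale `Y` divides the greatest common divisor -/
def RU (A' : ℕ) (r : ℝ) (K K₂ C Y q a : ℕ) : Prop := ∀ d ∈ E3 A' r K K₂ C Y, ¬ d ∣ Nat.gcd a q

/-- (26) the mean square of the error -/
def S_CVU : Prop := ∀ (A D : ℕ) (ρ : ℝ), 0 < ρ → ∃ A' K₂ C : ℕ, ∀ K : ℕ,
  CoreVU (RU A' (min (ρ / 2 / 2) (1 / 3)) K K₂ C) A D ρ

/-- (27) long first summands -/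
def S_LONGU : Prop := ∀ (R : ℕ → ℕ → ℕ → Prop) (A : ℕ) (ρ : ℝ), 0 < ρ →
  CoreVU R (6 * A + 30) (2 * A + 8) (ρ / 2) → LongStm (AdX R) A ρ

end Pool.Agent.H567.PP
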